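import Mathlib

/-!
Families of simplices given by their barycentric coordinate functions (H-families),
and the splitting step.
-/

open Filter Topology

set_option linter.unusedSectionVars false

namespace Tangle

section Basic

variable {ι κ E : Type*} [Fintype κ] [DecidableEq κ] [AddCommGroup E] [Module ℝ E]

/-- Contact of facet `l` of the simplex with coordinates `b` with facet `m` of the simplex with
coordinates `g`, at the point `x`, which lies in the relative interior of both facets. -/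
def Con (b : κ → (E →ᵃ[ℝ] ℝ)) (l : κ) (g : κ → (E →ᵃ[ℝ] ℝ)) (m : κ) (x : E) : Prop :=
  (∃ c : ℝ, 0 < c ∧ ∀ y, b l y = -c * g m y) ∧ b l x = 0 ∧
    (∀ k, k ≠ l → 0 < b k x) ∧ (∀ k, k ≠ m → 0 < g k x)

theorem Con.symm {b : κ → (E →ᵃ[ℝ] ℝ)} {l : κ} {g : κ → (E →ᵃ[ℝ] ℝ)} {m : κ} {x : E}
    (h : Con b l g m x) : Con g m b l x := by
  obtain ⟨⟨c, hc, hcy⟩, h0, h1, h2⟩ := h
  refine ⟨⟨c⁻¹, inv_pos.2 hc, fun y => ?_⟩, ?_, h2, h1⟩
  · rw [hcy y]; field_simp
  · have := hcy x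
    rw [h0] at this
    have h3 : c * g m x = 0 := by linarith
    rcases mul_eq_zero.1 h3 with h | h
    · exact absurd h hc.ne'
    · exact h

/-- One simplex in barycentric form. -/
structure IsBary (b : κ → (E →ᵃ[ℝ] ℝ)) : Prop where
  sum_one : ∀ x, ∑ k, b k x = 1
  inj : ∀ x y, (∀ k, b k x = b k y) → x = y
  surj : ∀ t : κ → ℝ, ∑ k, t k = 1 → ∃ x, ∀ k, b k x = t k

theorem IsBary.vertex {b : κ → (E →ᵃ[ℝ] ℝ)} (hb : IsBary b) (k : κ) :
    ∃ v, b k v = 1 ∧ ∀ l, l ≠ k → b l v = 0 := by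
  obtain ⟨v, hv⟩ := hb.surj (Pi.single k 1) (by simp)
  refine ⟨v, by rw [hv]; simp, fun l hl => ?_⟩
  rw [hv]; simp [hl]

variable (ι κ E) in
/-- A tangled family in barycentric form. -/
structure HFam where
  a : ι → κ → (E →ᵃ[ℝ] ℝ)
  bary : ∀ i, IsBary (a i)
  disj : ∀ i j, i ≠ j → ∀ x, (∀ k, 0 < a i k x) → (∀ l, 0 < a j l x) → False
  contact : ∀ i k, ∃ j l x, j ≠ i ∧ Con (a i) k (a j) l x

/-- The splitting condition at body `i0` with cutting facets `k0`, `k1`. -/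
def SplitAt (F : HFam ι κ E) (i0 : ι) (k0 k1 : κ) : Prop :=
  ∃ ρ : ℝ, 0 < ρ ∧ ∀ k, k ≠ k0 → k ≠ k1 →
    ∃ j l x, j ≠ i0 ∧ Con (F.a i0) k (F.a j) l x ∧ F.a i0 k0 x = ρ * F.a i0 k1 x

/-- Cutting a simplex: the part with `b k0 ≥ ρ * b k1`. -/
noncomputable def cut (b : κ → (E →ᵃ[ℝ] ℝ)) (k0 k1 : κ) (ρ : ℝ) : κ → (E →ᵃ[ℝ] ℝ) := fun k =>
  if k = k0 then b k0 - ρ • b k1 else if k = k1 then (1 + ρ) • b k1 else b k

theorem cut_k0 (b : κ → (E →ᵃ[ℝ] ℝ)) (k0 k1 : κ) (ρ : ℝ) (x : E) :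
    cut b k0 k1 ρ k0 x = b k0 x - ρ * b k1 x := by
  simp [cut]

theorem cut_k1 (b : κ → (E →ᵃ[ℝ] ℝ)) {k0 k1 : κ} (h : k0 ≠ k1) (ρ : ℝ) (x : E) :
    cut b k0 k1 ρ k1 x = (1 + ρ) * b k1 x := by
  simp [cut, h.symm]

theorem cut_of_ne (b : κ → (E →ᵃ[ℝ] ℝ)) {k0 k1 k : κ} (h0 : k ≠ k0) (h1 : k ≠ k1) (ρ : ℝ) :
    cut b k0 k1 ρ k = b k := by
  simp [cut, h0, h1]

theorem cut_isBary {b : κ → (E →ᵃ[ℝ] ℝ)} (hb : IsBary b) {k0 k1 : κ} (h : k0 ≠ k1) {ρ : ℝ}
    (hρ : 0 < ρ) : IsBary (cut b k0 k1 ρ) := by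
  have key : ∀ (f : κ → ℝ), ∑ k, (if k = k0 then f k0 - ρ * f k1 else if k = k1 then (1 + ρ) * f k1
      else f k) = ∑ k, f k := by
    intro f
    have e : ∀ k, (if k = k0 then f k0 - ρ * f k1 else if k = k1 then (1 + ρ) * f k1 else f k)
        = f k + ((if k = k0 then (-(ρ * f k1)) else 0) + (if k = k1 then ρ * f k1 else 0)) := by
      intro k
      by_cases h0 : k = k0
      · subst h0; simp [h]; ring
      · by_cases h1 : k = k1
        · subst h1; simp [h0]; ring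
        · simp [h0, h1]
    rw [Finset.sum_congr rfl (fun k _ => e k), Finset.sum_add_distrib, Finset.sum_add_distrib]
    simp
  have kv : ∀ k x, cut b k0 k1 ρ k x = if k = k0 then b k0 x - ρ * b k1 x else if k = k1 then
      (1 + ρ) * b k1 x else b k x := by
    intro k x
    by_cases h0 : k = k0
    · subst h0; simp [cut_k0]
    · by_cases h1 : k = k1
      · subst h1; simp [h0, cut_k1 b h]
      · simp [h0, h1, cut_of_ne b h0 h1]
  refine ⟨fun x => ?_, fun x y hxy => ?_, fun t ht => ?_⟩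
  · rw [← hb.sum_one x, ← key (fun k => b k x)]
    exact Finset.sum_congr rfl (fun k _ => kv k x)
  · apply hb.inj
    have e1 : b k1 x = b k1 y := by
      have := hxy k1
      rw [cut_k1 b h, cut_k1 b h] at this
      exact mul_left_cancel₀ (by positivity) this
    intro k
    by_cases h0 : k = k0
    · subst h0
      have := hxy k
      rw [cut_k0, cut_k0, e1] at this
      linarith
    · by_cases h1 : k = k1
      · subst h1; exact e1
      · have := hxy k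
        rwa [cut_of_ne b h0 h1] at this
  · obtain ⟨x, hx⟩ := hb.surj (fun k => if k = k0 then t k0 + ρ / (1 + ρ) * t k1 else if k = k1 then
        t k1 / (1 + ρ) else t k) (by
      refine Eq.trans ?_ ht
      have e : ∀ k, (if k = k0 then t k0 + ρ / (1 + ρ) * t k1 else if k = k1 then
        t k1 / (1 + ρ) else t k) = t k + ((if k = k0 then ρ / (1 + ρ) * t k1 else 0) +
          (if k = k1 then (-(ρ / (1 + ρ) * t k1)) else 0)) := by
        intro k
        by_cases h0 : k = k0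
        · subst h0; simp [h]
        · by_cases h1 : k = k1
          · subst h1; simp [h0]; field_simp; ring
          · simp [h0, h1]
      rw [Finset.sum_congr rfl (fun k _ => e k), Finset.sum_add_distrib, Finset.sum_add_distrib]
      simp)
    refine ⟨x, fun k => ?_⟩
    rw [kv]
    have hk1 : b k1 x = t k1 / (1 + ρ) := by rw [hx]; simp [h.symm]
    have hk0 : b k0 x = t k0 + ρ / (1 + ρ) * t k1 := by rw [hx]; simp
    by_cases h0 : k = k0
    · subst h0; simp only [if_true]; rw [hk0, hk1]; ring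
    · by_cases h1 : k = k1
      · subst h1; simp only [h0, if_true, if_false]; rw [hk1]; field_simp
      · simp only [h0, h1, if_false]; rw [hx]; simp [h0, h1]

theorem cut_pos {b : κ → (E →ᵃ[ℝ] ℝ)} {k0 k1 : κ} (h : k0 ≠ k1) {ρ : ℝ}
    (hρ : 0 < ρ) {x : E} (hx : ∀ k, 0 < cut b k0 k1 ρ k x) : ∀ k, 0 < b k x := by
  have h1 : 0 < b k1 x := by
    have := hx k1
    rw [cut_k1 b h] at this
    exact (mul_pos_iff_of_pos_left (by positivity)).1 this
  intro k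
  by_cases hk0 : k = k0
  · subst hk0
    have := hx k
    rw [cut_k0] at this
    nlinarith [mul_pos hρ h1]
  · by_cases hk1 : k = k1
    · subst hk1; exact h1
    · have := hx k
      rwa [cut_of_ne b hk0 hk1] at this

theorem con_cut_k1 {b g : κ → (E →ᵃ[ℝ] ℝ)} {k0 k1 m : κ} (h : k0 ≠ k1) {ρ : ℝ}
    (hρ : 0 < ρ) {x : E} (hc : Con b k1 g m x) : Con (cut b k0 k1 ρ) k1 g m x := by
  obtain ⟨⟨c, hc, hcy⟩, h0, h1, h2⟩ := hc
  refine ⟨⟨(1 + ρ) * c, by positivity, fun y => ?_⟩, ?_, fun k hk => ?_, h2⟩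
  · rw [cut_k1 b h, hcy]; ring
  · rw [cut_k1 b h, h0]; ring
  · by_cases hk0 : k = k0
    · subst hk0
      rw [cut_k0, h0]; simpa using h1 k hk
    · rw [cut_of_ne b hk0 hk]; exact h1 k hk

theorem con_cut_other {b g : κ → (E →ᵃ[ℝ] ℝ)} {k0 k1 l m : κ} (h : k0 ≠ k1) {ρ : ℝ}
    (hρ : 0 < ρ) (hl0 : l ≠ k0) (hl1 : l ≠ k1) {x v : E} (hc : Con b l g m x)
    (hv : b k0 v = 1) (hv' : ∀ k, k ≠ k0 → b k v = 0)
    (hx : 0 ≤ b k0 x - ρ * b k1 x) :
    ∃ δ : ℝ, 0 < δ ∧ ∀ ε : ℝ, 0 < ε → ε < δ →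
      Con (cut b k0 k1 ρ) l g m (AffineMap.lineMap x v ε) ∧
      b k0 (AffineMap.lineMap x v ε) = (1 - ε) * b k0 x + ε ∧
      b k1 (AffineMap.lineMap x v ε) = (1 - ε) * b k1 x := by
  obtain ⟨⟨c, hc, hcy⟩, h0, h1, h2⟩ := hc
  have hval : ∀ (f : E →ᵃ[ℝ] ℝ) (ε : ℝ), f (AffineMap.lineMap x v ε) = (1 - ε) * f x + ε * f v := by
    intro f ε
    rw [AffineMap.apply_lineMap, AffineMap.lineMap_apply_ring]
  -- small ε keeps g positive
  have hg : ∀ᶠ ε in 𝓝[>] (0:ℝ), ∀ k, k ≠ m → 0 < (1 - ε) * g k x + ε * g k v := by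
    rw [Filter.eventually_all]
    intro k
    by_cases hk : k = m
    · simp [hk]
    · have hcont : Tendsto (fun ε : ℝ => (1 - ε) * g k x + ε * g k v) (𝓝[>] 0)
          (𝓝 ((1 - 0) * g k x + 0 * g k v)) := by
        apply Filter.Tendsto.mono_left _ nhdsWithin_le_nhds
        apply Continuous.tendsto
        fun_prop
      have hpos : (0:ℝ) < (1 - 0) * g k x + 0 * g k v := by simpa using h2 k hk
      filter_upwards [hcont.eventually (lt_mem_nhds hpos)] with ε hε _ using hε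
  have hlt1 : ∀ᶠ ε in 𝓝[>] (0:ℝ), ε < 1 :=
    nhdsWithin_le_nhds (gt_mem_nhds (by norm_num : (0:ℝ) < 1))
  obtain ⟨δ, hδ, hδ'⟩ := (mem_nhdsGT_iff_exists_Ioo_subset.1 (hg.and hlt1))
  refine ⟨δ, hδ, fun ε hε hεδ => ?_⟩
  obtain ⟨hgε, hε1⟩ := hδ' ⟨hε, hεδ⟩
  have hε1' : (0:ℝ) < 1 - ε := by linarith [show ε < 1 from hε1]
  refine ⟨⟨⟨c, hc, fun y => ?_⟩, ?_, fun k hk => ?_, fun k hk => ?_⟩, ?_, ?_⟩
  · rw [cut_of_ne b hl0 hl1, hcy]
  · rw [cut_of_ne b hl0 hl1, hval, h0, hv' l hl0]; ring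
  · by_cases hk0 : k = k0
    · subst hk0
      rw [cut_k0, hval, hval, hv, hv' k1 h.symm]
      nlinarith [mul_nonneg hε1'.le hx]
    · by_cases hk1 : k = k1
      · subst hk1
        rw [cut_k1 b h, hval, hv' k hk0]
        have := h1 k hk
        have : 0 < (1 - ε) * b k x + ε * 0 := by simpa using mul_pos hε1' this
        positivity
      · rw [cut_of_ne b hk0 hk1, hval, hv' k hk0]
        simpa using mul_pos hε1' (h1 k hk)
  · rw [hval]; exact hgε k hk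
  · rw [hval, hv]; ring
  · rw [hval, hv' k1 h.symm]; ring

end Basic

end Tangle
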