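import Mathlib
import Pool.Agent.Lib_helper86.Tangle.HFam

/-! The splitting step: cutting one simplex of a tangled family into two. -/

open Filter Topology

set_option linter.unusedSectionVars false

namespace Tangle

variable {ι κ E : Type*} [Fintype κ] [DecidableEq κ] [DecidableEq ι] [AddCommGroup E] [Module ℝ E]

theorem HFam.split (F : HFam ι κ E) {i0 : ι} {k0 k1 : κ} (h01 : k0 ≠ k1)
    (hs : SplitAt F i0 k0 k1)
    (hk : ∃ k2 k3 : κ, k2 ≠ k3 ∧ k2 ≠ k0 ∧ k2 ≠ k1 ∧ k3 ≠ k0 ∧ k3 ≠ k1) :
    ∃ F' : HFam (Option ι) κ E, SplitAt F' (some i0) k0 k1 := by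
  obtain ⟨ρ, hρ, hs⟩ := hs
  set b := F.a i0 with hb
  have hbary : IsBary b := F.bary i0
  have hρ' : 0 < ρ⁻¹ := inv_pos.2 hρ
  set A := cut b k0 k1 ρ with hA
  set B := cut b k1 k0 ρ⁻¹ with hB
  obtain ⟨v0, hv0, hv0'⟩ := hbary.vertex k0
  obtain ⟨v1, hv1, hv1'⟩ := hbary.vertex k1
  have posA : ∀ x, (∀ k, 0 < A k x) → ∀ k, 0 < b k x := fun x hx => cut_pos h01 hρ hx
  have posB : ∀ x, (∀ k, 0 < B k x) → ∀ k, 0 < b k x := fun x hx => cut_pos h01.symm hρ' hx
  have relAB : ∀ y, A k0 y = -ρ * B k1 y := by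
    intro y
    rw [hA, hB, cut_k0, cut_k0]
    field_simp
    ring
  -- the contact between the two pieces
  have hAB : ∃ x, Con A k0 B k1 x := by
    obtain ⟨k2, k3, h23, h20, h21, h30, h31⟩ := hk
    obtain ⟨j2, l2, x2, -, ⟨-, e2, p2, -⟩, r2⟩ := hs k2 h20 h21
    obtain ⟨j3, l3, x3, -, ⟨-, e3, p3, -⟩, r3⟩ := hs k3 h30 h31
    have hval : ∀ f : E →ᵃ[ℝ] ℝ, f (AffineMap.lineMap x2 x3 (1/2:ℝ)) = (1/2) * f x2 + (1/2) * f x3 := by
      intro f
      rw [AffineMap.apply_lineMap, AffineMap.lineMap_apply_ring]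
      ring
    have hpos : ∀ k, 0 < b k (AffineMap.lineMap x2 x3 (1/2:ℝ)) := by
      intro k
      rw [hval]
      by_cases h : k = k2
      · subst h
        rw [e2]; have := p3 k h23; linarith
      · have q2 := p2 k h
        by_cases h' : k = k3
        · subst h'; rw [e3]; linarith
        · have := p3 k h'; linarith
    have hrat : b k0 (AffineMap.lineMap x2 x3 (1/2:ℝ)) = ρ * b k1 (AffineMap.lineMap x2 x3 (1/2:ℝ)) := by
      rw [hval, hval, r2, r3]; ring
    refine ⟨AffineMap.lineMap x2 x3 (1/2:ℝ), ⟨ρ, hρ, relAB⟩, ?_, fun k hk => ?_, fun k hk => ?_⟩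
    · rw [hA, cut_k0, hrat]; ring
    · by_cases h : k = k1
      · subst h; rw [hA, cut_k1 b h01]; exact mul_pos (by positivity) (hpos _)
      · rw [hA, cut_of_ne b hk h]; exact hpos k
    · by_cases h : k = k0
      · subst h; rw [hB, cut_k1 b h01.symm]; exact mul_pos (by positivity) (hpos _)
      · rw [hB, cut_of_ne b hk h]; exact hpos k
  -- the new family
  let a' : Option ι → κ → (E →ᵃ[ℝ] ℝ) := fun o => o.elim B (fun i => if i = i0 then A else F.a i)
  have a'none : a' none = B := rfl
  have a'i0 : a' (some i0) = A := by simp [a']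
  have a'ne : ∀ i, i ≠ i0 → a' (some i) = F.a i := by intro i hi; simp [a', hi]
  -- contacts of A and B on uncut facets
  have conA : ∀ l, l ≠ k0 → l ≠ k1 → ∀ (g : κ → (E →ᵃ[ℝ] ℝ)) m x, Con b l g m x →
      0 ≤ b k0 x - ρ * b k1 x → ∃ x', Con A l g m x' := by
    intro l hl0 hl1 g m x hc hx
    obtain ⟨δ, hδ, H⟩ := con_cut_other h01 hρ hl0 hl1 hc hv0 hv0' hx
    exact ⟨_, (H (δ/2) (by positivity) (by linarith)).1⟩
  have conB : ∀ l, l ≠ k0 → l ≠ k1 → ∀ (g : κ → (E →ᵃ[ℝ] ℝ)) m x, Con b l g m x →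
      0 ≤ b k1 x - ρ⁻¹ * b k0 x → ∃ x', Con B l g m x' := by
    intro l hl0 hl1 g m x hc hx
    obtain ⟨δ, hδ, H⟩ := con_cut_other h01.symm hρ' hl1 hl0 hc hv1 hv1' hx
    exact ⟨_, (H (δ/2) (by positivity) (by linarith)).1⟩
  refine ⟨⟨a', ?_, ?_, ?_⟩, ?_⟩
  · rintro (_ | i)
    · exact cut_isBary hbary h01.symm hρ'
    · by_cases hi : i = i0
      · subst hi; rw [a'i0]; exact cut_isBary hbary h01 hρ
      · rw [a'ne i hi]; exact F.bary i
  · -- disjointness
    have main : ∀ i x, (∀ k, 0 < a' (some i) k x) → ∀ k, 0 < F.a i k x := by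
      intro i x hx
      by_cases hi : i = i0
      · subst hi; rw [a'i0] at hx; exact posA x hx
      · rwa [a'ne i hi] at hx
    have mainB : ∀ i x, (∀ k, 0 < a' none k x) → (∀ k, 0 < a' (some i) k x) → False := by
      intro i x hx hx'
      by_cases hi : i = i0
      · subst hi
        rw [a'i0] at hx'
        have h1 := hx' k0
        have h2 := hx k1
        rw [a'none] at h2
        rw [relAB] at h1
        nlinarith [mul_pos hρ h2]
      · exact F.disj i0 i (Ne.symm hi) x (posB x hx) (main i x hx')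
    rintro (_ | i) (_ | j) hij x hx hx'
    · exact hij rfl
    · exact mainB j x hx hx'
    · exact mainB i x hx' hx
    · exact F.disj i j (fun h => hij (by rw [h])) x (main i x hx) (main j x hx')
  · -- contacts
    rintro (_ | i) k
    · rw [a'none]
      by_cases hk1 : k = k1
      · subst hk1
        obtain ⟨x, hx⟩ := hAB
        exact ⟨some i0, k0, x, by simp, by rw [a'i0]; exact hx.symm⟩
      · by_cases hk0 : k = k0
        · subst hk0
          obtain ⟨j, l, x, hj, hc⟩ := F.contact i0 k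
          exact ⟨some j, l, x, by simp, by rw [a'ne j hj]; exact con_cut_k1 h01.symm hρ' hc⟩
        · obtain ⟨j, l, x, hj, hc, hr⟩ := hs k hk0 hk1
          obtain ⟨x', hx'⟩ := conB k hk0 hk1 _ _ _ hc (by
            rw [hr]; field_simp; simp)
          exact ⟨some j, l, x', by simp, by rw [a'ne j hj]; exact hx'⟩
    · by_cases hi : i = i0
      · subst hi
        rw [a'i0]
        by_cases hk0 : k = k0
        · subst hk0
          obtain ⟨x, hx⟩ := hAB
          exact ⟨none, k1, x, by simp, hx⟩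
        · by_cases hk1 : k = k1
          · subst hk1
            obtain ⟨j, l, x, hj, hc⟩ := F.contact i k
            exact ⟨some j, l, x, by simpa using hj, by rw [a'ne j hj]; exact con_cut_k1 h01 hρ hc⟩
          · obtain ⟨j, l, x, hj, hc, hr⟩ := hs k hk0 hk1
            obtain ⟨x', hx'⟩ := conA k hk0 hk1 _ _ _ hc (by rw [hr]; simp)
            exact ⟨some j, l, x', by simpa using hj, by rw [a'ne j hj]; exact hx'⟩
      · rw [a'ne i hi]
        obtain ⟨j, l, x, hj, hc⟩ := F.contact i k
        by_cases hji : j = i0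
        · subst hji
          have hc' := hc.symm
          by_cases hl1 : l = k1
          · subst hl1
            refine ⟨some j, l, x, by simpa using hj, ?_⟩
            rw [a'i0]
            exact (con_cut_k1 h01 hρ hc').symm
          · by_cases hl0 : l = k0
            · subst hl0
              refine ⟨none, l, x, by simp, ?_⟩
              rw [a'none]
              exact (con_cut_k1 h01.symm hρ' hc').symm
            · by_cases hsgn : 0 ≤ b k0 x - ρ * b k1 x
              · obtain ⟨x', hx'⟩ := conA l hl0 hl1 _ _ _ hc' hsgn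
                refine ⟨some j, l, x', by simpa using hj, ?_⟩
                rw [a'i0]; exact hx'.symm
              · obtain ⟨x', hx'⟩ := conB l hl0 hl1 _ _ _ hc' (by
                  push Not at hsgn
                  have : 0 ≤ ρ⁻¹ * (ρ * b k1 x - b k0 x) := mul_nonneg hρ'.le (by linarith)
                  have e : ρ⁻¹ * (ρ * b k1 x - b k0 x) = b k1 x - ρ⁻¹ * b k0 x := by
                    field_simp
                  linarith)
                refine ⟨none, l, x', by simp, ?_⟩
                rw [a'none]; exact hx'.symm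
        · exact ⟨some j, l, x, by simpa using hj, by rw [a'ne j hji]; exact hc⟩
  · -- the new splitting data
    have key : ∀ᶠ t in 𝓝[>] (0:ℝ), ∀ k, k ≠ k0 → k ≠ k1 →
        ∃ j l x, j ≠ some i0 ∧ Con (a' (some i0)) k (a' j) l x ∧
          a' (some i0) k0 x = (t / (1 + ρ)) * a' (some i0) k1 x := by
      rw [Filter.eventually_all]
      intro k
      by_cases hk0 : k = k0
      · simp [hk0]
      by_cases hk1 : k = k1
      · simp [hk1]
      obtain ⟨j, l, x, hj, hc, hr⟩ := hs k hk0 hk1
      obtain ⟨δ, hδ, H⟩ := con_cut_other h01 hρ hk0 hk1 hc hv0 hv0' (by rw [hr]; simp)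
      have hs0 : 0 < b k1 x := hc.2.2.1 k1 (Ne.symm hk1)
      have hev : ∀ᶠ t in 𝓝[>] (0:ℝ), t * b k1 x < δ := by
        have hcont : Tendsto (fun t : ℝ => t * b k1 x) (𝓝[>] 0) (𝓝 (0 * b k1 x)) := by
          apply Filter.Tendsto.mono_left _ nhdsWithin_le_nhds
          apply Continuous.tendsto
          fun_prop
        rw [zero_mul] at hcont
        exact hcont.eventually (gt_mem_nhds hδ)
      filter_upwards [hev, self_mem_nhdsWithin] with t ht ht0 _ _
      have ht0' : (0:ℝ) < t := ht0
      set s := b k1 x with hsdef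
      have hts : 0 < t * s := mul_pos ht0' hs0
      set ε := t * s / (1 + t * s) with hε
      have hε0 : 0 < ε := by positivity
      have hεδ : ε < δ := by
        have : ε ≤ t * s := by
          rw [hε, div_le_iff₀ (by positivity)]
          nlinarith
        linarith
      obtain ⟨c1, c2, c3⟩ := H ε hε0 hεδ
      refine ⟨some j, l, AffineMap.lineMap x v0 ε, by simpa using hj, ?_, ?_⟩
      · rw [a'i0, a'ne j hj]; exact c1
      · rw [a'i0, hA, cut_k0, cut_k1 b h01, c2, c3, hr]
        rw [hε]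
        field_simp
        ring
    obtain ⟨t, ht, ht0⟩ := (key.and self_mem_nhdsWithin).exists
    have ht0' : (0:ℝ) < t := ht0
    exact ⟨t / (1 + ρ), by positivity, ht⟩

end Tangle
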