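import Mathlib
import Pool.Agent.Lib_helper86.Tangle.Split

/-! Reindexing and iterating the splitting step; transport along linear equivalences. -/

set_option linter.unusedSectionVars false

namespace Tangle

variable {ι ι' κ E E' : Type*} [Fintype κ] [DecidableEq κ] [AddCommGroup E] [Module ℝ E]
  [AddCommGroup E'] [Module ℝ E']

/-- Reindex the bodies of a family. -/
def HFam.reindex (F : HFam ι κ E) (e : ι' ≃ ι) : HFam ι' κ E where
  a := fun i => F.a (e i)
  bary := fun i => F.bary (e i)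
  disj := fun i j hij x hx hx' => F.disj (e i) (e j) (fun h => hij (e.injective h)) x hx hx'
  contact := fun i k => by
    obtain ⟨j, l, x, hj, hc⟩ := F.contact (e i) k
    refine ⟨e.symm j, l, x, fun h => hj (by rw [← h]; simp), by simpa using hc⟩

theorem HFam.reindex_split (F : HFam ι κ E) (e : ι' ≃ ι) {i0 : ι} {k0 k1 : κ}
    (h : SplitAt F i0 k0 k1) : SplitAt (F.reindex e) (e.symm i0) k0 k1 := by
  obtain ⟨ρ, hρ, hs⟩ := h
  refine ⟨ρ, hρ, fun k hk0 hk1 => ?_⟩
  obtain ⟨j, l, x, hj, hc, hr⟩ := hs k hk0 hk1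
  refine ⟨e.symm j, l, x, fun h => hj (e.symm.injective h), ?_, ?_⟩
  · simpa [HFam.reindex] using hc
  · simpa [HFam.reindex] using hr

/-- Transport along an affine (linear) equivalence of the ambient spaces. -/
noncomputable def HFam.map (F : HFam ι κ E) (e : E' ≃ₗ[ℝ] E) : HFam ι κ E' where
  a := fun i k => (F.a i k).comp (e : E' →ₗ[ℝ] E).toAffineMap
  bary := fun i => by
    refine ⟨fun x => ?_, fun x y hxy => ?_, fun t ht => ?_⟩
    · simpa using (F.bary i).sum_one (e x)
    · have := (F.bary i).inj (e x) (e y) (fun k => by simpa using hxy k)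
      exact e.injective this
    · obtain ⟨x, hx⟩ := (F.bary i).surj t ht
      exact ⟨e.symm x, fun k => by simpa using hx k⟩
  disj := fun i j hij x hx hx' => F.disj i j hij (e x) (fun k => by simpa using hx k)
    (fun k => by simpa using hx' k)
  contact := fun i k => by
    obtain ⟨j, l, x, hj, ⟨c, hc, hcy⟩, h0, h1, h2⟩ := F.contact i k
    refine ⟨j, l, e.symm x, hj, ⟨c, hc, fun y => ?_⟩, ?_, fun k' hk' => ?_, fun l' hl' => ?_⟩
    · simpa using hcy (e y)
    · simpa using h0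
    · simpa using h1 k' hk'
    · simpa using h2 l' hl'

theorem exists_HFam_ge {n : ℕ} (hκ : 4 ≤ Fintype.card κ)
    (F : HFam (Fin n) κ E) (i0 : Fin n) (k0 k1 : κ) (h01 : k0 ≠ k1) (hs : SplitAt F i0 k0 k1)
    (m : ℕ) (hm : n ≤ m) : Nonempty (HFam (Fin m) κ E) := by
  have hk : ∃ k2 k3 : κ, k2 ≠ k3 ∧ k2 ≠ k0 ∧ k2 ≠ k1 ∧ k3 ≠ k0 ∧ k3 ≠ k1 := by
    have hcard : 2 ≤ ((Finset.univ : Finset κ) \ {k0, k1}).card := by
      have h1 := Finset.le_card_sdiff ({k0, k1} : Finset κ) (Finset.univ : Finset κ)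
      have h2 : ({k0, k1} : Finset κ).card ≤ 2 := Finset.card_le_two
      rw [Finset.card_univ] at h1
      omega
    obtain ⟨k2, hk2, k3, hk3, hne⟩ := Finset.one_lt_card.1 (by omega : 1 < ((Finset.univ : Finset κ) \ {k0, k1}).card)
    simp only [Finset.mem_sdiff, Finset.mem_univ, Finset.mem_insert, Finset.mem_singleton, not_or,
      true_and] at hk2 hk3
    exact ⟨k2, k3, hne, hk2.1, hk2.2, hk3.1, hk3.2⟩
  have key : ∀ r : ℕ, ∃ (F' : HFam (Fin (n + r)) κ E) (i : Fin (n + r)), SplitAt F' i k0 k1 := by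
    intro r
    induction r with
    | zero => exact ⟨F, i0, hs⟩
    | succ r ih =>
      obtain ⟨F', i, hi⟩ := ih
      obtain ⟨F'', hF''⟩ := F'.split h01 hi hk
      exact ⟨F''.reindex (finSuccEquiv (n + r)), _, F''.reindex_split _ hF''⟩
  obtain ⟨r, rfl⟩ := Nat.exists_eq_add_of_le hm
  exact ⟨(key r).choose⟩

end Tangle
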