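import Mathlib
import Pool.Agent.Lib_helper86.Tangle.HFam

/-! Families given by separating functionals and contact points along a graph. -/

open Module

set_option linter.unusedSectionVars false

namespace Tangle

section

variable {κ E : Type*} [Fintype κ] [DecidableEq κ] [AddCommGroup E] [Module ℝ E]

theorem IsBary.of_card [FiniteDimensional ℝ E] {b : κ → (E →ᵃ[ℝ] ℝ)}
    (hsum : ∀ x, ∑ k, b k x = 1) (hinj : ∀ x y, (∀ k, b k x = b k y) → x = y)
    (hcard : Fintype.card κ = finrank ℝ E + 1) : IsBary b := by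
  refine ⟨hsum, hinj, fun t ht => ?_⟩
  have hval : ∀ k v, b k v = (b k).linear v + b k 0 := by
    intro k y
    have := AffineMap.linearMap_vsub (b k) y 0
    simp only [vsub_eq_sub, sub_zero] at this
    rw [this]; ring
  let L : E →ₗ[ℝ] (κ → ℝ) := LinearMap.pi (fun k => (b k).linear)
  have hL : ∀ v k, L v k = (b k).linear v := fun v k => rfl
  have hLinj : Function.Injective L := by
    rw [← LinearMap.ker_eq_bot, LinearMap.ker_eq_bot']
    intro v hv
    apply hinj
    intro k
    rw [hval k v, ← hL, hv]; simp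
  let σ : (κ → ℝ) →ₗ[ℝ] ℝ := ∑ k, LinearMap.proj k
  have hσ : ∀ f, σ f = ∑ k, f k := fun f => by simp [σ]
  have hκ : Nonempty κ := by
    rw [← Fintype.card_pos_iff]; omega
  have hσsurj : Function.Surjective σ := by
    apply LinearMap.surjective
    intro h
    obtain ⟨k⟩ := hκ
    have := hσ (Pi.single k 1)
    rw [h] at this
    simp at this
  have hle : LinearMap.range L ≤ LinearMap.ker σ := by
    rintro _ ⟨v, rfl⟩
    rw [LinearMap.mem_ker, hσ]
    have h1 := hsum v
    have h2 := hsum 0
    simp_rw [hval _ v] at h1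
    rw [Finset.sum_add_distrib, h2] at h1
    simp_rw [hL]
    linarith
  have hker : finrank ℝ (LinearMap.ker σ) = finrank ℝ E := by
    have h1 := LinearMap.finrank_range_add_finrank_ker σ
    rw [LinearMap.range_eq_top.2 hσsurj] at h1
    simp only [finrank_top, finrank_self, finrank_fintype_fun_eq_card, hcard] at h1
    omega
  have heq : LinearMap.range L = LinearMap.ker σ := by
    apply Submodule.eq_of_le_of_finrank_eq hle
    rw [hker, LinearMap.finrank_range_of_inj hLinj]
  have hmem : (fun k => t k - b k 0) ∈ LinearMap.ker σ := by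
    rw [LinearMap.mem_ker, hσ, Finset.sum_sub_distrib, ht, hsum 0, sub_self]
  rw [← heq] at hmem
  obtain ⟨v, hv⟩ := hmem
  refine ⟨v, fun k => ?_⟩
  have := congrFun hv k
  rw [hL] at this
  rw [hval k v, this]; ring

end

variable (ι E : Type*) [Fintype ι] [DecidableEq ι] [AddCommGroup E] [Module ℝ E]

/-- Separating functionals `n i j` and contact points `x i j` along a graph `adj`. -/
structure GFam where
  adj : ι → ι → Prop
  adj_symm : ∀ i j, adj i j → adj j i
  adj_ne : ∀ i j, adj i j → i ≠ j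
  n : ι → ι → (E →ₗ[ℝ] ℝ)
  x : ι → ι → E
  skew : ∀ i j, n j i = - n i j
  symm : ∀ i j, x j i = x i j
  lt : ∀ i j k, adj i j → adj i k → j ≠ k → n i j (x i k) < n i j (x i j)
  pos : ∀ i, ∃ c : ι → ℝ, (∀ j, adj i j → 0 < c j) ∧ (∀ j, ¬ adj i j → c j = 0) ∧
    ∑ j, c j • n i j = 0
  span : ∀ i v, (∀ j, adj i j → n i j v = 0) → v = 0
  disj : ∀ i j, i ≠ j → ¬ adj i j → ∀ y, (∀ k, adj i k → n i k y < n i k (x i k)) →
    (∀ k, adj j k → n j k y < n j k (x j k)) → False

variable {ι E}

/-- The splitting condition for `GFam`. -/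
def GSplit (G : GFam ι E) : Prop :=
  ∃ i0 p q : ι, G.adj i0 p ∧ G.adj i0 q ∧ p ≠ q ∧ ∃ ρ : ℝ, 0 < ρ ∧ ∀ j, G.adj i0 j → j ≠ p → j ≠ q →
    G.n i0 p (G.x i0 p) - G.n i0 p (G.x i0 j) = ρ * (G.n i0 q (G.x i0 q) - G.n i0 q (G.x i0 j))

theorem GFam.toHFam {κ : Type*} [Fintype κ] [DecidableEq κ] [FiniteDimensional ℝ E]
    (G : GFam ι E) (hcard : Fintype.card κ = finrank ℝ E + 1) (hd : 1 ≤ finrank ℝ E)
    (e : ∀ i, κ ≃ {j // G.adj i j}) :
    ∃ F : HFam ι κ E, GSplit G → ∃ i0 k0 k1, k0 ≠ k1 ∧ SplitAt F i0 k0 k1 := by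
  classical
  choose c hc hc0 hcsum using G.pos
  set K : ι → ℝ := fun i => ∑ j, c i j * G.n i j (G.x i j) with hK
  have hcsum' : ∀ i y, ∑ j, c i j * G.n i j y = 0 := by
    intro i y
    have := congrArg (fun f : E →ₗ[ℝ] ℝ => f y) (hcsum i)
    simpa [LinearMap.sum_apply] using this
  have hcard2 : 2 ≤ Fintype.card κ := by omega
  have hKpos : ∀ i, 0 < K i := by
    intro i
    -- two different neighbours
    have : Nontrivial κ := Fintype.one_lt_card_iff_nontrivial.1 (by omega)
    obtain ⟨k1, k2, hk⟩ := exists_pair_ne κ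
    set j1 := (e i k1).1 with hj1
    set j2 := (e i k2).1 with hj2
    have a1 : G.adj i j1 := (e i k1).2
    have a2 : G.adj i j2 := (e i k2).2
    have hne : j2 ≠ j1 := by
      intro h
      apply hk
      apply (e i).injective
      exact Subtype.ext h.symm
    have h1 : K i = ∑ j, c i j * (G.n i j (G.x i j) - G.n i j (G.x i j1)) := by
      simp_rw [mul_sub]
      rw [Finset.sum_sub_distrib, hcsum' i (G.x i j1), sub_zero]
    rw [h1]
    apply Finset.sum_pos'
    · intro j _
      by_cases hj : G.adj i j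
      · by_cases hjj : j = j1
        · subst hjj; simp
        · exact mul_nonneg (hc i j hj).le (by linarith [G.lt i j j1 hj a1 hjj])
      · rw [hc0 i j hj]; simp
    · exact ⟨j2, Finset.mem_univ _, mul_pos (hc i j2 a2) (by linarith [G.lt i j2 j1 a2 a1 hne])⟩
  -- coordinates
  let a : ι → κ → (E →ᵃ[ℝ] ℝ) := fun i k =>
    (c i (e i k).1 / K i) • (AffineMap.const ℝ E (G.n i (e i k).1 (G.x i (e i k).1)) -
      (G.n i (e i k).1).toAffineMap)
  have ha : ∀ i k y, a i k y = (c i (e i k).1 / K i) *
      (G.n i (e i k).1 (G.x i (e i k).1) - G.n i (e i k).1 y) := by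
    intro i k y
    simp [a]
  have hcoef : ∀ i k, 0 < c i (e i k).1 / K i := fun i k => div_pos (hc i _ (e i k).2) (hKpos i)
  have hsum : ∀ i y, ∑ k, a i k y = 1 := by
    intro i y
    set f : ι → ℝ := fun j => (c i j / K i) * (G.n i j (G.x i j) - G.n i j y) with hf
    have h1 : ∑ k, a i k y = ∑ s : {j // G.adj i j}, f s.1 := by
      simp_rw [ha]
      exact (e i).sum_comp (fun s : {j // G.adj i j} => f s.1)
    have h2 : ∑ s : {j // G.adj i j}, f s.1 = ∑ j, f j := by
      rw [← Finset.sum_subtype (Finset.univ.filter (fun j => G.adj i j)) (by simp) f,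
        Finset.sum_filter]
      apply Finset.sum_congr rfl
      intro j _
      by_cases hj : G.adj i j
      · simp [hj]
      · simp [hj, hf, hc0 i j hj]
    have h3 : ∀ j, f j = (c i j * G.n i j (G.x i j) - c i j * G.n i j y) / K i := by
      intro j; simp only [hf]; ring
    rw [h1, h2]
    simp_rw [h3]
    rw [← Finset.sum_div, Finset.sum_sub_distrib, hcsum' i y, sub_zero]
    exact div_self (hKpos i).ne'
  have hinj : ∀ i y y', (∀ k, a i k y = a i k y') → y = y' := by
    intro i y y' h
    have : y - y' = 0 := by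
      apply G.span i
      intro j hj
      have h1 := h ((e i).symm ⟨j, hj⟩)
      rw [ha, ha] at h1
      have h2 := mul_left_cancel₀ (hcoef i _).ne' h1
      simp only [Equiv.apply_symm_apply] at h2
      rw [map_sub]; linarith
    exact sub_eq_zero.1 this
  have hbary : ∀ i, IsBary (a i) := fun i => IsBary.of_card (hsum i) (hinj i) hcard
  have hposiff : ∀ i y, (∀ k, 0 < a i k y) → ∀ j, G.adj i j → G.n i j y < G.n i j (G.x i j) := by
    intro i y hy j hj
    have h1 := hy ((e i).symm ⟨j, hj⟩)
    rw [ha] at h1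
    have h2 := (mul_pos_iff_of_pos_left (hcoef i _)).1 h1
    simp only [Equiv.apply_symm_apply] at h2
    linarith
  have hdisj : ∀ i j, i ≠ j → ∀ y, (∀ k, 0 < a i k y) → (∀ l, 0 < a j l y) → False := by
    intro i j hij y hy hy'
    by_cases hadj : G.adj i j
    · have h1 := hposiff i y hy j hadj
      have h2 := hposiff j y hy' i (G.adj_symm i j hadj)
      rw [G.skew i j, G.symm i j] at h2
      simp only [LinearMap.neg_apply] at h2
      linarith
    · exact G.disj i j hij hadj y (hposiff i y hy) (hposiff j y hy')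
  have hcon : ∀ i k, Con (a i) k (a (e i k).1) ((e (e i k).1).symm ⟨i, G.adj_symm _ _ (e i k).2⟩)
      (G.x i (e i k).1) := by
    intro i k
    set j := (e i k).1 with hj
    have hadj : G.adj i j := (e i k).2
    set l := (e j).symm ⟨i, G.adj_symm _ _ hadj⟩ with hl
    have hel : (e j l).1 = i := by rw [hl, Equiv.apply_symm_apply]
    have hji : G.adj j i := G.adj_symm _ _ hadj
    have c1 : 0 < c i j / K i := hcoef i k
    have c2 : 0 < c j i / K j := div_pos (hc j i hji) (hKpos j)
    have n1 := (hKpos i).ne'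
    have n2 := (hKpos j).ne'
    have n3 := (hc i j hadj).ne'
    have n4 := (hc j i hji).ne'
    refine ⟨⟨(c i j / K i) / (c j i / K j), div_pos c1 c2, fun y => ?_⟩, ?_, fun k' hk' => ?_,
      fun l' hl' => ?_⟩
    · rw [ha, ha, hel, G.skew i j, G.symm i j, ← hj]
      simp only [LinearMap.neg_apply]
      field_simp
      ring
    · rw [ha, ← hj]; ring
    · rw [ha]
      apply mul_pos (hcoef i k')
      have hne : (e i k').1 ≠ j := by
        intro h
        apply hk'
        apply (e i).injective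
        exact Subtype.ext h
      linarith [G.lt i _ j (e i k').2 hadj hne]
    · rw [ha]
      apply mul_pos (hcoef j l')
      have hne : (e j l').1 ≠ i := by
        intro h
        apply hl'
        apply (e j).injective
        apply Subtype.ext
        rw [h, hel]
      have := G.lt j _ i (e j l').2 hji hne
      rw [G.symm i j] at this
      linarith
  refine ⟨⟨a, hbary, hdisj, fun i k => ⟨_, _, _, (G.adj_ne _ _ (e i k).2).symm, hcon i k⟩⟩, ?_⟩
  rintro ⟨i0, p, q, hp, hq, hpq, ρ, hρ, hs⟩
  set k0 := (e i0).symm ⟨p, hp⟩ with hk0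
  set k1 := (e i0).symm ⟨q, hq⟩ with hk1
  have e0 : (e i0 k0).1 = p := by rw [hk0, Equiv.apply_symm_apply]
  have e1 : (e i0 k1).1 = q := by rw [hk1, Equiv.apply_symm_apply]
  refine ⟨i0, k0, k1, ?_, ?_⟩
  · intro h
    apply hpq
    rw [← e0, ← e1, h]
  · have cp : 0 < c i0 p / K i0 := div_pos (hc i0 p hp) (hKpos i0)
    have cq : 0 < c i0 q / K i0 := div_pos (hc i0 q hq) (hKpos i0)
    refine ⟨(c i0 p / K i0) * ρ / (c i0 q / K i0), by positivity, fun k hk hk' => ?_⟩
    refine ⟨_, _, _, (G.adj_ne _ _ (e i0 k).2).symm, hcon i0 k, ?_⟩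
    have hne0 : (e i0 k).1 ≠ p := by
      intro h; apply hk; apply (e i0).injective; apply Subtype.ext; rw [h, e0]
    have hne1 : (e i0 k).1 ≠ q := by
      intro h; apply hk'; apply (e i0).injective; apply Subtype.ext; rw [h, e1]
    have := hs _ (e i0 k).2 hne0 hne1
    have n1 := (hKpos i0).ne'
    have n3 := (hc i0 p hp).ne'
    have n4 := (hc i0 q hq).ne'
    change a i0 k0 _ = _ * a i0 k1 _
    rw [ha, ha, e0, e1, this]
    field_simp

end Tangle
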