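import Mathlib
import Pool.Agent.Lib_helper86.Tangle.GFam

/-! Complete families and the dimension-raising step. -/

open Module Filter Topology

set_option linter.unusedSectionVars false

namespace Tangle

theorem ev_pos {f : ℝ → ℝ} (hf : ContinuousAt f 0) (h0 : 0 < f 0) : ∀ᶠ ε in 𝓝[>] (0:ℝ), 0 < f ε :=
  (hf.tendsto.mono_left nhdsWithin_le_nhds).eventually (lt_mem_nhds h0)

variable (ι E : Type*) [Fintype ι] [DecidableEq ι] [AddCommGroup E] [Module ℝ E]

/-- A complete family: every two bodies are in contact. -/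
structure CFam where
  n : ι → ι → (E →ₗ[ℝ] ℝ)
  x : ι → ι → E
  skew : ∀ i j, n j i = - n i j
  symm : ∀ i j, x j i = x i j
  lt : ∀ i j k, i ≠ j → i ≠ k → j ≠ k → n i j (x i k) < n i j (x i j)
  pos : ∀ i, ∃ c : ι → ℝ, (∀ j, j ≠ i → 0 < c j) ∧ ∑ j, c j • n i j = 0
  span : ∀ i v, (∀ j, j ≠ i → n i j v = 0) → v = 0

variable {ι E}

theorem CFam.self (C : CFam ι E) (i : ι) : C.n i i = 0 := by
  ext v
  have := congrArg (fun f : E →ₗ[ℝ] ℝ => f v) (C.skew i i)
  simp only [LinearMap.neg_apply] at this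
  simp only [LinearMap.zero_apply]
  linarith

/-- The `GFam` of a complete family. -/
def CFam.toGFam (C : CFam ι E) : GFam ι E where
  adj := fun i j => i ≠ j
  adj_symm := fun _ _ h => h.symm
  adj_ne := fun _ _ h => h
  n := C.n
  x := C.x
  skew := C.skew
  symm := C.symm
  lt := C.lt
  pos := fun i => by
    obtain ⟨c, hc, hsum⟩ := C.pos i
    refine ⟨fun j => if j = i then 0 else c j, fun j hj => ?_, fun j hj => ?_, ?_⟩
    · simp only [Ne.symm hj, if_false]; exact hc j (Ne.symm hj)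
    · have : j = i := by
        by_contra h; exact hj (Ne.symm h)
      simp [this]
    · rw [← hsum]
      apply Finset.sum_congr rfl
      intro j _
      by_cases h : j = i
      · subst h; simp [C.self]
      · simp [h]
  span := fun i v h => C.span i v (fun j hj => h j (Ne.symm hj))
  disj := fun i j hij hadj => absurd hij hadj

/-- Extra properties used in the induction. -/
structure Good (C : CFam ι E) (o : ι) (β : ι → (E →ᵃ[ℝ] ℝ)) : Prop where
  β_eq : ∀ j, j ≠ o → β j (C.x o j) = 1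
  β_ne : ∀ j k, j ≠ o → k ≠ o → j ≠ k → β j (C.x o k) = 0
  β_o : β o = 0
  β_sum : ∀ y, ∑ j, β j y = 1
  β_inj : ∀ v, (∀ j, j ≠ o → (β j).linear v = 0) → v = 0
  twist : ∀ j, j ≠ o → ∃ k l, k ≠ o ∧ k ≠ j ∧ l ≠ o ∧ l ≠ j ∧ C.n o j (C.x o k) < C.n o j (C.x o l)

/-- Splitting condition for complete families. -/
def CSplit (C : CFam ι E) : Prop :=
  ∃ i0 p q : ι, i0 ≠ p ∧ i0 ≠ q ∧ p ≠ q ∧ ∃ ρ : ℝ, 0 < ρ ∧ ∀ j, j ≠ i0 → j ≠ p → j ≠ q →
    C.n i0 p (C.x i0 p) - C.n i0 p (C.x i0 j) = ρ * (C.n i0 q (C.x i0 q) - C.n i0 q (C.x i0 j))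

theorem CSplit.toGSplit {C : CFam ι E} (h : CSplit C) : GSplit C.toGFam := by
  obtain ⟨i0, p, q, hp, hq, hpq, ρ, hρ, hs⟩ := h
  exact ⟨i0, p, q, hp, hq, hpq, ρ, hρ, fun j hj hjp hjq => hs j (Ne.symm hj) hjp hjq⟩

theorem lin_val (f : E →ᵃ[ℝ] ℝ) (x y : E) : f.linear (x - y) = f x - f y := by
  have := AffineMap.linearMap_vsub f x y
  simpa using this

theorem add_smul_val' (f : E →ᵃ[ℝ] ℝ) (x t : E) (r : ℝ) :
    f (x + r • t) = f x + r * f.linear t := by
  have := AffineMap.map_vadd f x (r • t)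
  simp only [vadd_eq_add] at this
  rw [add_comm, this, map_smul]
  simp [add_comm]

theorem lin_sum (f : E →ᵃ[ℝ] ℝ) (x : E) : f x = f.linear x + f 0 := by
  have := lin_val f x 0
  rw [sub_zero] at this
  rw [this]; ring

end Tangle
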