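import Mathlib
import Pool.Agent.Lib_helper86.Tangle.CFam

/-! The dimension-raising step for complete families. -/

open Module Filter Topology

set_option linter.unusedSectionVars false

namespace Tangle

variable {ι E : Type*} [Fintype ι] [DecidableEq ι] [AddCommGroup E] [Module ℝ E]

/-- The skew matrix with `o`-row `1`. -/
noncomputable def aco (o i j : ι) : ℝ := (if i = o then 1 else 0) - (if j = o then 1 else 0)

theorem aco_skew (o i j : ι) : aco o j i = - aco o i j := by simp [aco]

/-- Functional between old body `i` and the new body. -/
noncomputable def liftInf (o : ι) (β : ι → (E →ᵃ[ℝ] ℝ)) (i : ι) : (E × ℝ) →ₗ[ℝ] ℝ :=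
  if i = o then - LinearMap.snd ℝ E ℝ
  else LinearMap.snd ℝ E ℝ - (β i).linear ∘ₗ LinearMap.fst ℝ E ℝ

theorem liftInf_o (o : ι) (β : ι → (E →ᵃ[ℝ] ℝ)) (p : E × ℝ) : liftInf o β o p = - p.2 := by
  simp [liftInf]

theorem liftInf_ne {o i : ι} (h : i ≠ o) (β : ι → (E →ᵃ[ℝ] ℝ)) (p : E × ℝ) :
    liftInf o β i p = p.2 - (β i).linear p.1 := by
  simp [liftInf, h]

/-- The lifted functionals. -/
noncomputable def liftN (C : CFam ι E) (o : ι) (β : ι → (E →ᵃ[ℝ] ℝ)) (ε : ℝ) :
    Option ι → Option ι → ((E × ℝ) →ₗ[ℝ] ℝ)
  | none, none => 0
  | some i, none => liftInf o β i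
  | none, some i => - liftInf o β i
  | some i, some j => (C.n i j) ∘ₗ LinearMap.fst ℝ E ℝ + (ε * aco o i j) • LinearMap.snd ℝ E ℝ

/-- The lifted contact points. -/
def liftX (C : CFam ι E) (W : ι → E) (Z : ι → ℝ) (y : ι → ι → ℝ) : Option ι → Option ι → E × ℝ
  | none, none => 0
  | some i, none => (W i, Z i)
  | none, some i => (W i, Z i)
  | some i, some j => (C.x i j, y i j)

theorem liftN_ss (C : CFam ι E) (o : ι) (β : ι → (E →ᵃ[ℝ] ℝ)) (ε : ℝ) (i j : ι) (p : E × ℝ) :
    liftN C o β ε (some i) (some j) p = C.n i j p.1 + ε * aco o i j * p.2 := by
  simp [liftN]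

theorem liftN_sn (C : CFam ι E) (o : ι) (β : ι → (E →ᵃ[ℝ] ℝ)) (ε : ℝ) (i : ι) :
    liftN C o β ε (some i) none = liftInf o β i := rfl

theorem liftN_ns (C : CFam ι E) (o : ι) (β : ι → (E →ᵃ[ℝ] ℝ)) (ε : ℝ) (i : ι) :
    liftN C o β ε none (some i) = - liftInf o β i := rfl

/-- Numerical data needed for the lift. -/
structure LiftData (C : CFam ι E) (o : ι) (β : ι → (E →ᵃ[ℝ] ℝ)) (W : ι → E) (Z : ι → ℝ)
    (y : ι → ι → ℝ) (ε : ℝ) (r : ι → ι → ℝ) (lam : ι → ι → ℝ) : Prop where
  ysymm : ∀ i j, y j i = y i j
  ε_pos : 0 < ε
  ss : ∀ i j k, i ≠ j → i ≠ k → j ≠ k →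
    0 < (C.n i j (C.x i j) - C.n i j (C.x i k)) + ε * (aco o i j * (y i j - y i k))
  sn : ∀ i j, i ≠ j → 0 < (C.n i j (C.x i j) - C.n i j (W i)) + ε * (aco o i j * (y i j - Z i))
  Zo : Z o = 0
  Zneg : ∀ j, j ≠ o → Z j < 0
  yo : ∀ j, j ≠ o → 0 < y o j
  -- contact of `j` with the new body and with `o`
  jo : ∀ j, j ≠ o → y j o - (β j).linear (C.x j o) < Z j - (β j).linear (W j)
  jk : ∀ j k, j ≠ o → k ≠ o → j ≠ k → y j k - (β j).linear (C.x j k) < Z j - (β j).linear (W j)
  -- inside the new body
  no : ∀ j, j ≠ o → (β j).linear (W o) < (β j).linear (W j) - Z j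
  nk : ∀ j k, j ≠ o → k ≠ o → j ≠ k →
    (β j).linear (W k) - Z k < (β j).linear (W j) - Z j
  lam_pos : ∀ i j, j ≠ i → 0 < lam i j
  lam_sum : ∀ i, ∑ j, lam i j • C.n i j = 0
  r_sum : ∀ j, j ≠ o → (β j).linear = ∑ k, r j k • C.n j k
  wt : ∀ j k, j ≠ o → k ≠ j → 0 < (1 - ε * r j o) * lam j k / lam j o + ε * r j k

theorem sum_aco_lam {o i : ι} (hi : i ≠ o) (f : ι → ℝ) : ∑ k, f k * aco o i k = - f o := by
  simp [aco, hi]

theorem sum_aco_o {o : ι} (f : ι → ℝ) : ∑ k, f k * aco o o k = (∑ k, f k) - f o := by
  simp [aco, mul_sub, Finset.sum_sub_distrib]

/-- The lifted complete family. -/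
noncomputable def CFam.lift (C : CFam ι E) {o : ι} {β : ι → (E →ᵃ[ℝ] ℝ)} (hG : Good C o β)
    {W : ι → E} {Z : ι → ℝ} {y : ι → ι → ℝ} {ε : ℝ} {r lam : ι → ι → ℝ}
    (D : LiftData C o β W Z y ε r lam) (j1 : ι) (hj1 : j1 ≠ o) : CFam (Option ι) (E × ℝ) where
  n := liftN C o β ε
  x := liftX C W Z y
  skew := by
    rintro (_ | i) (_ | j)
    · simp [liftN]
    · simp [liftN]
    · simp [liftN]
    · ext p
      · simp [liftN, C.skew i j]
      · simp [liftN, aco_skew o i j]
  symm := by
    rintro (_ | i) (_ | j)
    · rfl
    · rfl
    · rfl
    · simp only [liftX]; rw [C.symm i j, D.ysymm i j]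
  lt := by
    rintro (_ | i) (_ | j) (_ | k) hij hik hjk
    · exact absurd rfl hij
    · exact absurd rfl hij
    · exact absurd rfl hik
    · -- none, some j, some k
      have hjk' : j ≠ k := fun h => hjk (by rw [h])
      simp only [liftN_ns, LinearMap.neg_apply, liftX]
      by_cases hj : j = o
      · subst hj
        rw [liftInf_o, liftInf_o]
        simp only [D.Zo]
        have := D.Zneg k (Ne.symm hjk')
        linarith
      · rw [liftInf_ne hj, liftInf_ne hj]
        by_cases hk : k = o
        · subst hk
          simp only [D.Zo]
          have := D.no j hj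
          linarith
        · have := D.nk j k hj hk hjk'
          simp only
          linarith
    · exact absurd rfl hjk
    · -- some i, none, some k
      have hik' : i ≠ k := fun h => hik (by rw [h])
      simp only [liftN_sn, liftX]
      by_cases hi : i = o
      · subst hi
        rw [liftInf_o, liftInf_o]
        simp only [D.Zo]
        have := D.yo k (Ne.symm hik')
        linarith
      · rw [liftInf_ne hi, liftInf_ne hi]
        by_cases hk : k = o
        · subst hk
          have := D.jo i hi
          simpa using this
        · have := D.jk i k hi hk hik'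
          simpa using this
    · -- some i, some j, none
      have hij' : i ≠ j := fun h => hij (by rw [h])
      simp only [liftN_ss, liftX]
      have := D.sn i j hij'
      nlinarith
    · have hij' : i ≠ j := fun h => hij (by rw [h])
      have hik' : i ≠ k := fun h => hik (by rw [h])
      have hjk' : j ≠ k := fun h => hjk (by rw [h])
      simp only [liftN_ss, liftX]
      have := D.ss i j k hij' hik' hjk'
      nlinarith
  pos := by
    have hβlin : ∑ j, (β j).linear = 0 := by
      ext v
      have h1 := hG.β_sum v
      have h2 := hG.β_sum 0
      simp_rw [lin_sum (β _) v] at h1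
      rw [Finset.sum_add_distrib, h2] at h1
      simp only [LinearMap.sum_apply, LinearMap.zero_apply]
      linarith
    have hβo : (β o).linear = 0 := by rw [hG.β_o]; rfl
    have hlamval : ∀ i v, ∑ j, lam i j * C.n i j v = 0 := by
      intro i v
      have := congrArg (fun f : E →ₗ[ℝ] ℝ => f v) (D.lam_sum i)
      simpa [LinearMap.sum_apply] using this
    rintro (_ | i)
    · -- the new body
      refine ⟨fun a => a.elim 0 (fun j => if j = o then ((Fintype.card ι : ℝ) - 1) else 1), ?_, ?_⟩
      · rintro (_ | j) hj
        · exact absurd rfl hj
        · simp only [Option.elim]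
          split_ifs with h
          · have : 1 < Fintype.card ι := Fintype.one_lt_card_iff.2 ⟨j1, o, hj1⟩
            have : (1:ℝ) < Fintype.card ι := by exact_mod_cast this
            linarith
          · norm_num
      · rw [Fintype.sum_option]
        simp only [Option.elim, zero_smul, zero_add]
        ext p
        · simp only [liftN_ns, LinearMap.comp_apply, LinearMap.inl_apply, LinearMap.sum_apply,
            LinearMap.smul_apply, LinearMap.neg_apply, LinearMap.zero_apply]
          have : ∀ j, (if j = o then ((Fintype.card ι : ℝ) - 1) else 1) • -(liftInf o β j (p, (0:ℝ)))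
              = (β j).linear p := by
            intro j
            by_cases h : j = o
            · subst h; rw [liftInf_o]; simp [hβo]
            · rw [liftInf_ne h]; simp [h]
          simp_rw [this]
          have := congrArg (fun f : E →ₗ[ℝ] ℝ => f p) hβlin
          simpa [LinearMap.sum_apply] using this
        · simp only [liftN_ns, LinearMap.comp_apply, LinearMap.inr_apply, LinearMap.sum_apply,
            LinearMap.smul_apply, LinearMap.neg_apply, LinearMap.zero_apply]
          have : ∀ j, (if j = o then ((Fintype.card ι : ℝ) - 1) else 1) • -(liftInf o β j (0, (1:ℝ)))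
              = -1 + (if j = o then (Fintype.card ι : ℝ) else 0) := by
            intro j
            by_cases h : j = o
            · subst h; rw [liftInf_o]; simp; ring
            · rw [liftInf_ne h]; simp [h]
          simp_rw [this]
          rw [Finset.sum_add_distrib]
          simp
    · by_cases hi : i = o
      · subst hi
        refine ⟨fun a => a.elim (ε * ((∑ k, lam i k) - lam i i)) (fun j => lam i j), ?_, ?_⟩
        · rintro (_ | j) hj
          · simp only [Option.elim]
            apply mul_pos D.ε_pos
            have h1 : (∑ k, lam i k) - lam i i = ∑ k ∈ Finset.univ.erase i, lam i k := by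
              rw [← Finset.add_sum_erase _ _ (Finset.mem_univ i)]; ring
            rw [h1]
            apply Finset.sum_pos
            · intro k hk
              exact D.lam_pos i k (Finset.ne_of_mem_erase hk)
            · exact ⟨j1, by simp [hj1]⟩
          · exact D.lam_pos i j (fun h => hj (by rw [h]))
        · rw [Fintype.sum_option]
          simp only [Option.elim]
          apply LinearMap.ext
          rintro ⟨v, z⟩
          simp only [LinearMap.add_apply, LinearMap.sum_apply, LinearMap.smul_apply, liftN_sn,
            liftInf_o, liftN_ss, LinearMap.zero_apply, smul_eq_mul]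
          have e : ∀ k, lam i k * (C.n i k v + ε * aco i i k * z) =
              lam i k * C.n i k v + (ε * z) * (lam i k * aco i i k) := by intro k; ring
          simp_rw [e]
          rw [Finset.sum_add_distrib, hlamval i v, ← Finset.mul_sum, sum_aco_o]
          ring
      · -- an old body different from `o`
        set t : ℝ := (1 - ε * r i o) / lam i o with ht
        have hlo : lam i o ≠ 0 := (D.lam_pos i o (Ne.symm hi)).ne'
        refine ⟨fun a => a.elim ε (fun j => t * lam i j + ε * r i j), ?_, ?_⟩
        · rintro (_ | j) hj
          · exact D.ε_pos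
          · simp only [Option.elim]
            have := D.wt i j hi (fun h => hj (by rw [h]))
            have e : t * lam i j = (1 - ε * r i o) * lam i j / lam i o := by rw [ht]; ring
            rw [e]; exact this
        · rw [Fintype.sum_option]
          simp only [Option.elim]
          apply LinearMap.ext
          rintro ⟨v, z⟩
          simp only [LinearMap.add_apply, LinearMap.sum_apply, LinearMap.smul_apply, liftN_sn,
            liftInf_ne hi, liftN_ss, LinearMap.zero_apply, smul_eq_mul]
          have e : ∀ k, (t * lam i k + ε * r i k) * (C.n i k v + ε * aco o i k * z) =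
              t * (lam i k * C.n i k v) + ε * (r i k * C.n i k v) +
                (ε * z) * ((t * lam i k + ε * r i k) * aco o i k) := by intro k; ring
          simp_rw [e]
          rw [Finset.sum_add_distrib, Finset.sum_add_distrib, ← Finset.mul_sum, ← Finset.mul_sum,
            ← Finset.mul_sum, hlamval i v, sum_aco_lam hi]
          have hr : ∑ k, r i k * C.n i k v = (β i).linear v := by
            rw [D.r_sum i hi]; simp [LinearMap.sum_apply]
          rw [hr]
          have : t * lam i o = 1 - ε * r i o := by rw [ht]; field_simp
          rw [this]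
          ring
  span := by
    rintro (_ | i) ⟨v, z⟩ h
    · have hz : z = 0 := by
        have := h (some o) (by simp)
        rw [liftN_ns] at this
        simp only [LinearMap.neg_apply, liftInf_o] at this
        linarith
      have hv : v = 0 := by
        apply hG.β_inj
        intro j hj
        have := h (some j) (by simp)
        rw [liftN_ns] at this
        simp only [LinearMap.neg_apply, liftInf_ne hj, hz] at this
        linarith
      rw [hz, hv]; rfl
    · by_cases hi : i = o
      · subst hi
        have hz : z = 0 := by
          have := h none (by simp)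
          rw [liftN_sn] at this
          simp only [liftInf_o] at this
          linarith
        have hv : v = 0 := by
          apply C.span i
          intro j hj
          have := h (some j) (by simpa using hj)
          rw [liftN_ss] at this
          simp only [hz] at this
          linarith
        rw [hz, hv]; rfl
      · have hk : ∀ k, k ≠ i → k ≠ o → C.n i k v = 0 := by
          intro k hki hko
          have := h (some k) (by simpa using hki)
          rw [liftN_ss] at this
          simp only [aco, hi, hko, if_false] at this
          linarith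
        have ho : C.n i o v = ε * z := by
          have := h (some o) (by simpa using Ne.symm hi)
          rw [liftN_ss] at this
          simp only [aco, hi, if_false, if_true] at this
          linarith
        have hsum : ∑ j, lam i j * C.n i j v = 0 := by
          have := congrArg (fun f : E →ₗ[ℝ] ℝ => f v) (D.lam_sum i)
          simpa [LinearMap.sum_apply] using this
        rw [Finset.sum_eq_single o] at hsum
        · rw [ho] at hsum
          have hz : z = 0 := by
            rcases mul_eq_zero.1 hsum with h' | h'
            · exact absurd h' (D.lam_pos i o (Ne.symm hi)).ne'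
            · rcases mul_eq_zero.1 h' with h'' | h''
              · exact absurd h'' D.ε_pos.ne'
              · exact h''
          have hv : v = 0 := by
            apply C.span i
            intro j hj
            by_cases hjo : j = o
            · rw [hjo, ho, hz]; ring
            · exact hk j hj hjo
          rw [hz, hv]; rfl
        · intro j _ hjo
          by_cases hji : j = i
          · rw [hji, C.self]; simp
          · rw [hk j hji hjo]; ring
        · intro h'; exact absurd (Finset.mem_univ o) h'

end Tangle
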