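import Mathlib
import Pool.Agent.Lib_helper86.Tangle.Step

/-! The dimension-raising step: choice of the parameters. -/

open Module Filter Topology

set_option linter.unusedSectionVars false

namespace Tangle

variable {ι E : Type*} [Fintype ι] [DecidableEq ι] [AddCommGroup E] [Module ℝ E]

theorem Good.exists_dir {C : CFam ι E} {o : ι} {β : ι → (E →ᵃ[ℝ] ℝ)} (hG : Good C o β) (j : ι)
    (hj : j ≠ o) : ∃ u : E, (β j).linear u = -1 ∧ 0 < C.n o j u := by
  obtain ⟨k, l, hko, hkj, hlo, hlj, hlt⟩ := hG.twist j hj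
  set R : ℝ := (C.n o j (C.x o j) - C.n o j (C.x o k) + 1) /
    (C.n o j (C.x o l) - C.n o j (C.x o k)) with hR
  refine ⟨R • (C.x o l - C.x o k) + (C.x o k - C.x o j), ?_, ?_⟩
  · rw [map_add, map_smul, lin_val, lin_val, hG.β_ne j l hj hlo (Ne.symm hlj),
      hG.β_ne j k hj hko (Ne.symm hkj), hG.β_eq j hj]
    simp
  · rw [map_add, map_smul, map_sub, map_sub, smul_eq_mul, hR]
    have : 0 < C.n o j (C.x o l) - C.n o j (C.x o k) := by linarith
    rw [div_mul_cancel₀ _ this.ne']
    linarith

theorem exists_bound {α : Type*} [Finite α] (f : α → ℝ) : ∃ M, ∀ a, f a < M := by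
  obtain ⟨M, hM⟩ := (Set.finite_range f).bddAbove
  exact ⟨M + 1, fun a => by linarith [hM ⟨a, rfl⟩]⟩

theorem Good.exists_liftData [FiniteDimensional ℝ E] {C : CFam ι E} {o : ι}
    {β : ι → (E →ᵃ[ℝ] ℝ)} (hG : Good C o β)
    {j1 j2 : ι} (hj1 : j1 ≠ o) (hj2 : j2 ≠ o) (hj12 : j1 ≠ j2) :
    ∃ (W : ι → E) (Z : ι → ℝ) (y : ι → ι → ℝ) (ε : ℝ) (r lam : ι → ι → ℝ) (h ρ : ℝ),
      LiftData C o β W Z y ε r lam ∧ 0 < h ∧ y o j1 = h / 3 ∧ y o j2 = h / 2 ∧
      W o = (1/2:ℝ) • C.x o j1 + (1/2:ℝ) • C.x o j2 ∧
      (∀ j, j ≠ o → ∃ k l, k ≠ o ∧ k ≠ j ∧ l ≠ o ∧ l ≠ j ∧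
        C.n o j (C.x o k) + ε * y o k < C.n o j (C.x o l) + ε * y o l) ∧
      0 < ρ ∧ ∀ j, j ≠ o → j ≠ j1 →
        - Z j = ρ * (((β j1).linear (W j1) - Z j1) - ((β j1).linear (W j) - Z j)) := by
  classical
  have hu : ∀ j, ∃ u : E, j ≠ o → ((β j).linear u = -1 ∧ 0 < C.n o j u) := by
    intro j
    by_cases hj : j = o
    · exact ⟨0, fun h => absurd hj h⟩
    · obtain ⟨u, hu⟩ := hG.exists_dir j hj
      exact ⟨u, fun _ => hu⟩
  choose u hu using hu
  set b : ι → ℝ := fun j => (β j1).linear (u j) with hb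
  set σ : ι → ℝ → ℝ := fun j h => if j = j1 then 2 else 2 / (1 + h * (1 + b j)) with hσ
  have hσ0 : ∀ j, σ j 0 = 2 := by intro j; simp [hσ]
  have hσc : ∀ j, ContinuousAt (σ j) 0 := by
    intro j
    by_cases hj : j = j1
    · have : σ j = fun _ => (2:ℝ) := by funext h; simp [hσ, hj]
      rw [this]; exact continuousAt_const
    · have : σ j = fun h => 2 / (1 + h * (1 + b j)) := by funext h; simp [hσ, hj]
      rw [this]
      apply ContinuousAt.div continuousAt_const
      · fun_prop
      · simp
  have ev : ∀ᶠ h in 𝓝[>] (0:ℝ), (0 < h ∧ 0 < 1/4 - h) ∧ (∀ j, 0 < σ j h - 1) ∧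
      (∀ j, 0 < 1 + h * (1 + b j)) ∧
      (∀ j k, j ≠ o → k ≠ o → k ≠ j →
        0 < C.n j k (C.x j k) - (C.n j k (C.x o j) + h * σ j h * C.n j k (u j))) ∧
      (∀ j k, j ≠ o → k ≠ o → k ≠ j →
        0 < 1 - h - h * σ j h * (β k).linear (u j) - h * (σ j h - 1)) := by
    refine Filter.Eventually.and (Filter.Eventually.and ?_ ?_) (Filter.Eventually.and ?_
      (Filter.Eventually.and ?_ (Filter.Eventually.and ?_ ?_)))
    · exact self_mem_nhdsWithin
    · apply ev_pos (f := fun h => 1/4 - h)
      · fun_prop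
      · norm_num
    · rw [Filter.eventually_all]
      intro j
      apply ev_pos (f := fun h => σ j h - 1) ((hσc j).sub continuousAt_const)
      simp only [hσ0]; norm_num
    · rw [Filter.eventually_all]
      intro j
      apply ev_pos (f := fun h => 1 + h * (1 + b j))
      · fun_prop
      · norm_num
    · simp only [Filter.eventually_all]
      intro j k
      by_cases hj : j = o
      · simp [hj]
      by_cases hk : k = o
      · simp [hk]
      by_cases hkj : k = j
      · simp [hkj]
      have : ∀ᶠ h in 𝓝[>] (0:ℝ),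
          0 < C.n j k (C.x j k) - (C.n j k (C.x o j) + h * σ j h * C.n j k (u j)) := by
        apply ev_pos
          (f := fun h => C.n j k (C.x j k) - (C.n j k (C.x o j) + h * σ j h * C.n j k (u j)))
        · apply ContinuousAt.sub continuousAt_const
          apply ContinuousAt.add continuousAt_const
          exact (continuousAt_id.mul (hσc j)).mul continuousAt_const
        · have := C.lt j k o (Ne.symm hkj) hj hk
          rw [C.symm o j] at this
          simp only [zero_mul]; linarith
      exact fun _ _ _ => this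
    · simp only [Filter.eventually_all]
      intro j k
      by_cases hj : j = o
      · simp [hj]
      by_cases hk : k = o
      · simp [hk]
      by_cases hkj : k = j
      · simp [hkj]
      have : ∀ᶠ h in 𝓝[>] (0:ℝ), 0 < 1 - h - h * σ j h * (β k).linear (u j) - h * (σ j h - 1) := by
        apply ev_pos (f := fun h => 1 - h - h * σ j h * (β k).linear (u j) - h * (σ j h - 1))
        · apply ContinuousAt.sub
          · apply ContinuousAt.sub
            · fun_prop
            · exact (continuousAt_id.mul (hσc j)).mul continuousAt_const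
          · exact continuousAt_id.mul ((hσc j).sub continuousAt_const)
        · simp
      exact fun _ _ _ => this
  obtain ⟨h, ⟨hh0, hh4⟩, hσ1, hden, hin, hg⟩ := ev.exists
  set s : ι → ℝ := fun j => h * σ j h with hs
  set τ : ι → ℝ := fun j => h * (σ j h - 1) with hτ
  have hsτ : ∀ j, s j - τ j = h := by intro j; simp only [hs, hτ]; ring
  have hτ0 : ∀ j, 0 < τ j := fun j => mul_pos hh0 (hσ1 j)
  have hs0 : ∀ j, 0 < s j := fun j => by linarith [hsτ j, hτ0 j]
  set W : ι → E := fun j => if j = o then (1/2:ℝ) • C.x o j1 + (1/2:ℝ) • C.x o j2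
    else C.x o j + s j • u j with hW
  have hWo : W o = (1/2:ℝ) • C.x o j1 + (1/2:ℝ) • C.x o j2 := by simp [hW]
  have hWj : ∀ j, j ≠ o → W j = C.x o j + s j • u j := fun j hj => by simp [hW, hj]
  set Z : ι → ℝ := fun j => if j = o then 0 else - τ j with hZ
  have hZo : Z o = 0 := by simp [hZ]
  have hZj : ∀ j, j ≠ o → Z j = - τ j := fun j hj => by simp [hZ, hj]
  -- β values
  have hβW : ∀ j k, j ≠ o → β k (W j) = β k (C.x o j) + s j * (β k).linear (u j) := by
    intro j k hj
    rw [hWj j hj, add_smul_val']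
  have hβWself : ∀ j, j ≠ o → β j (W j) = 1 - s j := by
    intro j hj
    rw [hβW j j hj, hG.β_eq j hj, (hu j hj).1]; ring
  have hβWne : ∀ j k, j ≠ o → k ≠ o → k ≠ j → β k (W j) = s j * (β k).linear (u j) := by
    intro j k hj hk hkj
    rw [hβW j k hj, hG.β_ne k j hk hj hkj]; ring
  have hβWo : ∀ j, j ≠ o → β j (W o) ≤ 1/2 := by
    intro j hj
    have e : W o = AffineMap.lineMap (C.x o j1) (C.x o j2) (1/2:ℝ) := by
      rw [hWo, AffineMap.lineMap_apply_module]; norm_num
    rw [e, AffineMap.apply_lineMap, AffineMap.lineMap_apply_ring]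
    by_cases h1 : j = j1
    · subst h1
      rw [hG.β_eq j hj, hG.β_ne j j2 hj hj2 hj12]; norm_num
    · rw [hG.β_ne j j1 hj hj1 h1]
      by_cases h2 : j = j2
      · subst h2; rw [hG.β_eq j hj]; norm_num
      · rw [hG.β_ne j j2 hj hj2 h2]; norm_num
  -- the points `W i` are inside
  have hnW : ∀ i j, i ≠ j → 0 < C.n i j (C.x i j) - C.n i j (W i) := by
    intro i j hij
    by_cases hi : i = o
    · subst hi
      rw [hWo, map_add, map_smul, map_smul]
      simp only [smul_eq_mul]
      by_cases h1 : j = j1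
      · have := C.lt i j j2 hij (Ne.symm hj2) (by rw [h1]; exact hj12)
        rw [h1] at this ⊢; linarith
      · have a1 := C.lt i j j1 hij (Ne.symm hj1) h1
        by_cases h2 : j = j2
        · rw [h2] at a1 ⊢; linarith
        · have a2 := C.lt i j j2 hij (Ne.symm hj2) h2
          linarith
    · by_cases hj : j = o
      · subst hj
        rw [hWj i hi, map_add, map_smul, C.symm i j]
        have := (hu i hi).2
        rw [C.skew j i]
        simp only [smul_eq_mul, LinearMap.neg_apply]
        rw [C.symm j i]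
        nlinarith [mul_pos (hs0 i) this]
      · have := hin i j hi hj (Ne.symm hij)
        rw [hWj i hi, map_add, map_smul]
        simpa [hs, smul_eq_mul] using this
  -- heights
  set yy : ι → ℝ := fun j => if j = j1 then h / 3 else h / 2 with hyy
  have hyy0 : ∀ j, 0 < yy j := by
    intro j; simp only [hyy]; split_ifs <;> positivity
  have hyyh : ∀ j, yy j < h := by
    intro j; simp only [hyy]; split_ifs <;> linarith
  obtain ⟨M, hM⟩ := exists_bound (fun p : ι × ι =>
    (β p.1).linear (W p.1) - (β p.1).linear (C.x p.1 p.2) - Z p.1)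
  set y : ι → ι → ℝ := fun i j => if i = o then (if j = o then 0 else yy j)
    else if j = o then yy i else -M with hy
  have yoj : ∀ j, j ≠ o → y o j = yy j := fun j hj => by simp [hy, hj]
  have yjo : ∀ j, j ≠ o → y j o = yy j := fun j hj => by simp [hy, hj]
  have yjk : ∀ j k, j ≠ o → k ≠ o → y j k = -M := fun j k hj hk => by simp [hy, hj, hk]
  have ysymm : ∀ i j, y j i = y i j := by
    intro i j
    by_cases hi : i = o
    · by_cases hj : j = o
      · rw [hi, hj]
      · rw [hi, yoj j hj, yjo j hj]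
    · by_cases hj : j = o
      · rw [hj, yoj i hi, yjo i hi]
      · rw [yjk i j hi hj, yjk j i hj hi]
  -- positive dependencies
  choose lam hlam hlamsum using C.pos
  have hr : ∀ j, ∃ r : ι → ℝ, j ≠ o → (β j).linear = ∑ k, r k • C.n j k := by
    intro j
    by_cases hj : j = o
    · exact ⟨0, fun h => absurd hj h⟩
    have hmem : (β j).linear ∈ Submodule.span ℝ (Set.range (C.n j)) := by
      apply mem_span_of_iInf_ker_le_ker
      intro v hv
      have hv' : v = 0 := by
        apply C.span j
        intro k _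
        exact (Submodule.mem_iInf _).1 hv k
      rw [hv']; simp
    rw [Submodule.mem_span_range_iff_exists_fun] at hmem
    obtain ⟨r, hr⟩ := hmem
    exact ⟨r, fun _ => hr.symm⟩
  choose r hr using hr
  have htw : ∀ j, ∃ k l, j ≠ o → (k ≠ o ∧ k ≠ j ∧ l ≠ o ∧ l ≠ j ∧
      C.n o j (C.x o k) < C.n o j (C.x o l)) := by
    intro j
    by_cases hj : j = o
    · exact ⟨o, o, fun h => absurd hj h⟩
    · obtain ⟨k, l, h⟩ := hG.twist j hj
      exact ⟨k, l, fun _ => h⟩
  choose tk tl htw using htw
  have ev2 : ∀ᶠ ε in 𝓝[>] (0:ℝ), 0 < ε ∧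
      (∀ i j k, i ≠ j → i ≠ k → j ≠ k →
        0 < (C.n i j (C.x i j) - C.n i j (C.x i k)) + ε * (aco o i j * (y i j - y i k))) ∧
      (∀ i j, i ≠ j → 0 < (C.n i j (C.x i j) - C.n i j (W i)) + ε * (aco o i j * (y i j - Z i))) ∧
      (∀ j k, j ≠ o → k ≠ j → 0 < (1 - ε * r j o) * lam j k / lam j o + ε * r j k) ∧
      (∀ j, j ≠ o → 0 < (C.n o j (C.x o (tl j)) + ε * y o (tl j)) -
        (C.n o j (C.x o (tk j)) + ε * y o (tk j))) := by
    refine Filter.Eventually.and self_mem_nhdsWithin (Filter.Eventually.and ?_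
      (Filter.Eventually.and ?_ (Filter.Eventually.and ?_ ?_)))
    · simp only [Filter.eventually_all]
      intro i j k
      by_cases hij : i = j
      · simp [hij]
      by_cases hik : i = k
      · simp [hik]
      by_cases hjk : j = k
      · simp [hjk]
      have : ∀ᶠ ε in 𝓝[>] (0:ℝ),
          0 < (C.n i j (C.x i j) - C.n i j (C.x i k)) + ε * (aco o i j * (y i j - y i k)) := by
        apply ev_pos
          (f := fun ε => (C.n i j (C.x i j) - C.n i j (C.x i k)) + ε * (aco o i j * (y i j - y i k)))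
        · fun_prop
        · have := C.lt i j k hij hik hjk
          simp only [zero_mul]; linarith
      exact fun _ _ _ => this
    · simp only [Filter.eventually_all]
      intro i j
      by_cases hij : i = j
      · simp [hij]
      have : ∀ᶠ ε in 𝓝[>] (0:ℝ),
          0 < (C.n i j (C.x i j) - C.n i j (W i)) + ε * (aco o i j * (y i j - Z i)) := by
        apply ev_pos
          (f := fun ε => (C.n i j (C.x i j) - C.n i j (W i)) + ε * (aco o i j * (y i j - Z i)))
        · fun_prop
        · have := hnW i j hij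
          simp only [zero_mul]; linarith
      exact fun _ => this
    · simp only [Filter.eventually_all]
      intro j k
      by_cases hj : j = o
      · simp [hj]
      by_cases hkj : k = j
      · simp [hkj]
      have : ∀ᶠ ε in 𝓝[>] (0:ℝ), 0 < (1 - ε * r j o) * lam j k / lam j o + ε * r j k := by
        apply ev_pos (f := fun ε => (1 - ε * r j o) * lam j k / lam j o + ε * r j k)
        · fun_prop
        · have h1 := hlam j k hkj
          have h2 := hlam j o (Ne.symm hj)
          simp only [zero_mul, sub_zero, one_mul, add_zero]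
          positivity
      exact fun _ _ => this
    · simp only [Filter.eventually_all]
      intro j
      by_cases hj : j = o
      · simp [hj]
      have : ∀ᶠ ε in 𝓝[>] (0:ℝ), 0 < (C.n o j (C.x o (tl j)) + ε * y o (tl j)) -
          (C.n o j (C.x o (tk j)) + ε * y o (tk j)) := by
        apply ev_pos (f := fun ε => (C.n o j (C.x o (tl j)) + ε * y o (tl j)) -
          (C.n o j (C.x o (tk j)) + ε * y o (tk j)))
        · fun_prop
        · have := (htw j hj).2.2.2.2
          simp only [zero_mul, add_zero]; linarith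
      exact fun _ => this
  obtain ⟨ε, hε0, hss, hsn, hwt, htwε⟩ := ev2.exists
  have hlinβ : ∀ j x, (β j).linear x = β j x - β j 0 := by
    intro j x
    have := lin_val (β j) x 0
    rwa [sub_zero] at this
  refine ⟨W, Z, y, ε, r, lam, h, h, ⟨ysymm, hε0, hss, hsn, hZo, ?_, ?_, ?_, ?_, ?_, ?_, hlam,
    hlamsum, hr, hwt⟩, hh0, ?_, ?_, hWo, ?_, hh0, ?_⟩
  · intro j hj; rw [hZj j hj]; linarith [hτ0 j]
  · intro j hj; rw [yoj j hj]; exact hyy0 j
  · -- jo
    intro j hj
    rw [yjo j hj, hZj j hj, hlinβ, hlinβ, hβWself j hj, C.symm o j, hG.β_eq j hj]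
    linarith [hyyh j, hsτ j]
  · -- jk
    intro j k hj hk hjk
    rw [yjk j k hj hk]
    have := hM (j, k)
    simp only at this
    linarith
  · -- no
    intro j hj
    rw [hZj j hj, hlinβ, hlinβ, hβWself j hj]
    linarith [hβWo j hj, hsτ j]
  · -- nk
    intro j k hj hk hjk
    rw [hZj j hj, hZj k hk, hlinβ, hlinβ, hβWself j hj, hβWne k j hk hj hjk]
    have := hg k j hk hj hjk
    have e1 : s k * (β j).linear (u k) = h * σ k h * (β j).linear (u k) := rfl
    have e2 : τ k = h * (σ k h - 1) := rfl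
    linarith [hsτ j]
  · rw [yoj j1 hj1]; simp [hyy]
  · rw [yoj j2 hj2]; simp [hyy, Ne.symm hj12]
  · intro j hj
    obtain ⟨a1, a2, a3, a4, -⟩ := htw j hj
    exact ⟨tk j, tl j, a1, a2, a3, a4, by linarith [htwε j hj]⟩
  · -- the ratio identity
    intro j hj hjj1
    rw [hZj j hj, hZj j1 hj1, hlinβ, hlinβ, hβWself j1 hj1, hβWne j j1 hj hj1 (Ne.symm hjj1)]
    have hσj : σ j h = 2 / (1 + h * (1 + b j)) := by simp [hσ, hjj1]
    have hd := (hden j).ne'
    have e2 : τ j = h * (σ j h - 1) := rfl
    have e3 : s j = h * σ j h := rfl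
    have e4 : s j1 - τ j1 = h := hsτ j1
    have e5 : (β j1).linear (u j) = b j := rfl
    rw [e5]
    have e6 : 1 - s j1 - β j1 0 - -τ j1 - (s j * b j - β j1 0 - -τ j) = 1 - h - s j * b j - τ j := by
      linarith
    rw [e6, e2, e3, hσj]
    field_simp
    ring

end Tangle
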