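import Mathlib
import Pool.Agent.Lib_helper86.Tangle.Step2

/-! The dimension-raising step: the new family is good and splittable. -/

open Module Filter Topology

set_option linter.unusedSectionVars false

namespace Tangle

variable {ι E : Type*} [Fintype ι] [DecidableEq ι] [AddCommGroup E] [Module ℝ E]

/-- The height function. -/
noncomputable def heightF (β : ι → (E →ᵃ[ℝ] ℝ)) (w : ι → ℝ) : E →ᵃ[ℝ] ℝ := ∑ j, w j • β j

theorem heightF_apply (β : ι → (E →ᵃ[ℝ] ℝ)) (w : ι → ℝ) (x : E) :
    heightF β w x = ∑ j, w j * β j x := by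
  classical
  unfold heightF
  induction (Finset.univ : Finset ι) using Finset.induction_on with
  | empty => simp
  | insert a s ha ih => rw [Finset.sum_insert ha, Finset.sum_insert ha]; simp [ih]

/-- New coordinate for the new contact point of `o`. -/
noncomputable def thetaF (β : ι → (E →ᵃ[ℝ] ℝ)) (w : ι → ℝ) (Y : ℝ) : (E × ℝ) →ᵃ[ℝ] ℝ :=
  (1 / Y) • ((heightF β w).comp (LinearMap.fst ℝ E ℝ).toAffineMap -
    (LinearMap.snd ℝ E ℝ).toAffineMap)

theorem thetaF_apply (β : ι → (E →ᵃ[ℝ] ℝ)) (w : ι → ℝ) (Y : ℝ) (p : E × ℝ) :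
    thetaF β w Y p = (1 / Y) * (heightF β w p.1 - p.2) := by
  simp [thetaF]

/-- New barycentric coordinates. -/
noncomputable def betaF (β : ι → (E →ᵃ[ℝ] ℝ)) (w : ι → ℝ) (Y : ℝ) (Wo : E) :
    Option ι → ((E × ℝ) →ᵃ[ℝ] ℝ)
  | none => thetaF β w Y
  | some j => (β j).comp (LinearMap.fst ℝ E ℝ).toAffineMap - (β j Wo) • thetaF β w Y

theorem betaF_none (β : ι → (E →ᵃ[ℝ] ℝ)) (w : ι → ℝ) (Y : ℝ) (Wo : E) (p : E × ℝ) :
    betaF β w Y Wo none p = thetaF β w Y p := rfl

theorem betaF_some (β : ι → (E →ᵃ[ℝ] ℝ)) (w : ι → ℝ) (Y : ℝ) (Wo : E) (j : ι) (p : E × ℝ) :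
    betaF β w Y Wo (some j) p = β j p.1 - β j Wo * thetaF β w Y p := by
  simp [betaF]

theorem Good.step [FiniteDimensional ℝ E] {C : CFam ι E} {o : ι}
    {β : ι → (E →ᵃ[ℝ] ℝ)} (hG : Good C o β)
    {j1 j2 : ι} (hj1 : j1 ≠ o) (hj2 : j2 ≠ o) (hj12 : j1 ≠ j2) :
    ∃ (C' : CFam (Option ι) (E × ℝ)) (β' : Option ι → ((E × ℝ) →ᵃ[ℝ] ℝ)),
      Good C' (some o) β' ∧ CSplit C' := by
  obtain ⟨W, Z, y, ε, r, lam, h, ρ, D, hh, hy1, hy2, hWo, htw, hρ, hs⟩ :=
    hG.exists_liftData hj1 hj2 hj12
  set Y : ℝ := (h / 3 + h / 2) / 2 with hY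
  have hYpos : 0 < Y := by rw [hY]; positivity
  set w : ι → ℝ := fun j => y o j with hw
  have hheight : ∀ k, k ≠ o → heightF β w (C.x o k) = y o k := by
    intro k hk
    rw [heightF_apply, Finset.sum_eq_single k]
    · rw [hG.β_eq k hk, mul_one]
    · intro j _ hjk
      by_cases hj : j = o
      · rw [hj, hG.β_o]; simp
      · rw [hG.β_ne j k hj hk hjk, mul_zero]
    · intro h'; exact absurd (Finset.mem_univ k) h'
  have hheightW : heightF β w (W o) = Y := by
    have e : W o = AffineMap.lineMap (C.x o j1) (C.x o j2) (1/2 : ℝ) := by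
      rw [hWo, AffineMap.lineMap_apply_module]; norm_num
    rw [e, AffineMap.apply_lineMap, hheight j1 hj1, hheight j2 hj2, hy1, hy2,
      AffineMap.lineMap_apply_module]
    simp only [smul_eq_mul]; rw [hY]; ring
  have hθ0 : ∀ k, k ≠ o → thetaF β w Y (C.x o k, y o k) = 0 := by
    intro k hk; rw [thetaF_apply]; simp only [hheight k hk, sub_self, mul_zero]
  have hθ1 : thetaF β w Y (W o, 0) = 1 := by
    rw [thetaF_apply]; simp only [hheightW, sub_zero]; field_simp
  have hxo : ∀ k, liftX C W Z y (some o) (some k) = (C.x o k, y o k) := fun k => rfl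
  have hxn : liftX C W Z y (some o) none = (W o, 0) := by
    simp only [liftX, D.Zo]
  refine ⟨C.lift hG D j1 hj1, betaF β w Y (W o), ⟨?_, ?_, ?_, ?_, ?_, ?_⟩, ?_⟩
  · rintro (_ | j) hj
    · change betaF β w Y (W o) none (liftX C W Z y (some o) none) = 1
      rw [hxn, betaF_none, hθ1]
    · have hjo : j ≠ o := fun h' => hj (by rw [h'])
      change betaF β w Y (W o) (some j) (liftX C W Z y (some o) (some j)) = 1
      rw [hxo, betaF_some, hθ0 j hjo]
      simp only [mul_zero, sub_zero]
      exact hG.β_eq j hjo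
  · rintro (_ | j) (_ | k) hj hk hjk
    · exact absurd rfl hjk
    · have hko : k ≠ o := fun h' => hk (by rw [h'])
      change betaF β w Y (W o) none (liftX C W Z y (some o) (some k)) = 0
      rw [hxo, betaF_none, hθ0 k hko]
    · change betaF β w Y (W o) (some j) (liftX C W Z y (some o) none) = 0
      rw [hxn, betaF_some, hθ1]
      simp
    · have hjo : j ≠ o := fun h' => hj (by rw [h'])
      have hko : k ≠ o := fun h' => hk (by rw [h'])
      have hjk' : j ≠ k := fun h' => hjk (by rw [h'])
      change betaF β w Y (W o) (some j) (liftX C W Z y (some o) (some k)) = 0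
      rw [hxo, betaF_some, hθ0 k hko]
      simp only [mul_zero, sub_zero]
      exact hG.β_ne j k hjo hko hjk'
  · ext p
    rw [betaF_some, hG.β_o]
    simp
  · intro p
    rw [Fintype.sum_option]
    simp only [betaF_none, betaF_some]
    rw [Finset.sum_sub_distrib, ← Finset.sum_mul, hG.β_sum, hG.β_sum]
    ring
  · rintro ⟨v, z⟩ hv
    have hθv : (thetaF β w Y).linear (v, z) = 0 := hv none (by simp)
    have hv0 : v = 0 := by
      apply hG.β_inj
      intro j hj
      have h1 := hv (some j) (by simpa using hj)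
      have h2 := lin_val (betaF β w Y (W o) (some j)) (v, z) 0
      rw [sub_zero, h1, betaF_some, betaF_some] at h2
      have h3 := lin_val (thetaF β w Y) (v, z) 0
      rw [sub_zero, hθv] at h3
      have h4 := lin_val (β j) v 0
      rw [sub_zero] at h4
      rw [h4]
      have h5 : thetaF β w Y (v, z) = thetaF β w Y 0 := by linarith
      rw [h5] at h2
      simp only [Prod.fst_zero] at h2
      linarith
    have hz0 : z = 0 := by
      have h3 := lin_val (thetaF β w Y) (v, z) 0
      rw [sub_zero, hθv, thetaF_apply, thetaF_apply, hv0] at h3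
      simp only [Prod.fst_zero, Prod.snd_zero] at h3
      have h4 : (1 / Y) * z = 0 := by linarith
      rcases mul_eq_zero.1 h4 with h5 | h5
      · exact absurd h5 (by positivity)
      · exact h5
    rw [hv0, hz0]; rfl
  · rintro (_ | j) hj
    · refine ⟨some j2, some j1, by simpa using hj2, by simp, by simpa using hj1, by simp, ?_⟩
      change liftN C o β ε (some o) none (liftX C W Z y (some o) (some j2)) <
        liftN C o β ε (some o) none (liftX C W Z y (some o) (some j1))
      rw [hxo, hxo, liftN_sn, liftInf_o, liftInf_o, hy1, hy2]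
      simp only
      linarith
    · have hjo : j ≠ o := fun h' => hj (by rw [h'])
      obtain ⟨k, l, hko, hkj, hlo, hlj, hlt⟩ := htw j hjo
      refine ⟨some k, some l, by simpa using hko, by simpa using hkj, by simpa using hlo,
        by simpa using hlj, ?_⟩
      change liftN C o β ε (some o) (some j) (liftX C W Z y (some o) (some k)) <
        liftN C o β ε (some o) (some j) (liftX C W Z y (some o) (some l))
      rw [hxo, hxo, liftN_ss, liftN_ss]
      have : aco o o j = 1 := by simp [aco, hjo]
      rw [this]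
      simp only [mul_one]
      exact hlt
  · refine ⟨none, some o, some j1, by simp, by simp, by simpa using hj1.symm, ρ, hρ, ?_⟩
    rintro (_ | j) h1 h2 h3
    · exact absurd rfl h1
    · have hjo : j ≠ o := fun h' => h2 (by rw [h'])
      have hjj1 : j ≠ j1 := fun h' => h3 (by rw [h'])
      have := hs j hjo hjj1
      change liftN C o β ε none (some o) (W o, Z o) - liftN C o β ε none (some o) (W j, Z j) =
        ρ * (liftN C o β ε none (some j1) (W j1, Z j1) -
          liftN C o β ε none (some j1) (W j, Z j))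
      rw [liftN_ns, liftN_ns]
      simp only [LinearMap.neg_apply, liftInf_o, liftInf_ne hj1, D.Zo]
      linarith

end Tangle
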