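import Mathlib
import Pool.Agent.Lib_helper86.Tangle.Step3
import Pool.Agent.Lib_helper86.Tangle.Iter

/-! From separation data to families of simplices; the induction on the dimension. -/

open Module

set_option linter.unusedSectionVars false

namespace Tangle

theorem exists_of_GFam {ι E : Type*} [Fintype ι] [DecidableEq ι] [AddCommGroup E] [Module ℝ E]
    [FiniteDimensional ℝ E] (G : GFam ι E) (hs : GSplit G) {N d : ℕ}
    (hN : Fintype.card ι = N) (hfin : finrank ℝ E = d) (hd : 3 ≤ d)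
    (e : ∀ i, Fin (d + 1) ≃ {j // G.adj i j}) (n : ℕ) (hn : N ≤ n) :
    Nonempty (HFam (Fin n) (Fin (d + 1)) (EuclideanSpace ℝ (Fin d))) := by
  obtain ⟨F, hF⟩ := G.toHFam (κ := Fin (d + 1)) (by simp [hfin]) (by omega) e
  obtain ⟨i0, k0, k1, h01, hsp⟩ := hF hs
  let en : Fin N ≃ ι := (Fintype.equivFinOfCardEq hN).symm
  obtain ⟨F'⟩ := exists_HFam_ge (by simp; omega) (F.reindex en) _ k0 k1 h01
    (F.reindex_split en hsp) n hn
  have eL : EuclideanSpace ℝ (Fin d) ≃ₗ[ℝ] E :=
    LinearEquiv.ofFinrankEq _ _ (by rw [hfin, finrank_euclideanSpace_fin])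
  exact ⟨F'.map eL⟩

theorem exists_of_CFam {ι E : Type*} [Fintype ι] [DecidableEq ι] [AddCommGroup E] [Module ℝ E]
    [FiniteDimensional ℝ E] (C : CFam ι E) (hs : CSplit C) {d : ℕ}
    (hN : Fintype.card ι = d + 2) (hfin : finrank ℝ E = d) (hd : 3 ≤ d)
    (n : ℕ) (hn : d + 2 ≤ n) :
    Nonempty (HFam (Fin n) (Fin (d + 1)) (EuclideanSpace ℝ (Fin d))) := by
  classical
  have e : ∀ i : ι, Nonempty (Fin (d + 1) ≃ {j // C.toGFam.adj i j}) := by
    intro i
    have h1 : Fintype.card {j // i ≠ j} = d + 1 := by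
      have h2 : Fintype.card {j // i = j} = 1 := Fintype.card_subtype_eq' i
      have := Fintype.card_subtype_compl (fun j => i = j)
      rw [h2, hN] at this
      exact this
    exact ⟨(Fintype.equivFinOfCardEq h1).symm⟩
  exact exists_of_GFam C.toGFam hs.toGSplit hN hfin hd (fun i => (e i).some) n hn

/-- There is a good splittable complete family of `k + 6` bodies in dimension `k + 4`. -/
def Have (k : ℕ) : Prop :=
  ∃ (ι : Type) (_ : Fintype ι) (_ : DecidableEq ι) (E : Type) (_ : AddCommGroup E)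
    (_ : Module ℝ E) (_ : FiniteDimensional ℝ E) (C : CFam ι E) (o : ι)
    (β : ι → (E →ᵃ[ℝ] ℝ)), Fintype.card ι = k + 6 ∧ finrank ℝ E = k + 4 ∧ Good C o β ∧ CSplit C

theorem Have.succ {k : ℕ} (h : Have k) : Have (k + 1) := by
  obtain ⟨ι, i1, i2, E, i3, i4, i5, C, o, β, hι, hE, hG, -⟩ := h
  have h2 : 1 < (Finset.univ.erase o).card := by
    rw [Finset.card_erase_of_mem (Finset.mem_univ o), Finset.card_univ, hι]; omega
  obtain ⟨j1, hj1, j2, hj2, hne⟩ := Finset.one_lt_card.1 h2
  obtain ⟨C', β', hG', hs'⟩ := hG.step (Finset.ne_of_mem_erase hj1) (Finset.ne_of_mem_erase hj2) hne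
  refine ⟨Option ι, inferInstance, inferInstance, E × ℝ, inferInstance, inferInstance,
    inferInstance, C', some o, β', ?_, ?_, hG', hs'⟩
  · rw [Fintype.card_option, hι]
  · rw [Module.finrank_prod, hE, Module.finrank_self]

theorem Have.all (h : Have 0) (k : ℕ) : Have k := by
  induction k with
  | zero => exact h
  | succ k ih => exact ih.succ

theorem Have.exists_HFam {k : ℕ} (h : Have k) (n : ℕ) (hn : k + 6 ≤ n) :
    Nonempty (HFam (Fin n) (Fin (k + 4 + 1)) (EuclideanSpace ℝ (Fin (k + 4)))) := by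
  obtain ⟨ι, i1, i2, E, i3, i4, i5, C, o, β, hι, hE, hG, hs⟩ := h
  exact exists_of_CFam C hs (d := k + 4) hι hE (by omega) n hn

end Tangle
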