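import Mathlib
import Pool.Agent.Lib_helper86.Tangle.Exist

/-! Base case: six simplices in dimension four. -/

open Module

set_option linter.unusedSectionVars false
set_option maxRecDepth 100000

namespace Tangle

/-- Linear form with integer coefficients. -/
noncomputable def linOf {d : ℕ} (a : Fin d → ℤ) : (Fin d → ℝ) →ₗ[ℝ] ℝ :=
  ∑ l, (a l : ℝ) • (LinearMap.proj l : (Fin d → ℝ) →ₗ[ℝ] ℝ)

/-- Integer point. -/
def ptOf {d : ℕ} (a : Fin d → ℤ) : Fin d → ℝ := fun l => (a l : ℝ)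

theorem linOf_apply {d : ℕ} (a : Fin d → ℤ) (v : Fin d → ℝ) :
    linOf a v = ∑ l, (a l : ℝ) * v l := by
  simp [linOf, LinearMap.sum_apply]

/-- Separating functionals. -/
def N64 : Fin 6 → Fin 6 → Fin 4 → ℤ := ![
  ![![0, 0, 0, 0], ![-22, -19, 19, -17], ![-3, 23, 8, 43], ![-46, -33, -17, 5], ![40, 25, -33, 11], ![-37, -22, 20, 23]],
  ![![22, 19, -19, 17], ![0, 0, 0, 0], ![19, 26, -22, 26], ![55, 21, 29, -5], ![-46, -2, -48, -15], ![6, -16, 32, 14]],
  ![![3, -23, -8, -43], ![-19, -26, 22, -26], ![0, 0, 0, 0], ![8, 38, -9, 44], ![14, -35, -18, -28], ![34, 32, -35, -31]],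
  ![![46, 33, 17, -5], ![-55, -21, -29, 5], ![-8, -38, 9, -44], ![0, 0, 0, 0], ![8, -51, 11, -12], ![5, -38, 25, 15]],
  ![![-40, -25, 33, -11], ![46, 2, 48, 15], ![-14, 35, 18, 28], ![-8, 51, -11, 12], ![0, 0, 0, 0], ![33, -9, -20, 1]],
  ![![37, 22, -20, -23], ![-6, 16, -32, -14], ![-34, -32, 35, 31], ![-5, 38, -25, -15], ![-33, 9, 20, -1], ![0, 0, 0, 0]]]

/-- Contact points. -/
def X64 : Fin 6 → Fin 6 → Fin 4 → ℤ := ![
  ![![0, 0, 0, 0], ![-42, 54, 15, -39], ![54, -17, 63, 8], ![-23, 34, 3, -18], ![-10, 20, -12, -63], ![43, -59, 19, -5]],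
  ![![-42, 54, 15, -39], ![0, 0, 0, 0], ![-46, 17, 10, -3], ![-44, 46, 29, -20], ![13, -39, -29, -57], ![8, -70, -30, -23]],
  ![![54, -17, 63, 8], ![-46, 17, 10, -3], ![0, 0, 0, 0], ![-24, 18, 27, -1], ![-10, -47, -39, 39], ![42, -40, 8, 31]],
  ![![-23, 34, 3, -18], ![-44, 46, 29, -20], ![-24, 18, 27, -1], ![0, 0, 0, 0], ![14, 8, -49, -12], ![21, -5, -38, 65]],
  ![![-10, 20, -12, -63], ![13, -39, -29, -57], ![-10, -47, -39, 39], ![14, 8, -49, -12], ![0, 0, 0, 0], ![1, -66, -40, 10]],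
  ![![43, -59, 19, -5], ![8, -70, -30, -23], ![42, -40, 8, 31], ![21, -5, -38, 65], ![1, -66, -40, 10], ![0, 0, 0, 0]]]

/-- Positive dependencies. -/
def C64 : Fin 6 → Fin 6 → ℤ := ![
  ![0, 703342, 151306, 22171, 442623, 20476],
  ![8530, 0, 36624, 175470, 263830, 266969],
  ![5273, 363445, 0, 359641, 163399, 50733],
  ![2556386, 2192615, 167589, 0, 106377, 697953],
  ![2360411, 71501, 55112, 1679737, 0, 3192026],
  ![622122, 268185, 592016, 16856, 36260, 0]]

/-- Coefficients expressing the unit functionals. -/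
def G64 : Fin 6 → Fin 4 → Fin 6 → ℤ := ![
  ![![0, -34250, -8024, -1644, -20818, 0], ![0, 50114, 11734, 1955, 30691, 0], ![0, -12506, -2784, -846, -8060, 0], ![0, -26868, -5842, -1003, -16369, 0]],
  ![![49400, 0, -35150, -1596, -4408, 0], ![-69991, 0, 57097, 19317, 13206, 0], ![-43511, 0, 27447, 5059, -3424, 0], ![-2926, 0, 12350, -13870, -12882, 0]],
  ![![-11642, -22753, 0, -29758, -7756, 0], ![888, -2814, 0, -2454, -2607, 0], ![-9772, -17024, 0, -24185, -7190, 0], ![-649, 3085, 0, 3736, 2191, 0]],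
  ![![59543, 42599, -9600, 0, 28140, 0], ![-8488, -10480, 4803, 0, -18441, 0], ![-111308, -100592, 12003, 0, -39546, 0], ![-26263, -19270, -15810, 0, 2721, 0]],
  ![![-29887, 34497, -33098, 6711, 0, 0], ![25886, 26086, -50474, 108894, 0, 0], ![52990, 46494, -20458, 38192, 0, 0], ![-81366, -45248, 173696, -157314, 0, 0]],
  ![![10916, 3730, 10068, 588, 0, 0], ![5430, 1025, 5440, 1960, 0, 0], ![-13876, -7060, -13768, -588, 0, 0], ![33244, 13120, 33372, 3332, 0, 0]]]

/-- Denominators. -/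
def D64 : Fin 6 → ℤ := ![20476, 533938, 50733, 697953, 3192026, 36260]

/-- Barycentric coordinates: linear parts. -/
def B64 : Fin 6 → Fin 4 → ℤ := ![
  ![-47563, -31426, 21647, -35011],
  ![0, 0, 0, 0],
  ![40043, 27117, -19550, 30038],
  ![8338, 5056, -2620, 5759],
  ![46673, 31186, -21918, 34194],
  ![-47491, -31933, 22441, -34980]]

/-- Barycentric coordinates: constants. -/
def b64 : Fin 6 → ℤ := ![-1975159, 0, 1682220, 341073, 1938558, -1971075]

/-- Integer dot product in dimension four. -/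
def dot4 (a b : Fin 4 → ℤ) : ℤ := a 0 * b 0 + a 1 * b 1 + a 2 * b 2 + a 3 * b 3

theorem linOf_ptOf4 (a b : Fin 4 → ℤ) : linOf a (ptOf b) = ((dot4 a b : ℤ) : ℝ) := by
  rw [linOf_apply, Fin.sum_univ_four]
  simp only [ptOf, dot4]
  push_cast
  ring

theorem skew64 : ∀ i j l, N64 j i l = - N64 i j l := by decide
theorem symm64 : ∀ i j l, X64 j i l = X64 i j l := by decide
theorem lt64 : ∀ i j k, i ≠ j → i ≠ k → j ≠ k →
    dot4 (N64 i j) (X64 i k) < dot4 (N64 i j) (X64 i j) := by decide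
theorem cpos64 : ∀ i j, j ≠ i → 0 < C64 i j := by decide
theorem csum64 : ∀ i l, C64 i 0 * N64 i 0 l + C64 i 1 * N64 i 1 l + C64 i 2 * N64 i 2 l +
    C64 i 3 * N64 i 3 l + C64 i 4 * N64 i 4 l + C64 i 5 * N64 i 5 l = 0 := by decide
theorem dpos64 : ∀ i, 0 < D64 i := by decide
theorem span64 : ∀ i l m, G64 i l 0 * N64 i 0 m + G64 i l 1 * N64 i 1 m + G64 i l 2 * N64 i 2 m +
    G64 i l 3 * N64 i 3 m + G64 i l 4 * N64 i 4 m + G64 i l 5 * N64 i 5 m =
    if m = l then D64 i else 0 := by decide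
theorem gself64 : ∀ i l, G64 i l i = 0 := by decide
theorem beq64 : ∀ j, j ≠ 1 → dot4 (B64 j) (X64 1 j) + b64 j = 15617 := by decide
theorem bne64 : ∀ j k, j ≠ 1 → k ≠ 1 → j ≠ k → dot4 (B64 j) (X64 1 k) + b64 j = 0 := by decide
theorem bsum64 : ∀ l, B64 0 l + B64 1 l + B64 2 l + B64 3 l + B64 4 l + B64 5 l = 0 := by decide
theorem bspan64 : ∀ l m, X64 1 0 l * B64 0 m + X64 1 1 l * B64 1 m + X64 1 2 l * B64 2 m +
    X64 1 3 l * B64 3 m + X64 1 4 l * B64 4 m + X64 1 5 l * B64 5 m =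
    if m = l then 15617 else 0 := by decide
theorem twist64 : ∀ j, j ≠ 1 → ∃ k l, k ≠ 1 ∧ k ≠ j ∧ l ≠ 1 ∧ l ≠ j ∧
    dot4 (N64 1 j) (X64 1 k) < dot4 (N64 1 j) (X64 1 l) := by decide
theorem split64 : ∀ j, j ≠ 2 → j ≠ 1 → j ≠ 5 →
    dot4 (N64 2 1) (X64 2 1) - dot4 (N64 2 1) (X64 2 j) =
      2 * (dot4 (N64 2 5) (X64 2 5) - dot4 (N64 2 5) (X64 2 j)) := by decide

theorem linOf_neg {d : ℕ} {a b : Fin d → ℤ} (h : ∀ l, b l = - a l) : linOf b = - linOf a := by
  ext v
  simp [linOf_apply, h]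

/-- The complete family of six bodies in dimension four. -/
noncomputable def fam64 : CFam (Fin 6) (Fin 4 → ℝ) where
  n := fun i j => linOf (N64 i j)
  x := fun i j => ptOf (X64 i j)
  skew := fun i j => linOf_neg (skew64 i j)
  symm := fun i j => by funext l; simp only [ptOf, symm64 i j l]
  lt := fun i j k hij hik hjk => by
    rw [linOf_ptOf4, linOf_ptOf4]
    exact_mod_cast lt64 i j k hij hik hjk
  pos := fun i => by
    refine ⟨fun j => (C64 i j : ℝ), fun j hj => Int.cast_pos.2 (cpos64 i j hj), ?_⟩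
    apply LinearMap.ext
    intro v
    rw [LinearMap.sum_apply]
    simp only [LinearMap.smul_apply, linOf_apply, LinearMap.zero_apply,
      smul_eq_mul, Fin.sum_univ_six, Fin.sum_univ_four]
    have h : ∀ l, (C64 i 0 : ℝ) * N64 i 0 l + C64 i 1 * N64 i 1 l + C64 i 2 * N64 i 2 l +
        C64 i 3 * N64 i 3 l + C64 i 4 * N64 i 4 l + C64 i 5 * N64 i 5 l = 0 := by
      intro l; exact_mod_cast csum64 i l
    linear_combination v 0 * h 0 + v 1 * h 1 + v 2 * h 2 + v 3 * h 3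
  span := fun i v h => by
    have hv : ∀ j, (N64 i j 0 : ℝ) * v 0 + N64 i j 1 * v 1 + N64 i j 2 * v 2 +
        N64 i j 3 * v 3 = 0 ∨ j = i := by
      intro j
      by_cases hj : j = i
      · exact Or.inr hj
      · left
        have := h j hj
        rw [linOf_apply, Fin.sum_univ_four] at this
        exact this
    have hg : ∀ j l, (G64 i l j : ℝ) * ((N64 i j 0 : ℝ) * v 0 + N64 i j 1 * v 1 +
        N64 i j 2 * v 2 + N64 i j 3 * v 3) = 0 := by
      intro j l
      rcases hv j with h1 | h1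
      · rw [h1, mul_zero]
      · subst h1; rw [gself64]; simp
    have hs : ∀ l m, (G64 i l 0 : ℝ) * N64 i 0 m + G64 i l 1 * N64 i 1 m + G64 i l 2 * N64 i 2 m +
        G64 i l 3 * N64 i 3 m + G64 i l 4 * N64 i 4 m + G64 i l 5 * N64 i 5 m =
        if m = l then (D64 i : ℝ) else 0 := by
      intro l m
      have := span64 i l m
      split_ifs at this ⊢ <;> exact_mod_cast this
    funext l
    have hD : (0:ℝ) < D64 i := by exact_mod_cast dpos64 i
    have key : (D64 i : ℝ) * v l = 0 := by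
      have e : (D64 i : ℝ) * v l = (if (0:Fin 4) = l then (D64 i : ℝ) else 0) * v 0 +
          (if (1:Fin 4) = l then (D64 i : ℝ) else 0) * v 1 +
          (if (2:Fin 4) = l then (D64 i : ℝ) else 0) * v 2 +
          (if (3:Fin 4) = l then (D64 i : ℝ) else 0) * v 3 := by
        fin_cases l <;> simp
      rw [e, ← hs l 0, ← hs l 1, ← hs l 2, ← hs l 3]
      linear_combination hg 0 l + hg 1 l + hg 2 l + hg 3 l + hg 4 l + hg 5 l
    rcases mul_eq_zero.1 key with h1 | h1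
    · exact absurd h1 hD.ne'
    · simpa using h1

/-- Barycentric coordinates of the contact points of body `1`. -/
noncomputable def beta64 (j : Fin 6) : (Fin 4 → ℝ) →ᵃ[ℝ] ℝ :=
  (1 / 15617 : ℝ) • ((linOf (B64 j)).toAffineMap + AffineMap.const ℝ (Fin 4 → ℝ) (b64 j : ℝ))

theorem beta64_apply (j : Fin 6) (v : Fin 4 → ℝ) :
    beta64 j v = (1 / 15617 : ℝ) * (linOf (B64 j) v + b64 j) := by
  simp [beta64]; ring

theorem beta64_linear (j : Fin 6) (v : Fin 4 → ℝ) :
    (beta64 j).linear v = (1 / 15617 : ℝ) * linOf (B64 j) v := by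
  simp [beta64]

theorem good64 : Good fam64 1 beta64 := by
  refine ⟨fun j hj => ?_, fun j k hj hk hjk => ?_, ?_, fun y => ?_, fun v hv => ?_,
    fun j hj => ?_⟩
  · change beta64 j (ptOf (X64 1 j)) = 1
    rw [beta64_apply, linOf_ptOf4]
    have : ((dot4 (B64 j) (X64 1 j) : ℤ) : ℝ) + b64 j = 15617 := by exact_mod_cast beq64 j hj
    rw [this]; norm_num
  · change beta64 j (ptOf (X64 1 k)) = 0
    rw [beta64_apply, linOf_ptOf4]
    have : ((dot4 (B64 j) (X64 1 k) : ℤ) : ℝ) + b64 j = 0 := by exact_mod_cast bne64 j k hj hk hjk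
    rw [this]; norm_num
  · apply AffineMap.ext
    intro v
    rw [beta64_apply, linOf_apply, Fin.sum_univ_four]
    simp [B64, b64]
  · simp only [beta64_apply, linOf_apply, Fin.sum_univ_six, Fin.sum_univ_four]
    have h : ∀ l, (B64 0 l : ℝ) + B64 1 l + B64 2 l + B64 3 l + B64 4 l + B64 5 l = 0 := by
      intro l; exact_mod_cast bsum64 l
    have h' : (b64 0 : ℝ) + b64 1 + b64 2 + b64 3 + b64 4 + b64 5 = 15617 := by
      exact_mod_cast (by decide : b64 0 + b64 1 + b64 2 + b64 3 + b64 4 + b64 5 = 15617)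
    linear_combination (1/15617) * (y 0 * h 0 + y 1 * h 1 + y 2 * h 2 + y 3 * h 3 + h')
  · have hv' : ∀ j, (B64 j 0 : ℝ) * v 0 + B64 j 1 * v 1 + B64 j 2 * v 2 + B64 j 3 * v 3 = 0 := by
      intro j
      by_cases hj : j = 1
      · subst hj; simp [B64]
      · have := hv j hj
        rw [beta64_linear, linOf_apply, Fin.sum_univ_four] at this
        linarith
    have hs : ∀ l m, (X64 1 0 l : ℝ) * B64 0 m + X64 1 1 l * B64 1 m + X64 1 2 l * B64 2 m +
        X64 1 3 l * B64 3 m + X64 1 4 l * B64 4 m + X64 1 5 l * B64 5 m =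
        if m = l then (15617 : ℝ) else 0 := by
      intro l m
      have := bspan64 l m
      split_ifs at this ⊢ <;> exact_mod_cast this
    funext l
    have key : (15617 : ℝ) * v l = 0 := by
      have e : (15617 : ℝ) * v l = (if (0:Fin 4) = l then (15617 : ℝ) else 0) * v 0 +
          (if (1:Fin 4) = l then (15617 : ℝ) else 0) * v 1 +
          (if (2:Fin 4) = l then (15617 : ℝ) else 0) * v 2 +
          (if (3:Fin 4) = l then (15617 : ℝ) else 0) * v 3 := by
        fin_cases l <;> simp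
      rw [e, ← hs l 0, ← hs l 1, ← hs l 2, ← hs l 3]
      linear_combination (X64 1 0 l : ℝ) * hv' 0 + X64 1 1 l * hv' 1 + X64 1 2 l * hv' 2 +
        X64 1 3 l * hv' 3 + X64 1 4 l * hv' 4 + X64 1 5 l * hv' 5
    have : v l = 0 := by linarith
    simpa using this
  · obtain ⟨k, l, h1, h2, h3, h4, h5⟩ := twist64 j hj
    refine ⟨k, l, h1, h2, h3, h4, ?_⟩
    change linOf (N64 1 j) (ptOf (X64 1 k)) < linOf (N64 1 j) (ptOf (X64 1 l))
    rw [linOf_ptOf4, linOf_ptOf4]
    exact_mod_cast h5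

theorem csplit64 : CSplit fam64 := by
  refine ⟨2, 1, 5, by decide, by decide, by decide, 2, by norm_num, fun j h1 h2 h3 => ?_⟩
  change linOf (N64 2 1) (ptOf (X64 2 1)) - linOf (N64 2 1) (ptOf (X64 2 j)) =
    2 * (linOf (N64 2 5) (ptOf (X64 2 5)) - linOf (N64 2 5) (ptOf (X64 2 j)))
  rw [linOf_ptOf4, linOf_ptOf4, linOf_ptOf4, linOf_ptOf4]
  exact_mod_cast split64 j h1 h2 h3

theorem have_zero : Have 0 :=
  ⟨Fin 6, inferInstance, inferInstance, Fin 4 → ℝ, inferInstance, inferInstance, inferInstance,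
    fam64, 1, beta64, by simp, by simp, good64, csplit64⟩

/-- Families of simplices exist in every dimension `d ≥ 4` for every `n ≥ d + 2`. -/
theorem exists_HFam_high {d n : ℕ} (hd : 4 ≤ d) (hn : d + 2 ≤ n) :
    Nonempty (HFam (Fin n) (Fin (d + 1)) (EuclideanSpace ℝ (Fin d))) := by
  obtain ⟨k, rfl⟩ := Nat.exists_eq_add_of_le' hd
  exact (have_zero.all k).exists_HFam n (by omega)

end Tangle
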