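import Mathlib
import Pool.Agent.Lib_helper86.Tangle.Base64

/-! Base case: six simplices in dimension three. -/

open Module

set_option linter.unusedSectionVars false
set_option maxRecDepth 100000

namespace Tangle

/-- Separating functionals. -/
def N63 : Fin 6 → Fin 6 → Fin 3 → ℤ := ![
  ![![0, 0, 0], ![0, 0, 0], ![19, -11, -6], ![9, 27, 8], ![-14, 10, 5], ![-3, -20, -6]],
  ![![0, 0, 0], ![0, 0, 0], ![-2, 0, -27], ![4, 1, 17], ![-14, -1, -18], ![-12, -6, 7]],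
  ![![-19, 11, 6], ![2, 0, 27], ![0, 0, 0], ![0, 0, 0], ![16, -16, 15], ![11, -6, -9]],
  ![![-9, -27, -8], ![-4, -1, -17], ![0, 0, 0], ![0, 0, 0], ![8, 18, 15], ![10, 27, 1]],
  ![![14, -10, -5], ![14, 1, 18], ![-16, 16, -15], ![-8, -18, -15], ![0, 0, 0], ![0, 0, 0]],
  ![![3, 20, 6], ![12, 6, -7], ![-11, 6, 9], ![-10, -27, -1], ![0, 0, 0], ![0, 0, 0]]]

/-- Contact points. -/
def X63 : Fin 6 → Fin 6 → Fin 3 → ℤ := ![
  ![![0, 0, 0], ![0, 0, 0], ![-10, -7, -14], ![-7, -15, 13], ![-8, -16, 17], ![-13, -3, -30]],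
  ![![0, 0, 0], ![0, 0, 0], ![16, 28, -1], ![19, -21, 6], ![6, 10, 6], ![16, -19, 4]],
  ![![-10, -7, -14], ![16, 28, -1], ![0, 0, 0], ![0, 0, 0], ![12, 22, -1], ![-8, -8, -17]],
  ![![-7, -15, 13], ![19, -21, 6], ![0, 0, 0], ![0, 0, 0], ![-9, -14, 15], ![15, -19, 7]],
  ![![-8, -16, 17], ![6, 10, 6], ![12, 22, -1], ![-9, -14, 15], ![0, 0, 0], ![0, 0, 0]],
  ![![-13, -3, -30], ![16, -19, 4], ![-8, -8, -17], ![15, -19, 7], ![0, 0, 0], ![0, 0, 0]]]

/-- Positive dependencies. -/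
def C63 : Fin 6 → Fin 6 → ℤ := ![
  ![0, 0, 167, 11, 226, 36],
  ![0, 0, 539, 857, 53, 134],
  ![292, 63, 0, 0, 35, 442],
  ![794, 639, 0, 0, 1144, 55],
  ![114, 4010, 2443, 2331, 0, 0],
  ![261, 833, 529, 496, 0, 0]]

/-- Disjointness certificates. -/
def P63 : Fin 6 → Fin 6 → ℤ := ![
  ![0, 0, 8019, 6071, 0, 0],
  ![0, 0, 0, 0, 4632, 11846],
  ![8514, 0, 0, 0, 11116, 0],
  ![0, 13025, 0, 0, 0, 3601],
  ![762, 0, 0, 439, 0, 0],
  ![537, 0, 797, 0, 0, 0]]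

/-- Coefficients expressing the unit functionals. -/
def G63 : Fin 6 → Fin 3 → Fin 6 → ℤ := ![
  ![![0, 0, -55, 5, -74, 0], ![0, 0, 157, -11, 206, 0], ![0, 0, -468, 36, -612, 0]],
  ![![0, 0, 1, -27, -27, 0], ![0, 0, 166, 342, 74, 0], ![0, 0, -10, 2, 2, 0]],
  ![![-432, 261, 0, 0, -297, 0], ![-402, 381, 0, 0, -525, 0], ![32, 128, 0, 0, 22, 0]],
  ![![-291, -261, 0, 0, -451, 0], ![76, 71, 0, 0, 121, 0], ![64, 54, 0, 0, 99, 0]],
  ![![303, 230, 175, 0, 0, 0], ![78, 290, 322, 0, 0, 0], ![-240, 64, -154, 0, 0, 0]],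
  ![![96, -144, -176, 0, 0, 0], ![-31, 93, 93, 0, 0, 0], ![138, -238, -222, 0, 0, 0]]]

/-- Denominators. -/
def D63 : Fin 6 → ℤ := ![36, 268, 3978, 55, 4662, 496]

/-- Integer dot product in dimension three. -/
def dot3 (a b : Fin 3 → ℤ) : ℤ := a 0 * b 0 + a 1 * b 1 + a 2 * b 2

/-- The octahedral contact graph. -/
def adj63 (i j : Fin 6) : Prop := i.val / 2 ≠ j.val / 2

instance : DecidableRel adj63 := fun i j => inferInstanceAs (Decidable (i.val / 2 ≠ j.val / 2))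

theorem linOf_ptOf3 (a b : Fin 3 → ℤ) : linOf a (ptOf b) = ((dot3 a b : ℤ) : ℝ) := by
  rw [linOf_apply, Fin.sum_univ_three]
  simp only [ptOf, dot3]
  push_cast
  ring

theorem skew63 : ∀ i j l, N63 j i l = - N63 i j l := by decide
theorem symm63 : ∀ i j l, X63 j i l = X63 i j l := by decide
theorem lt63 : ∀ i j k, adj63 i j → adj63 i k → j ≠ k →
    dot3 (N63 i j) (X63 i k) < dot3 (N63 i j) (X63 i j) := by decide
theorem cpos63 : ∀ i j, adj63 i j → 0 < C63 i j := by decide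
theorem czero63 : ∀ i j, ¬ adj63 i j → C63 i j = 0 := by decide
theorem csum63 : ∀ i l, C63 i 0 * N63 i 0 l + C63 i 1 * N63 i 1 l + C63 i 2 * N63 i 2 l +
    C63 i 3 * N63 i 3 l + C63 i 4 * N63 i 4 l + C63 i 5 * N63 i 5 l = 0 := by decide
theorem dpos63 : ∀ i, 0 < D63 i := by decide
theorem span63 : ∀ i l m, G63 i l 0 * N63 i 0 m + G63 i l 1 * N63 i 1 m + G63 i l 2 * N63 i 2 m +
    G63 i l 3 * N63 i 3 m + G63 i l 4 * N63 i 4 m + G63 i l 5 * N63 i 5 m =
    if m = l then D63 i else 0 := by decide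
theorem gzero63 : ∀ i l j, ¬ adj63 i j → G63 i l j = 0 := by decide
theorem pnonneg63 : ∀ i j, 0 ≤ P63 i j := by decide
theorem pzero63 : ∀ i j, ¬ adj63 i j → P63 i j = 0 := by decide
theorem ppos63 : ∀ i, ∃ k, adj63 i k ∧ 0 < P63 i k := by decide
theorem psum63 : ∀ i j l, i ≠ j → ¬ adj63 i j →
    (P63 i 0 * N63 i 0 l + P63 i 1 * N63 i 1 l + P63 i 2 * N63 i 2 l +
    P63 i 3 * N63 i 3 l + P63 i 4 * N63 i 4 l + P63 i 5 * N63 i 5 l) +
    (P63 j 0 * N63 j 0 l + P63 j 1 * N63 j 1 l + P63 j 2 * N63 j 2 l +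
    P63 j 3 * N63 j 3 l + P63 j 4 * N63 j 4 l + P63 j 5 * N63 j 5 l) = 0 := by decide
theorem pneg63 : ∀ i j, i ≠ j → ¬ adj63 i j →
    (P63 i 0 * dot3 (N63 i 0) (X63 i 0) + P63 i 1 * dot3 (N63 i 1) (X63 i 1) +
    P63 i 2 * dot3 (N63 i 2) (X63 i 2) + P63 i 3 * dot3 (N63 i 3) (X63 i 3) +
    P63 i 4 * dot3 (N63 i 4) (X63 i 4) + P63 i 5 * dot3 (N63 i 5) (X63 i 5)) +
    (P63 j 0 * dot3 (N63 j 0) (X63 j 0) + P63 j 1 * dot3 (N63 j 1) (X63 j 1) +
    P63 j 2 * dot3 (N63 j 2) (X63 j 2) + P63 j 3 * dot3 (N63 j 3) (X63 j 3) +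
    P63 j 4 * dot3 (N63 j 4) (X63 j 4) + P63 j 5 * dot3 (N63 j 5) (X63 j 5)) ≤ 0 := by decide
theorem split63 : ∀ j, adj63 4 j → j ≠ 1 → j ≠ 0 →
    dot3 (N63 4 1) (X63 4 1) - dot3 (N63 4 1) (X63 4 j) =
      3 * (dot3 (N63 4 0) (X63 4 0) - dot3 (N63 4 0) (X63 4 j)) := by decide

/-- The octahedral family of six bodies in dimension three. -/
noncomputable def fam63 : GFam (Fin 6) (Fin 3 → ℝ) where
  adj := adj63
  adj_symm := fun _ _ h => Ne.symm h
  adj_ne := fun i j h hij => h (by rw [hij])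
  n := fun i j => linOf (N63 i j)
  x := fun i j => ptOf (X63 i j)
  skew := fun i j => linOf_neg (skew63 i j)
  symm := fun i j => by funext l; simp only [ptOf, symm63 i j l]
  lt := fun i j k hij hik hjk => by
    rw [linOf_ptOf3, linOf_ptOf3]
    exact_mod_cast lt63 i j k hij hik hjk
  pos := fun i => by
    refine ⟨fun j => (C63 i j : ℝ), fun j hj => Int.cast_pos.2 (cpos63 i j hj),
      fun j hj => Int.cast_eq_zero.2 (czero63 i j hj), ?_⟩
    apply LinearMap.ext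
    intro v
    rw [LinearMap.sum_apply]
    simp only [LinearMap.smul_apply, linOf_apply, LinearMap.zero_apply,
      smul_eq_mul, Fin.sum_univ_six, Fin.sum_univ_three]
    have h : ∀ l, (C63 i 0 : ℝ) * N63 i 0 l + C63 i 1 * N63 i 1 l + C63 i 2 * N63 i 2 l +
        C63 i 3 * N63 i 3 l + C63 i 4 * N63 i 4 l + C63 i 5 * N63 i 5 l = 0 := by
      intro l; exact_mod_cast csum63 i l
    linear_combination v 0 * h 0 + v 1 * h 1 + v 2 * h 2
  span := fun i v h => by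
    have hg : ∀ j l, (G63 i l j : ℝ) * ((N63 i j 0 : ℝ) * v 0 + N63 i j 1 * v 1 +
        N63 i j 2 * v 2) = 0 := by
      intro j l
      by_cases hj : adj63 i j
      · have := h j hj
        rw [linOf_apply, Fin.sum_univ_three] at this
        rw [this, mul_zero]
      · rw [gzero63 i l j hj]; simp
    have hs : ∀ l m, (G63 i l 0 : ℝ) * N63 i 0 m + G63 i l 1 * N63 i 1 m + G63 i l 2 * N63 i 2 m +
        G63 i l 3 * N63 i 3 m + G63 i l 4 * N63 i 4 m + G63 i l 5 * N63 i 5 m =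
        if m = l then (D63 i : ℝ) else 0 := by
      intro l m
      have := span63 i l m
      split_ifs at this ⊢ <;> exact_mod_cast this
    funext l
    have hD : (0:ℝ) < D63 i := by exact_mod_cast dpos63 i
    have key : (D63 i : ℝ) * v l = 0 := by
      have e : (D63 i : ℝ) * v l = (if (0:Fin 3) = l then (D63 i : ℝ) else 0) * v 0 +
          (if (1:Fin 3) = l then (D63 i : ℝ) else 0) * v 1 +
          (if (2:Fin 3) = l then (D63 i : ℝ) else 0) * v 2 := by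
        fin_cases l <;> simp
      rw [e, ← hs l 0, ← hs l 1, ← hs l 2]
      linear_combination hg 0 l + hg 1 l + hg 2 l + hg 3 l + hg 4 l + hg 5 l
    rcases mul_eq_zero.1 key with h1 | h1
    · exact absurd h1 hD.ne'
    · simpa using h1
  disj := fun i j hij hadj y hi hj => by
    set f : Fin 6 → Fin 6 → ℝ := fun i k => (P63 i k : ℝ) *
      (((N63 i k 0 : ℝ) * y 0 + N63 i k 1 * y 1 + N63 i k 2 * y 2) -
        (dot3 (N63 i k) (X63 i k) : ℝ)) with hf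
    have hneg : ∀ a, (∀ k, adj63 a k → linOf (N63 a k) y < linOf (N63 a k) (ptOf (X63 a k))) →
        (∀ k, f a k ≤ 0) ∧ ∃ k, f a k < 0 := by
      intro a ha
      have h1 : ∀ k, adj63 a k → ((N63 a k 0 : ℝ) * y 0 + N63 a k 1 * y 1 + N63 a k 2 * y 2) -
        (dot3 (N63 a k) (X63 a k) : ℝ) < 0 := by
        intro k hk
        have := ha k hk
        rw [linOf_ptOf3, linOf_apply, Fin.sum_univ_three] at this
        linarith
      constructor
      · intro k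
        by_cases hk : adj63 a k
        · have h2 : (0:ℝ) ≤ P63 a k := by exact_mod_cast pnonneg63 a k
          exact mul_nonpos_of_nonneg_of_nonpos h2 (h1 k hk).le
        · simp only [hf, pzero63 a k hk]; simp
      · obtain ⟨k, hk, hp⟩ := ppos63 a
        have h2 : (0:ℝ) < P63 a k := by exact_mod_cast hp
        exact ⟨k, mul_neg_of_pos_of_neg h2 (h1 k hk)⟩
    have h1 := hneg i hi
    have h2 := hneg j hj
    have hsum1 : ∑ k, f i k < 0 := by
      obtain ⟨k, hk⟩ := h1.2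
      exact Finset.sum_neg' (fun k _ => h1.1 k) ⟨k, Finset.mem_univ k, hk⟩
    have hsum2 : ∑ k, f j k ≤ 0 := Finset.sum_nonpos (fun k _ => h2.1 k)
    have hps : ∀ l, ((P63 i 0 : ℝ) * N63 i 0 l + P63 i 1 * N63 i 1 l + P63 i 2 * N63 i 2 l +
        P63 i 3 * N63 i 3 l + P63 i 4 * N63 i 4 l + P63 i 5 * N63 i 5 l) +
        (P63 j 0 * N63 j 0 l + P63 j 1 * N63 j 1 l + P63 j 2 * N63 j 2 l +
        P63 j 3 * N63 j 3 l + P63 j 4 * N63 j 4 l + P63 j 5 * N63 j 5 l) = 0 := by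
      intro l; exact_mod_cast psum63 i j l hij hadj
    have hpn : ((P63 i 0 : ℝ) * dot3 (N63 i 0) (X63 i 0) + P63 i 1 * dot3 (N63 i 1) (X63 i 1) +
        P63 i 2 * dot3 (N63 i 2) (X63 i 2) + P63 i 3 * dot3 (N63 i 3) (X63 i 3) +
        P63 i 4 * dot3 (N63 i 4) (X63 i 4) + P63 i 5 * dot3 (N63 i 5) (X63 i 5)) +
        (P63 j 0 * dot3 (N63 j 0) (X63 j 0) + P63 j 1 * dot3 (N63 j 1) (X63 j 1) +
        P63 j 2 * dot3 (N63 j 2) (X63 j 2) + P63 j 3 * dot3 (N63 j 3) (X63 j 3) +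
        P63 j 4 * dot3 (N63 j 4) (X63 j 4) + P63 j 5 * dot3 (N63 j 5) (X63 j 5)) ≤ 0 := by
      exact_mod_cast pneg63 i j hij hadj
    rw [Fin.sum_univ_six] at hsum1 hsum2
    simp only [hf] at hsum1 hsum2
    have e0 := congrArg (fun t => t * y 0) (hps 0)
    have e1 := congrArg (fun t => t * y 1) (hps 1)
    have e2 := congrArg (fun t => t * y 2) (hps 2)
    linarith

theorem gsplit63 : GSplit fam63 := by
  refine ⟨4, 1, 0, (by decide : adj63 4 1), (by decide : adj63 4 0), by decide, 3, by norm_num,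
    fun j h1 h2 h3 => ?_⟩
  change linOf (N63 4 1) (ptOf (X63 4 1)) - linOf (N63 4 1) (ptOf (X63 4 j)) =
    3 * (linOf (N63 4 0) (ptOf (X63 4 0)) - linOf (N63 4 0) (ptOf (X63 4 j)))
  rw [linOf_ptOf3, linOf_ptOf3, linOf_ptOf3, linOf_ptOf3]
  exact_mod_cast split63 j h1 h2 h3

/-- Families of simplices exist in dimension three for every `n ≥ 6`. -/
theorem exists_HFam_three {n : ℕ} (hn : 6 ≤ n) :
    Nonempty (HFam (Fin n) (Fin (3 + 1)) (EuclideanSpace ℝ (Fin 3))) := by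
  have e : ∀ i : Fin 6, Nonempty (Fin (3 + 1) ≃ {j // adj63 i j}) := by
    intro i
    have h1 : Fintype.card {j // adj63 i j} = 3 + 1 := by
      revert i; decide
    exact ⟨(Fintype.equivFinOfCardEq h1).symm⟩
  exact exists_of_GFam fam63 gsplit63 (N := 6) (d := 3) (by simp) (by simp) le_rfl
    (fun i => (e i).some) n hn

end Tangle
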