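import Mathlib

/-!
# Tangled families of simplices: definitions

A `d`-simplex in `ℝ^d` is Mathlib's `Affine.Simplex ℝ (EuclideanSpace ℝ (Fin d)) d`, that is, a
family of `d + 1` affinely independent points (its vertices).
-/

open MeasureTheory

namespace Tangle

/-- The solid simplex: the convex hull of its `d + 1` vertices. -/
def solid {d : ℕ} (s : Affine.Simplex ℝ (EuclideanSpace ℝ (Fin d)) d) :
    Set (EuclideanSpace ℝ (Fin d)) :=
  convexHull ℝ (Set.range s.points)

/-- The facet opposite to the vertex `k`: the convex hull of the other `d` vertices. -/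
def facet {d : ℕ} (s : Affine.Simplex ℝ (EuclideanSpace ℝ (Fin d)) d) (k : Fin (d + 1)) :
    Set (EuclideanSpace ℝ (Fin d)) :=
  convexHull ℝ (s.points '' {k}ᶜ)

/-- Face-to-face contact of two sets in `ℝ^d`: their intersection has positive
`(d - 1)`-dimensional (Hausdorff) measure. -/
def FaceContact {d : ℕ} (F G : Set (EuclideanSpace ℝ (Fin d))) : Prop :=
  0 < (Measure.hausdorffMeasure ((d : ℝ) - 1) : Measure (EuclideanSpace ℝ (Fin d))) (F ∩ G)

/-- A family of `n` `d`-simplices in `ℝ^d` is tangled if the interiors are pairwise disjoint and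
each facet of each `S i` is in face-to-face contact with at least one facet of some `S j`,
`j ≠ i`. -/
structure Tangled {n d : ℕ} (S : Fin n → Affine.Simplex ℝ (EuclideanSpace ℝ (Fin d)) d) : Prop where
  nonoverlapping : ∀ i j, i ≠ j → Disjoint (interior (solid (S i))) (interior (solid (S j)))
  contact : ∀ (i : Fin n) (k : Fin (d + 1)), ∃ j, j ≠ i ∧ ∃ l : Fin (d + 1),
    FaceContact (facet (S i) k) (facet (S j) l)

end Tangle
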