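import Mathlib
import Pool.Agent.Lib_helper86.Tangle.Defs
import Pool.Agent.Lib_helper86.Tangle.HFam

/-! From tangled families to barycentric families and back. -/

open MeasureTheory Module Filter Topology
open scoped ENNReal NNReal

set_option linter.unusedSectionVars false

namespace Tangle

/-- Hausdorff measure of codimension two flats vanishes in dimension `d - 1`. -/
theorem hausdorff_two_eq_zero {d : ℕ} (hd : 1 ≤ d)
    (f g : EuclideanSpace ℝ (Fin d) →ᵃ[ℝ] ℝ) (w : EuclideanSpace ℝ (Fin d)) (hw : f w ≠ 0)
    (v : EuclideanSpace ℝ (Fin d)) (hfv : f v = 0) (hgv : g v ≠ 0) :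
    (Measure.hausdorffMeasure ((d : ℝ) - 1) : Measure (EuclideanSpace ℝ (Fin d)))
      {x | f x = 0 ∧ g x = 0} = 0 := by
  set s : Set (EuclideanSpace ℝ (Fin d)) := {x | f x = 0 ∧ g x = 0} with hs
  rcases s.eq_empty_or_nonempty with h | hne
  · rw [h]; simp
  · have hconv : Convex ℝ s := by
      intro x hx y hy a b ha hb hab
      have hval : ∀ (F : EuclideanSpace ℝ (Fin d) →ᵃ[ℝ] ℝ), F (a • x + b • y) = a * F x + b * F y := by
        intro F
        have : a • x + b • y = AffineMap.lineMap x y b := by
          rw [AffineMap.lineMap_apply_module]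
          have : a = 1 - b := by linarith
          rw [this]
        rw [this, AffineMap.apply_lineMap, AffineMap.lineMap_apply_ring]
        have : a = 1 - b := by linarith
        rw [this]
      refine ⟨?_, ?_⟩
      · rw [hval, hx.1, hy.1]; ring
      · rw [hval, hx.2, hy.2]; ring
    obtain ⟨x0, hx0⟩ := hne
    -- the direction space
    have hspan : vectorSpan ℝ s ≤ LinearMap.ker f.linear ⊓ LinearMap.ker g.linear := by
      rw [vectorSpan_def, Submodule.span_le]
      rintro _ ⟨x, hx, y, hy, rfl⟩
      simp only [SetLike.mem_coe, Submodule.mem_inf, LinearMap.mem_ker]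
      constructor
      · rw [AffineMap.linearMap_vsub]; simp [hx.1, hy.1]
      · rw [AffineMap.linearMap_vsub]; simp [hx.2, hy.2]
    have hf0 : f.linear ≠ 0 := by
      intro h
      have : f w - f v = 0 := by
        have := AffineMap.linearMap_vsub f w v
        rw [h] at this
        simpa using this.symm
      rw [hfv] at this
      exact hw (by linarith)
    have hlt : LinearMap.ker f.linear ⊓ LinearMap.ker g.linear < LinearMap.ker f.linear := by
      refine lt_of_le_of_ne inf_le_left (fun h => ?_)
      have hmem : v - x0 ∈ LinearMap.ker f.linear := by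
        rw [LinearMap.mem_ker]
        have := AffineMap.linearMap_vsub f v x0
        simp only [vsub_eq_sub] at this
        rw [this, hfv, hx0.1]; simp
      rw [← h] at hmem
      have h2 := (Submodule.mem_inf.1 hmem).2
      rw [LinearMap.mem_ker] at h2
      have := AffineMap.linearMap_vsub g v x0
      simp only [vsub_eq_sub] at this
      rw [this, hx0.2] at h2
      exact hgv (by simpa using h2)
    have hker : finrank ℝ (LinearMap.ker f.linear) = d - 1 := by
      have h1 := LinearMap.finrank_range_add_finrank_ker f.linear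
      have h2 : finrank ℝ (LinearMap.range f.linear) = 1 := by
        rw [LinearMap.range_eq_top.2 (LinearMap.surjective hf0)]
        simp
      rw [h2, finrank_euclideanSpace, Fintype.card_fin] at h1
      omega
    have hfin : finrank ℝ (vectorSpan ℝ s) < d - 1 := by
      calc finrank ℝ (vectorSpan ℝ s) ≤ _ := Submodule.finrank_mono hspan
        _ < finrank ℝ (LinearMap.ker f.linear) := Submodule.finrank_lt_finrank_of_lt hlt
        _ = d - 1 := hker
    have hdim : dimH s < ((d - 1 : ℕ) : ℝ≥0) := by
      rw [Real.Convex.dimH_eq_finrank_vectorSpan hconv ⟨x0, hx0⟩]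
      exact_mod_cast hfin
    have := hausdorffMeasure_of_dimH_lt hdim
    have e : (((d - 1 : ℕ) : ℝ≥0) : ℝ) = (d : ℝ) - 1 := by
      rw [NNReal.coe_natCast, Nat.cast_sub hd]
      simp
    rw [e] at this
    exact this

/-- A relatively open piece of a hyperplane has positive `(d-1)`-dimensional measure. -/
theorem hausdorff_pos {d : ℕ} (f : EuclideanSpace ℝ (Fin d) →ᵃ[ℝ] ℝ)
    (U : Set (EuclideanSpace ℝ (Fin d))) (hU : IsOpen U) (x0 : EuclideanSpace ℝ (Fin d))
    (hx0 : f x0 = 0) (hxU : x0 ∈ U) (w : EuclideanSpace ℝ (Fin d)) (hw : f w ≠ 0) :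
    0 < (Measure.hausdorffMeasure ((d : ℝ) - 1) : Measure (EuclideanSpace ℝ (Fin d)))
      {x | f x = 0 ∧ x ∈ U} := by
  classical
  have hf0 : f.linear ≠ 0 := by
    intro h
    have : f w - f x0 = 0 := by
      have := AffineMap.linearMap_vsub f w x0
      rw [h] at this
      simpa using this.symm
    rw [hx0] at this
    exact hw (by linarith)
  -- a coordinate on which `f` depends
  obtain ⟨i0, hi0⟩ : ∃ i, f.linear (EuclideanSpace.single i (1:ℝ)) ≠ 0 := by
    by_contra hcon
    push Not at hcon
    apply hf0
    apply (EuclideanSpace.basisFun (Fin d) ℝ).toBasis.ext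
    intro i
    simpa using hcon i
  set φ := f.linear with hφ
  set c := φ (EuclideanSpace.single i0 (1:ℝ)) with hc
  -- projection forgetting coordinate i0
  let J := {i : Fin d // i ≠ i0}
  let π : EuclideanSpace ℝ (Fin d) → (J → ℝ) := fun x j => x j.1
  have hπ : LipschitzWith 1 π := by
    have h1 : LipschitzWith 1 (fun x : EuclideanSpace ℝ (Fin d) => (WithLp.ofLp x : Fin d → ℝ)) :=
      PiLp.lipschitzWith_ofLp 2 _
    have h2 : LipschitzWith 1 (fun (x : Fin d → ℝ) (j : J) => x j.1) := by
      apply LipschitzWith.of_edist_le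
      intro x y
      rw [edist_pi_def, edist_pi_def]
      apply Finset.sup_le
      intro j _
      exact Finset.le_sup (f := fun i => edist (x i) (y i)) (Finset.mem_univ j.1)
    have h3 := h2.comp h1
    rw [one_mul] at h3
    exact h3
  -- the section
  let ext : (J → ℝ) → EuclideanSpace ℝ (Fin d) := fun y =>
    WithLp.toLp 2 (fun i => if h : i ≠ i0 then y ⟨i, h⟩ else 0)
  let g : (J → ℝ) → EuclideanSpace ℝ (Fin d) := fun y =>
    ext y - (f (ext y) / c) • EuclideanSpace.single i0 (1:ℝ)
  have hcontf : Continuous f := f.continuous_of_finiteDimensional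
  have hext : Continuous ext := by
    apply (PiLp.continuous_toLp 2 _).comp
    apply continuous_pi
    intro i
    by_cases h : i ≠ i0
    · simp only [h, not_false_eq_true, dite_true, ne_eq]
      exact continuous_apply _
    · simp only [h, dite_false]
      exact continuous_const
  have hgc : Continuous g := by
    exact hext.sub (((hcontf.comp hext).div_const c).smul continuous_const)
  have hfg : ∀ y, f (g y) = 0 := by
    intro y
    have h1 : f (g y) = f (ext y) - (f (ext y) / c) * c := by
      have := AffineMap.map_vadd f (ext y) (-((f (ext y) / c) • EuclideanSpace.single i0 (1:ℝ)))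
      simp only [vadd_eq_add] at this
      have e : g y = -((f (ext y) / c) • EuclideanSpace.single i0 (1:ℝ)) + ext y := by
        simp only [g]; abel
      rw [e, this, ← hφ, map_neg, map_smul]
      simp only [smul_eq_mul, ← hc]
      ring
    rw [h1]
    field_simp
    ring
  have hπg : ∀ y, π (g y) = y := by
    intro y
    funext j
    simp only [π, g, ext]
    have hj := j.2
    simp [hj]
  have hgπ : g (π x0) = x0 := by
    have e1 : x0 = ext (π x0) + (x0 i0) • EuclideanSpace.single i0 (1:ℝ) := by
      ext i
      simp only [ext, π]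
      by_cases h : i = i0
      · subst h; simp
      · simp [h]
    have e2 : f x0 = f (ext (π x0)) + (x0 i0) * c := by
      have := AffineMap.map_vadd f (ext (π x0)) ((x0 i0) • EuclideanSpace.single i0 (1:ℝ))
      simp only [vadd_eq_add] at this
      rw [add_comm] at this
      rw [← e1] at this
      rw [this, ← hφ, map_smul]
      simp only [smul_eq_mul, ← hc]
      ring
    rw [hx0] at e2
    have e3 : f (ext (π x0)) / c = - x0 i0 := by
      rw [div_eq_iff hi0]; linarith
    simp only [g]
    rw [e3]
    conv_rhs => rw [e1]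
    simp [sub_eq_add_neg]
  -- the open set
  let V : Set (J → ℝ) := g ⁻¹' U
  have hV : IsOpen V := hU.preimage hgc
  have hVne : V.Nonempty := ⟨π x0, by change g (π x0) ∈ U; rw [hgπ]; exact hxU⟩
  have hVsub : V ⊆ π '' {x | f x = 0 ∧ x ∈ U} := by
    intro y hy
    exact ⟨g y, ⟨hfg y, hy⟩, hπg y⟩
  have hcard : ((Fintype.card J : ℕ) : ℝ) = (d : ℝ) - 1 := by
    have : Fintype.card J = d - 1 := by
      simp only [J]
      rw [Fintype.card_subtype_compl]
      simp
    rw [this, Nat.cast_sub (by have := i0.2; omega)]
    simp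
  have hpos : 0 < (Measure.hausdorffMeasure ((d : ℝ) - 1) : Measure (J → ℝ)) V := by
    rw [← hcard, hausdorffMeasure_pi_real]
    exact hV.measure_pos _ hVne
  have hd0 : (0:ℝ) ≤ (d : ℝ) - 1 := by
    rw [← hcard]; positivity
  have hle := hπ.hausdorffMeasure_image_le hd0 {x | f x = 0 ∧ x ∈ U}
  have h1 : (Measure.hausdorffMeasure ((d : ℝ) - 1) : Measure (J → ℝ)) V ≤
      (Measure.hausdorffMeasure ((d : ℝ) - 1) : Measure (EuclideanSpace ℝ (Fin d)))
      {x | f x = 0 ∧ x ∈ U} := by
    calc _ ≤ _ := measure_mono hVsub
      _ ≤ _ := hle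
      _ = _ := by simp
  exact lt_of_lt_of_le hpos h1

end Tangle
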