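import Mathlib
import Pool.Agent.Lib_helper86.Tangle.Bridge

/-! The equivalence between tangled families and barycentric families. -/

open MeasureTheory Module Filter Topology
open scoped ENNReal NNReal

set_option linter.unusedSectionVars false

namespace Tangle

variable {d : ℕ}

/-- The affine basis of a full-dimensional simplex. -/
noncomputable def basisOf (s : Affine.Simplex ℝ (EuclideanSpace ℝ (Fin d)) d) :
    AffineBasis (Fin (d + 1)) ℝ (EuclideanSpace ℝ (Fin d)) :=
  ⟨s.points, s.independent, s.span_eq_top (by simp)⟩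

theorem basisOf_apply (s : Affine.Simplex ℝ (EuclideanSpace ℝ (Fin d)) d) (k : Fin (d + 1)) :
    basisOf s k = s.points k := rfl

theorem isBary_basisOf (s : Affine.Simplex ℝ (EuclideanSpace ℝ (Fin d)) d) :
    IsBary (fun k => (basisOf s).coord k) := by
  refine ⟨fun x => (basisOf s).sum_coord_apply_eq_one x, fun x y h => (basisOf s).ext_elem h,
    fun t ht => ?_⟩
  refine ⟨Finset.univ.affineCombination ℝ (basisOf s) t, fun k => ?_⟩
  exact (basisOf s).coord_apply_combination_of_mem (Finset.mem_univ k) ht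

theorem solid_eq (s : Affine.Simplex ℝ (EuclideanSpace ℝ (Fin d)) d) :
    interior (solid s) = {x | ∀ k, 0 < (basisOf s).coord k x} :=
  (basisOf s).interior_convexHull

theorem facet_subset (s : Affine.Simplex ℝ (EuclideanSpace ℝ (Fin d)) d) (k : Fin (d + 1)) :
    facet s k ⊆ {x | (basisOf s).coord k x = 0 ∧ ∀ l, 0 ≤ (basisOf s).coord l x} := by
  apply convexHull_min
  · rintro _ ⟨l, hl, rfl⟩
    rw [← basisOf_apply]
    refine ⟨?_, fun m => ?_⟩
    · exact (basisOf s).coord_apply_ne (fun h => hl (by simp [h]))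
    · rw [AffineBasis.coord_apply]; split_ifs <;> norm_num
  · intro x hx y hy a b ha hb hab
    have hval : ∀ (F : EuclideanSpace ℝ (Fin d) →ᵃ[ℝ] ℝ), F (a • x + b • y) = a * F x + b * F y := by
      intro F
      have e1 : a = 1 - b := by linarith
      have : a • x + b • y = AffineMap.lineMap x y b := by
        rw [AffineMap.lineMap_apply_module, e1]
      rw [this, AffineMap.apply_lineMap, AffineMap.lineMap_apply_ring, e1]
    refine ⟨?_, fun l => ?_⟩
    · rw [hval, hx.1, hy.1]; ring
    · rw [hval]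
      have := hx.2 l
      have := hy.2 l
      positivity

theorem subset_facet (hd : 1 ≤ d) (s : Affine.Simplex ℝ (EuclideanSpace ℝ (Fin d)) d)
    (k : Fin (d + 1)) :
    {x | (basisOf s).coord k x = 0 ∧ ∀ l, 0 ≤ (basisOf s).coord l x} ⊆ facet s k := by
  rintro x ⟨hk, hx⟩
  have hsum := (basisOf s).linear_combination_coord_eq_self x
  -- choose another index
  have : Nontrivial (Fin (d + 1)) := by
    apply Fin.nontrivial_iff_two_le.2; omega
  obtain ⟨k', hk'⟩ := exists_ne k
  apply mem_convexHull_of_exists_fintype (fun l => (basisOf s).coord l x)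
    (fun l => if l = k then s.points k' else s.points l) hx ((basisOf s).sum_coord_apply_eq_one x)
  · intro l
    by_cases h : l = k
    · simp only [h, if_true]; exact ⟨k', by simpa using hk', rfl⟩
    · simp only [h, if_false]; exact ⟨l, by simpa using h, rfl⟩
  · conv_rhs => rw [← hsum]
    apply Finset.sum_congr rfl
    intro l _
    by_cases h : l = k
    · subst h; simp [hk]
    · simp [h, basisOf_apply]

/-- Every barycentric system comes from a simplex. -/
theorem exists_simplex (b : Fin (d + 1) → (EuclideanSpace ℝ (Fin d) →ᵃ[ℝ] ℝ)) (hb : IsBary b) :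
    ∃ s : Affine.Simplex ℝ (EuclideanSpace ℝ (Fin d)) d, ∀ k, (basisOf s).coord k = b k := by
  choose v hv hv' using hb.vertex
  have hlin : ∀ (f : EuclideanSpace ℝ (Fin d) →ᵃ[ℝ] ℝ) x, f.linear x = f x - f 0 := by
    intro f x
    have := AffineMap.linearMap_vsub f x 0
    simpa using this
  have hind : AffineIndependent ℝ v := by
    rw [affineIndependent_iff]
    intro s w hw hws j hj
    have h1 : (b j).linear (∑ e ∈ s, w e • v e) = 0 := by rw [hws]; simp
    rw [map_sum] at h1
    simp_rw [map_smul, smul_eq_mul, hlin] at h1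
    have h2 : ∑ e ∈ s, w e * (b j (v e) - b j 0) = (∑ e ∈ s, w e * b j (v e)) - (∑ e ∈ s, w e) * b j 0 := by
      rw [Finset.sum_mul, ← Finset.sum_sub_distrib]
      exact Finset.sum_congr rfl (fun e _ => by ring)
    rw [h2, hw, zero_mul, sub_zero] at h1
    rw [Finset.sum_eq_single j] at h1
    · rw [hv j] at h1; simpa using h1
    · intro e _ he
      rw [hv' e j (Ne.symm he)]; ring
    · intro h; exact absurd hj h
  let s : Affine.Simplex ℝ (EuclideanSpace ℝ (Fin d)) d := ⟨v, hind⟩
  refine ⟨s, fun k => ?_⟩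
  apply AffineMap.ext_on (s := Set.range s.points) (s.span_eq_top (by simp))
  rintro _ ⟨l, rfl⟩
  rw [← basisOf_apply, AffineBasis.coord_apply]
  by_cases h : k = l
  · subst h; simp only [if_true]; exact (hv k).symm
  · simp only [h, if_false]; exact (hv' l k h).symm

theorem tangled_of_HFam {n : ℕ} (hd : 1 ≤ d) (F : HFam (Fin n) (Fin (d + 1)) (EuclideanSpace ℝ (Fin d))) :
    ∃ S : Fin n → Affine.Simplex ℝ (EuclideanSpace ℝ (Fin d)) d, Tangled S := by
  choose S hS using fun i => exists_simplex (F.a i) (F.bary i)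
  refine ⟨S, ⟨fun i j hij => ?_, fun i k => ?_⟩⟩
  · rw [Set.disjoint_left]
    intro x hx hx'
    rw [solid_eq] at hx hx'
    exact F.disj i j hij x (fun k => by rw [← hS]; exact hx k) (fun k => by rw [← hS]; exact hx' k)
  · obtain ⟨j, l, x, hj, ⟨c, hc, hcy⟩, h0, h1, h2⟩ := F.contact i k
    refine ⟨j, hj, l, ?_⟩
    -- the open set
    let U : Set (EuclideanSpace ℝ (Fin d)) := {y | (∀ k', k' ≠ k → 0 < F.a i k' y) ∧
      (∀ l', l' ≠ l → 0 < F.a j l' y)}
    have hcont : ∀ f : EuclideanSpace ℝ (Fin d) →ᵃ[ℝ] ℝ, Continuous f := fun f =>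
      f.continuous_of_finiteDimensional
    have hU : IsOpen U := by
      have e : U = (⋂ k', {y | k' ≠ k → 0 < F.a i k' y}) ∩ (⋂ l', {y | l' ≠ l → 0 < F.a j l' y}) := by
        ext y; simp [U]
      rw [e]
      apply IsOpen.inter
      · apply isOpen_iInter_of_finite
        intro k'
        by_cases h : k' = k
        · simp [h]
        · simp only [ne_eq, h, not_false_eq_true, true_implies]
          exact isOpen_lt continuous_const (hcont _)
      · apply isOpen_iInter_of_finite
        intro k'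
        by_cases h : k' = l
        · simp [h]
        · simp only [ne_eq, h, not_false_eq_true, true_implies]
          exact isOpen_lt continuous_const (hcont _)
    obtain ⟨w, hw, -⟩ := (F.bary i).vertex k
    have hpos := hausdorff_pos (F.a i k) U hU x h0 ⟨h1, h2⟩ w (by rw [hw]; norm_num)
    refine lt_of_lt_of_le hpos (measure_mono ?_)
    rintro y ⟨hy0, hy1, hy2⟩
    have hjl : F.a j l y = 0 := by
      have := hcy y
      rw [hy0] at this
      have h3 : c * F.a j l y = 0 := by linarith
      rcases mul_eq_zero.1 h3 with h | h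
      · exact absurd h hc.ne'
      · exact h
    constructor
    · apply subset_facet hd
      refine ⟨by rw [hS]; exact hy0, fun l' => ?_⟩
      rw [hS]
      by_cases h : l' = k
      · subst h; exact hy0.ge
      · exact (hy1 l' h).le
    · apply subset_facet hd
      refine ⟨by rw [hS]; exact hjl, fun l' => ?_⟩
      rw [hS]
      by_cases h : l' = l
      · subst h; exact hjl.ge
      · exact (hy2 l' h).le

/-- Two barycentric systems whose facets meet in positive measure are in contact. -/
theorem con_of_faceContact (hd : 1 ≤ d) {b g : Fin (d + 1) → (EuclideanSpace ℝ (Fin d) →ᵃ[ℝ] ℝ)}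
    (hb : IsBary b) (hg : IsBary g) {k l : Fin (d + 1)}
    (hdisj : ∀ x, (∀ k, 0 < b k x) → (∀ l, 0 < g l x) → False)
    (hpos : 0 < (Measure.hausdorffMeasure ((d : ℝ) - 1) : Measure (EuclideanSpace ℝ (Fin d)))
      {x | (b k x = 0 ∧ ∀ k', 0 ≤ b k' x) ∧ (g l x = 0 ∧ ∀ l', 0 ≤ g l' x)}) :
    ∃ x, Con b k g l x := by
  set μ := (Measure.hausdorffMeasure ((d : ℝ) - 1) : Measure (EuclideanSpace ℝ (Fin d))) with hμ
  set T := {x | (b k x = 0 ∧ ∀ k', 0 ≤ b k' x) ∧ (g l x = 0 ∧ ∀ l', 0 ≤ g l' x)} with hT
  obtain ⟨vb, hvb, hvb'⟩ := hb.vertex k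
  obtain ⟨vg, hvg, hvg'⟩ := hg.vertex l
  -- the bad sets are null
  have nb : ∀ k', k' ≠ k → μ {x | b k x = 0 ∧ b k' x = 0} = 0 := by
    intro k' hk'
    obtain ⟨v, hv, hv'⟩ := hb.vertex k'
    exact hausdorff_two_eq_zero hd (b k) (b k') vb (by rw [hvb]; norm_num) v
      (hv' k (Ne.symm hk')) (by rw [hv]; norm_num)
  have ng : ∀ l', l' ≠ l → μ {x | g l x = 0 ∧ g l' x = 0} = 0 := by
    intro l' hl'
    obtain ⟨v, hv, hv'⟩ := hg.vertex l'
    exact hausdorff_two_eq_zero hd (g l) (g l') vg (by rw [hvg]; norm_num) v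
      (hv' l (Ne.symm hl')) (by rw [hv]; norm_num)
  -- the good part has positive measure, in particular is nonempty
  set R := {x | x ∈ T ∧ (∀ k', k' ≠ k → 0 < b k' x) ∧ (∀ l', l' ≠ l → 0 < g l' x)} with hR
  have hRpos : 0 < μ R := by
    by_contra hcon
    have hR0 : μ R = 0 := by simpa using hcon
    have hsub : T ⊆ R ∪ ((⋃ k' : {k' : Fin (d+1) // k' ≠ k}, {x | b k x = 0 ∧ b k' x = 0}) ∪
        (⋃ l' : {l' : Fin (d+1) // l' ≠ l}, {x | g l x = 0 ∧ g l' x = 0})) := by
      intro x hx
      by_cases h1 : ∀ k', k' ≠ k → 0 < b k' x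
      · by_cases h2 : ∀ l', l' ≠ l → 0 < g l' x
        · exact Or.inl ⟨hx, h1, h2⟩
        · push Not at h2
          obtain ⟨l', hl', hle⟩ := h2
          right; right
          rw [Set.mem_iUnion]
          exact ⟨⟨l', hl'⟩, hx.2.1, le_antisymm hle (hx.2.2 l')⟩
      · push Not at h1
        obtain ⟨k', hk', hle⟩ := h1
        right; left
        rw [Set.mem_iUnion]
        exact ⟨⟨k', hk'⟩, hx.1.1, le_antisymm hle (hx.1.2 k')⟩
    have : μ T = 0 := by
      apply measure_mono_null hsub
      rw [measure_union_null_iff, measure_union_null_iff]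
      refine ⟨hR0, ?_, ?_⟩
      · rw [measure_iUnion_null_iff]; exact fun k' => nb k'.1 k'.2
      · rw [measure_iUnion_null_iff]; exact fun l' => ng l'.1 l'.2
    exact hpos.ne' this
  obtain ⟨x, hxT, hx1, hx2⟩ : R.Nonempty := by
    rw [Set.nonempty_iff_ne_empty]
    intro h
    rw [h] at hRpos
    simp at hRpos
  have hlin : ∀ (f : EuclideanSpace ℝ (Fin d) →ᵃ[ℝ] ℝ) y, f.linear (y - x) = f y - f x := by
    intro f y
    have := AffineMap.linearMap_vsub f y x
    simpa using this
  -- the hyperplanes agree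
  have hker : ∀ v, b k v = 0 → g l v = 0 := by
    intro v hv
    by_contra hne
    have h0 := hausdorff_two_eq_zero hd (b k) (g l) vb (by rw [hvb]; norm_num) v hv hne
    have hsub : T ⊆ {x | b k x = 0 ∧ g l x = 0} := fun y hy => ⟨hy.1.1, hy.2.1⟩
    exact hpos.ne' (measure_mono_null hsub h0)
  have hbx : b k x = 0 := hxT.1.1
  have hgx : g l x = 0 := hxT.2.1
  -- value of g l in terms of b k
  have hprop : ∀ y, g l y = g l vb * b k y := by
    intro y
    -- y - (b k y) • (vb - x) lies in the hyperplane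
    have h1 : b k (x + (y - x - (b k y) • (vb - x))) = 0 := by
      have := AffineMap.map_vadd (b k) x (y - x - (b k y) • (vb - x))
      simp only [vadd_eq_add] at this
      rw [add_comm, this, map_sub, map_smul, hlin, hlin, hbx, hvb]
      simp
    have h2 := hker _ h1
    have := AffineMap.map_vadd (g l) x (y - x - (b k y) • (vb - x))
    simp only [vadd_eq_add] at this
    rw [add_comm] at h2
    rw [this, map_sub, map_smul, hlin, hlin, hgx] at h2
    simp only [smul_eq_mul] at h2
    linarith
  set c := g l vb with hc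
  have hc0 : c ≠ 0 := by
    intro h
    have := hprop vg
    rw [hvg, h] at this
    simp at this
  -- sign of c
  have hcneg : c < 0 := by
    by_contra hcon
    have hcpos : 0 < c := lt_of_le_of_ne (not_lt.1 hcon) (Ne.symm hc0)
    have hval : ∀ (f : EuclideanSpace ℝ (Fin d) →ᵃ[ℝ] ℝ) (ε : ℝ),
        f (AffineMap.lineMap x vb ε) = (1 - ε) * f x + ε * f vb := by
      intro f ε
      rw [AffineMap.apply_lineMap, AffineMap.lineMap_apply_ring]
    have ev1 : ∀ (f : EuclideanSpace ℝ (Fin d) →ᵃ[ℝ] ℝ), 0 < f x →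
        ∀ᶠ ε in 𝓝[>] (0:ℝ), 0 < f (AffineMap.lineMap x vb ε) := by
      intro f hf
      have hcont : Tendsto (fun ε : ℝ => (1 - ε) * f x + ε * f vb) (𝓝[>] 0)
          (𝓝 ((1 - 0) * f x + 0 * f vb)) := by
        apply Filter.Tendsto.mono_left _ nhdsWithin_le_nhds
        apply Continuous.tendsto
        fun_prop
      have hpos' : (0:ℝ) < (1 - 0) * f x + 0 * f vb := by simpa using hf
      filter_upwards [hcont.eventually (lt_mem_nhds hpos')] with ε hε
      rw [hval]; exact hε
    have hall : ∀ᶠ ε in 𝓝[>] (0:ℝ), (∀ k', 0 < b k' (AffineMap.lineMap x vb ε)) ∧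
        (∀ l', 0 < g l' (AffineMap.lineMap x vb ε)) := by
      rw [Filter.eventually_and, Filter.eventually_all, Filter.eventually_all]
      constructor
      · intro k'
        by_cases h : k' = k
        · subst h
          filter_upwards [self_mem_nhdsWithin] with ε hε
          rw [hval, hbx, hvb]
          have : (0:ℝ) < ε := hε
          linarith
        · exact ev1 _ (hx1 k' h)
      · intro l'
        by_cases h : l' = l
        · subst h
          filter_upwards [self_mem_nhdsWithin] with ε hε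
          rw [hval, hgx]
          have : (0:ℝ) < ε := hε
          have : 0 < ε * c := mul_pos this hcpos
          linarith
        · exact ev1 _ (hx2 l' h)
    obtain ⟨ε, h1, h2⟩ := hall.exists
    exact hdisj _ h1 h2
  refine ⟨x, ⟨(-c)⁻¹, by rw [inv_pos]; linarith, fun y => ?_⟩, hbx, hx1, hx2⟩
  rw [hprop y]
  field_simp

theorem HFam_of_tangled {n : ℕ} (hd : 1 ≤ d)
    (S : Fin n → Affine.Simplex ℝ (EuclideanSpace ℝ (Fin d)) d) (hS : Tangled S) :
    Nonempty (HFam (Fin n) (Fin (d + 1)) (EuclideanSpace ℝ (Fin d))) := by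
  have hdisj : ∀ i j, i ≠ j → ∀ x, (∀ k, 0 < (basisOf (S i)).coord k x) →
      (∀ l, 0 < (basisOf (S j)).coord l x) → False := by
    intro i j hij x hx hx'
    have := Set.disjoint_left.1 (hS.nonoverlapping i j hij)
    rw [solid_eq, solid_eq] at this
    exact this hx hx'
  refine ⟨⟨fun i k => (basisOf (S i)).coord k, fun i => isBary_basisOf (S i), hdisj, ?_⟩⟩
  intro i k
  obtain ⟨j, hj, l, hl⟩ := hS.contact i k
  obtain ⟨x, hx⟩ := con_of_faceContact hd (isBary_basisOf (S i)) (isBary_basisOf (S j))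
    (k := k) (l := l) (hdisj i j (Ne.symm hj)) (by
      refine lt_of_lt_of_le hl (measure_mono ?_)
      rintro x ⟨hx1, hx2⟩
      exact ⟨facet_subset _ _ hx1, facet_subset _ _ hx2⟩)
  exact ⟨j, l, x, hj, hx⟩

end Tangle
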