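import Mathlib
import Pool.Agent.Lib_helper86.Tangle.Five2

/-! Five bodies in dimension three: signs from the separation data. -/

namespace Tangle

open Filter Topology

/-- Separation data for five bodies in dimension three. -/
structure Five (n x : Fin 5 → Fin 5 → Fin 3 → ℝ) (l : Fin 5 → Fin 5 → ℝ) : Prop where
  hn : ∀ i j, n j i = - n i j
  hx : ∀ i j, x j i = x i j
  hlt : ∀ i j k, i ≠ j → i ≠ k → j ≠ k → n i j ⬝ᵥ x i k < n i j ⬝ᵥ x i j
  hl : ∀ i j, j ≠ i → 0 < l i j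
  hsum : ∀ i, ∑ j, l i j • n i j = 0

/-- The affine function of the pair `i j`. -/
def ff (n x : Fin 5 → Fin 5 → Fin 3 → ℝ) (i j : Fin 5) (y : Fin 3 → ℝ) : ℝ :=
  n i j ⬝ᵥ y - n i j ⬝ᵥ x i j

/-- The sign function on triples. -/
noncomputable def sl (l : Fin 5 → Fin 5 → ℝ) (i j q : Fin 5) : Bool :=
  decide (l i j * l j q * l q i < l i q * l q j * l j i)

section

variable {n x : Fin 5 → Fin 5 → Fin 3 → ℝ} {l : Fin 5 → Fin 5 → ℝ}

theorem Five.skew (h : Five n x l) (i j : Fin 5) (y : Fin 3 → ℝ) :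
    ff n x j i y = - ff n x i j y := by
  unfold ff
  rw [h.hn i j, h.hx i j, neg_dotProduct, neg_dotProduct]; ring

theorem Five.self (h : Five n x l) (i : Fin 5) (y : Fin 3 → ℝ) : ff n x i i y = 0 := by
  have := h.skew i i y
  linarith

theorem Five.neg (h : Five n x l) {i j k : Fin 5} (hij : i ≠ j) (hik : i ≠ k) (hjk : j ≠ k) :
    ff n x i j (x i k) < 0 := by
  have := h.hlt i j k hij hik hjk
  unfold ff; linarith

theorem ff_zero (n x : Fin 5 → Fin 5 → Fin 3 → ℝ) (i j : Fin 5) : ff n x i j (x i j) = 0 := by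
  unfold ff; ring

theorem Five.sum_eq (h : Five n x l) (i : Fin 5) (y z : Fin 3 → ℝ) :
    ∑ j, l i j * ff n x i j y = ∑ j, l i j * ff n x i j z := by
  have h1 : ∀ w : Fin 3 → ℝ, ∑ j, l i j * ff n x i j w = - ∑ j, l i j * (n i j ⬝ᵥ x i j) := by
    intro w
    have h2 : ∑ j, l i j * (n i j ⬝ᵥ w) = 0 := by
      have h3 := congrArg (fun v => v ⬝ᵥ w) (h.hsum i)
      simp only [zero_dotProduct, sum_dotProduct, smul_dotProduct, smul_eq_mul] at h3
      exact h3
    unfold ff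
    simp_rw [mul_sub]
    rw [Finset.sum_sub_distrib, h2]; ring
  rw [h1, h1]

theorem Five.sum_neg (h : Five n x l) (i : Fin 5) (y : Fin 3 → ℝ) :
    ∑ j, l i j * ff n x i j y < 0 := by
  have hk : ∀ i : Fin 5, ∃ k m : Fin 5, i ≠ k ∧ i ≠ m ∧ k ≠ m := by decide
  obtain ⟨k, m, hik, him, hkm⟩ := hk i
  rw [h.sum_eq i y (x i k)]
  have hle : ∀ j, l i j * ff n x i j (x i k) ≤ 0 := by
    intro j
    by_cases hj : j = i
    · subst hj; rw [h.self, mul_zero]
    by_cases hjk : j = k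
    · subst hjk; rw [ff_zero, mul_zero]
    · exact (mul_neg_of_pos_of_neg (h.hl i j hj) (h.neg (Ne.symm hj) hik hjk)).le
  exact Finset.sum_neg' (fun j _ => hle j) ⟨m, Finset.mem_univ m,
    mul_neg_of_pos_of_neg (h.hl i m him.symm) (h.neg him hik hkm.symm)⟩

theorem univ_five {i j q a b : Fin 5} (h1 : i ≠ j) (h2 : i ≠ q) (h3 : i ≠ a) (h4 : i ≠ b)
    (h5 : j ≠ q) (h6 : j ≠ a) (h7 : j ≠ b) (h8 : q ≠ a) (h9 : q ≠ b) (h10 : a ≠ b)
    (F : Fin 5 → ℝ) : ∑ m, F m = F i + F j + F q + F a + F b := by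
  have hu : ({i, j, q, a, b} : Finset (Fin 5)) = Finset.univ := by
    apply Finset.eq_univ_of_card
    rw [Finset.card_insert_of_notMem, Finset.card_insert_of_notMem, Finset.card_insert_of_notMem,
      Finset.card_insert_of_notMem, Finset.card_singleton, Fintype.card_fin]
    all_goals simp [h1, h2, h3, h4, h5, h6, h7, h8, h9, h10]
  rw [← hu, Finset.sum_insert, Finset.sum_insert, Finset.sum_insert, Finset.sum_insert,
    Finset.sum_singleton]
  · ring
  all_goals simp [h1, h2, h3, h4, h5, h6, h7, h8, h9, h10]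

theorem Five.pair_neg (h : Five n x l) {i j q a b : Fin 5} (h1 : i ≠ j) (h2 : i ≠ q)
    (h3 : i ≠ a) (h4 : i ≠ b) (h5 : j ≠ q) (h6 : j ≠ a) (h7 : j ≠ b) (h8 : q ≠ a) (h9 : q ≠ b)
    (h10 : a ≠ b) : l i j * ff n x i j (x a b) + l i q * ff n x i q (x a b) < 0 := by
  have hs := h.sum_neg i (x a b)
  rw [univ_five h1 h2 h3 h4 h5 h6 h7 h8 h9 h10, h.self] at hs
  have ha : 0 < ff n x i a (x a b) := by
    rw [h.skew a i]
    have := h.neg (i := a) (j := i) (k := b) h3.symm h10 h4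
    linarith
  have hb : 0 < ff n x i b (x a b) := by
    rw [h.skew b i, ← h.hx a b]
    have := h.neg (i := b) (j := i) (k := a) h4.symm h10.symm h3
    linarith
  have := mul_pos (h.hl i a h3.symm) ha
  have := mul_pos (h.hl i b h4.symm) hb
  linarith

theorem Five.key (h : Five n x l) {i j q a b : Fin 5} (h1 : i ≠ j) (h2 : i ≠ q)
    (h3 : i ≠ a) (h4 : i ≠ b) (h5 : j ≠ q) (h6 : j ≠ a) (h7 : j ≠ b) (h8 : q ≠ a) (h9 : q ≠ b)
    (h10 : a ≠ b) :
    0 < (l i q * l q j * l j i - l i j * l j q * l q i) * ff n x i j (x a b) := by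
  have A := h.pair_neg h1 h2 h3 h4 h5 h6 h7 h8 h9 h10
  have B := h.pair_neg h5 h1.symm h6 h7 h2.symm h8 h9 h3 h4 h10
  have C := h.pair_neg h2.symm h5.symm h8 h9 h1 h3 h4 h6 h7 h10
  rw [h.skew q i] at A
  rw [h.skew i j] at B
  rw [h.skew j q] at C
  set u := ff n x i j (x a b)
  set v := ff n x j q (x a b)
  set w := ff n x q i (x a b)
  have p1 := h.hl q i h2
  have p2 := h.hl i q h2.symm
  have p3 := h.hl j q h5.symm
  have p4 := h.hl q j h5
  have p5 := h.hl i j h1.symm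
  have p6 := h.hl j i h1
  have A' : (l i j * u) * (l q i * l j q) < (l i q * w) * (l q i * l j q) :=
    mul_lt_mul_of_pos_right (by linarith) (mul_pos p1 p3)
  have C' : (l q i * w) * (l i q * l j q) < (l q j * v) * (l i q * l j q) :=
    mul_lt_mul_of_pos_right (by linarith) (mul_pos p2 p3)
  have B' : (l j q * v) * (l i q * l q j) < (l j i * u) * (l i q * l q j) :=
    mul_lt_mul_of_pos_right (by linarith) (mul_pos p2 p4)
  nlinarith

theorem other_index : ∀ i j a b : Fin 5, i ≠ j → i ≠ a → i ≠ b → j ≠ a → j ≠ b → a ≠ b →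
    (i ≠ -(i + j + a + b) ∧ j ≠ -(i + j + a + b) ∧ -(i + j + a + b) ≠ a ∧
      -(i + j + a + b) ≠ b) := by decide

theorem other_index' : ∀ i j q : Fin 5, i ≠ j → i ≠ q → j ≠ q → ∃ a b : Fin 5,
    i ≠ a ∧ i ≠ b ∧ j ≠ a ∧ j ≠ b ∧ q ≠ a ∧ q ≠ b ∧ a ≠ b := by decide

theorem Five.sgn_spec (h : Five n x l) {i j a b : Fin 5} (hij : i ≠ j) (hab : a ≠ b) :
    (sgn (sl l) i j a b = 1 ∧ 0 < ff n x i j (x a b)) ∨
      (sgn (sl l) i j a b = -1 ∧ ff n x i j (x a b) < 0) ∨
      (sgn (sl l) i j a b = 0 ∧ ff n x i j (x a b) = 0) := by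
  unfold sgn
  by_cases c0 : (i = a ∧ j = b) ∨ (i = b ∧ j = a)
  · right; right
    rw [if_pos c0]
    refine ⟨rfl, ?_⟩
    rcases c0 with ⟨rfl, rfl⟩ | ⟨rfl, rfl⟩
    · exact ff_zero n x i j
    · rw [h.hx i j]; exact ff_zero n x i j
  rw [if_neg c0]
  by_cases c1 : i = a ∨ i = b
  · right; left
    rw [if_pos c1]
    refine ⟨rfl, ?_⟩
    rcases c1 with rfl | rfl
    · have hjb : j ≠ b := fun e => c0 (Or.inl ⟨rfl, e⟩)
      exact h.neg hij hab hjb
    · have hja : j ≠ a := fun e => c0 (Or.inr ⟨rfl, e⟩)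
      rw [← h.hx a i]
      exact h.neg hij hab.symm hja
  rw [if_neg c1]
  push Not at c1
  by_cases c2 : j = a ∨ j = b
  · left
    rw [if_pos c2]
    refine ⟨rfl, ?_⟩
    rw [h.skew j i]
    rcases c2 with rfl | rfl
    · have := h.neg (i := j) (j := i) (k := b) hij.symm hab c1.2
      linarith
    · have := h.neg (i := j) (j := i) (k := a) hij.symm hab.symm c1.1
      rw [← h.hx a j]
      linarith
  rw [if_neg c2]
  push Not at c2
  obtain ⟨e1, e2, e3, e4⟩ := other_index i j a b hij c1.1 c1.2 c2.1 c2.2 hab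
  have hk := h.key hij e1 c1.1 c1.2 e2 c2.1 c2.2 e3 e4 hab
  set q := -(i + j + a + b)
  by_cases hs : l i j * l j q * l q i < l i q * l q j * l j i
  · left
    have : sl l i j q = true := by simp [sl, hs]
    rw [if_pos this]
    refine ⟨rfl, ?_⟩
    have h1 : 0 ≤ l i q * l q j * l j i - l i j * l j q * l q i := by linarith
    by_contra h2
    have h3 := mul_nonpos_of_nonneg_of_nonpos h1 (not_lt.1 h2)
    linarith
  · right; left
    have : ¬ sl l i j q = true := by simp [sl, hs]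
    rw [if_neg this]
    refine ⟨rfl, ?_⟩
    have h1 : l i q * l q j * l j i - l i j * l j q * l q i ≤ 0 := by linarith
    by_contra h2
    have h3 := mul_nonpos_of_nonpos_of_nonneg h1 (not_lt.1 h2)
    linarith

theorem Five.ne_key (h : Five n x l) {i j q : Fin 5} (h1 : i ≠ j) (h2 : i ≠ q) (h3 : j ≠ q) :
    l i q * l q j * l j i ≠ l i j * l j q * l q i := by
  obtain ⟨a, b, e1, e2, e3, e4, e5, e6, e7⟩ := other_index' i j q h1 h2 h3
  have := h.key h1 h2 e1 e2 h3 e3 e4 e5 e6 e7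
  intro h'
  rw [h', sub_self, zero_mul] at this
  exact lt_irrefl _ this

theorem sl_cyc (l : Fin 5 → Fin 5 → ℝ) (i j q : Fin 5) : sl l i j q = sl l j q i := by
  unfold sl
  have e1 : l i j * l j q * l q i = l j q * l q i * l i j := by ring
  have e2 : l i q * l q j * l j i = l j i * l i q * l q j := by ring
  rw [e1, e2]

theorem Five.sl_anti (h : Five n x l) {i j q : Fin 5} (h1 : i ≠ j) (h2 : i ≠ q) (h3 : j ≠ q) :
    sl l i q j = !sl l i j q := by
  unfold sl
  have hne := h.ne_key h1 h2 h3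
  rcases lt_or_gt_of_ne hne with h4 | h4
  · have e1 : ¬ l i j * l j q * l q i < l i q * l q j * l j i := not_lt.2 h4.le
    simp only [h4, e1, decide_true, decide_false, Bool.not_false]
  · have e1 : ¬ l i q * l q j * l j i < l i j * l j q * l q i := not_lt.2 h4.le
    simp only [h4, e1, decide_true, decide_false, Bool.not_true]

theorem Five.coc (h : Five n x l) {a b c d : Fin 5} (h1 : a ≠ b) (h2 : a ≠ c) (h3 : a ≠ d)
    (h4 : b ≠ c) (h5 : b ≠ d) (h6 : c ≠ d) :
    (!((sl l a b c && sl l a c d && !sl l a b d && !sl l b c d) ||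
      (!sl l a b c && !sl l a c d && sl l a b d && sl l b c d))) = true := by
  have pp : ∀ {i j k : Fin 5}, i ≠ j → i ≠ k → j ≠ k → 0 < l i j * l j k * l k i :=
    fun hij hik hjk => mul_pos (mul_pos (h.hl _ _ hij.symm) (h.hl _ _ hjk.symm)) (h.hl _ _ hik)
  have P1 := pp h1 h2 h4
  have Q1 := pp h2 h1 h4.symm
  have P2 := pp h2 h3 h6
  have Q2 := pp h3 h2 h6.symm
  have P3 := pp h1 h3 h5
  have Q3 := pp h3 h1 h5.symm
  have P4 := pp h4 h5 h6
  have Q4 := pp h5 h4 h6.symm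
  have n1 := h.ne_key h1 h2 h4
  have n2 := h.ne_key h2 h3 h6
  have n3 := h.ne_key h1 h3 h5
  have n4 := h.ne_key h4 h5 h6
  have hid : (l a b * l b c * l c a) * (l a c * l c d * l d a) *
      ((l a d * l d b * l b a) * (l b d * l d c * l c b)) =
      (l a c * l c b * l b a) * (l a d * l d c * l c a) *
      ((l a b * l b d * l d a) * (l b c * l c d * l d b)) := by ring
  unfold sl
  set p1 := l a b * l b c * l c a
  set q1 := l a c * l c b * l b a
  set p2 := l a c * l c d * l d a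
  set q2 := l a d * l d c * l c a
  set p3 := l a b * l b d * l d a
  set q3 := l a d * l d b * l b a
  set p4 := l b c * l c d * l d b
  set q4 := l b d * l d c * l c b
  rw [Bool.not_eq_true', Bool.or_eq_false_iff]
  constructor
  · rw [Bool.eq_false_iff]
    intro hc
    simp only [Bool.and_eq_true, decide_eq_true_eq, Bool.not_eq_true', decide_eq_false_iff_not,
      not_lt] at hc
    obtain ⟨⟨⟨c1, c2⟩, c3⟩, c4⟩ := hc
    have s1 : p1 * p2 < q1 * q2 := mul_lt_mul'' c1 c2 P1.le P2.le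
    have s2 : q3 * q4 ≤ p3 * p4 := mul_le_mul c3 c4 Q4.le P3.le
    have s3 : p1 * p2 * (q3 * q4) < q1 * q2 * (p3 * p4) :=
      mul_lt_mul s1 s2 (mul_pos Q3 Q4) (mul_pos Q1 Q2).le
    linarith
  · rw [Bool.eq_false_iff]
    intro hc
    simp only [Bool.and_eq_true, decide_eq_true_eq, Bool.not_eq_true', decide_eq_false_iff_not,
      not_lt] at hc
    obtain ⟨⟨⟨c1, c2⟩, c3⟩, c4⟩ := hc
    have s1 : q1 * q2 ≤ p1 * p2 := mul_le_mul c1 c2 Q2.le P1.le
    have s2 : p3 * p4 < q3 * q4 := mul_lt_mul'' c3 c4 P3.le P4.le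
    have s3 : q1 * q2 * (p3 * p4) < p1 * p2 * (q3 * q4) :=
      mul_lt_mul' s1 s2 (mul_pos P3 P4).le (mul_pos P1 P2)
    linarith

theorem Five.perm (h : Five n x l) (π : Fin 5 → Fin 5) (hπ : Function.Injective π) :
    Five (fun i j => n (π i) (π j)) (fun i j => x (π i) (π j)) (fun i j => l (π i) (π j)) where
  hn := fun i j => h.hn _ _
  hx := fun i j => h.hx _ _
  hlt := fun i j k hij hik hjk => h.hlt _ _ _ (hπ.ne hij) (hπ.ne hik) (hπ.ne hjk)
  hl := fun i j hj => h.hl _ _ (hπ.ne hj)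
  hsum := fun i => by
    have := Equiv.sum_comp (Equiv.ofBijective π (Finite.injective_iff_bijective.1 hπ))
      (fun j => l (π i) j • n (π i) j)
    simp only [Equiv.ofBijective_apply] at this
    rw [this, h.hsum]

end

end Tangle
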