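import Mathlib
import Pool.Agent.Lib_helper86.Tangle.Five3
import Pool.Agent.Lib_helper86.Tangle.CFam

/-! Five bodies in dimension three: general position and the end of the proof. -/

namespace Tangle

open Filter Topology

/-- Triple product. -/
def det3 (u v w : Fin 3 → ℝ) : ℝ :=
  u 0 * (v 1 * w 2 - v 2 * w 1) - u 1 * (v 0 * w 2 - v 2 * w 0) + u 2 * (v 0 * w 1 - v 1 * w 0)

/-- Signed volume of four points. -/
def det4 (a b c d : Fin 3 → ℝ) : ℝ := det3 (b - a) (c - a) (d - a)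

theorem det4_id (a b c d e N : Fin 3 → ℝ) (K : ℝ) :
    det4 b c d e * (N ⬝ᵥ a + K) - det4 a c d e * (N ⬝ᵥ b + K) + det4 a b d e * (N ⬝ᵥ c + K) -
      det4 a b c e * (N ⬝ᵥ d + K) + det4 a b c d * (N ⬝ᵥ e + K) = 0 := by
  simp only [det4, det3, dotProduct, Fin.sum_univ_three, Pi.sub_apply]
  ring

/-- Moment curve. -/
def mom (u : ℝ) : Fin 3 → ℝ := ![u, u ^ 2, u ^ 3]

theorem det4_mom (a b c d : ℝ) : det4 (mom a) (mom b) (mom c) (mom d) =
    (b - a) * (c - a) * (d - a) * (c - b) * (d - b) * (d - c) := by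
  simp only [det4, det3, mom, Pi.sub_apply, Matrix.cons_val_zero, Matrix.cons_val_one,
    Matrix.cons_val]
  ring

theorem det4_expand (a b c d a' b' c' d' : Fin 3 → ℝ) : ∃ c0 c1 c2 : ℝ, ∀ t : ℝ,
    det4 (a + t • a') (b + t • b') (c + t • c') (d + t • d') =
      c0 + c1 * t + c2 * t ^ 2 + det4 a' b' c' d' * t ^ 3 := by
  refine ⟨det4 a b c d,
    det3 (b' - a') (c - a) (d - a) + det3 (b - a) (c' - a') (d - a) +
      det3 (b - a) (c - a) (d' - a'),
    det3 (b' - a') (c' - a') (d - a) + det3 (b' - a') (c - a) (d' - a') +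
      det3 (b - a) (c' - a') (d' - a'), fun t => ?_⟩
  simp only [det4, det3, Pi.sub_apply, Pi.add_apply, Pi.smul_apply, smul_eq_mul]
  ring

theorem ev_ne (c0 c1 c2 c3 : ℝ) (h : c3 ≠ 0) :
    ∀ᶠ t in 𝓝[>] (0:ℝ), c0 + c1 * t + c2 * t ^ 2 + c3 * t ^ 3 ≠ 0 := by
  classical
  set p : Polynomial ℝ := Polynomial.C c0 + Polynomial.C c1 * Polynomial.X +
    Polynomial.C c2 * Polynomial.X ^ 2 + Polynomial.C c3 * Polynomial.X ^ 3 with hp
  have hp0 : p ≠ 0 := by
    intro h0
    have : p.coeff 3 = c3 := by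
      simp [hp]
    rw [h0] at this
    exact h (by simpa using this.symm)
  have hfin : {t : ℝ | p.IsRoot t}.Finite := p.finite_setOfPred_isRoot hp0
  have hcl : IsClosed ({t : ℝ | p.IsRoot t} \ {0}) := (hfin.subset Set.sdiff_subset).isClosed
  have hmem : ({t : ℝ | p.IsRoot t} \ {0})ᶜ ∈ 𝓝 (0:ℝ) :=
    hcl.isOpen_compl.mem_nhds (by simp)
  filter_upwards [nhdsWithin_le_nhds hmem, self_mem_nhdsWithin] with t ht ht0 h0
  apply ht
  refine ⟨?_, ?_⟩
  · simp only [Set.mem_ofPred_eq, Polynomial.IsRoot.def]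
    simpa [hp] using h0
  · have : (0:ℝ) < t := ht0
    simpa using this.ne'

/-- Perturbation directions. -/
noncomputable def mdir (i j : Fin 5) : Fin 3 → ℝ := mom ((2:ℝ) ^ i.val + (2:ℝ) ^ j.val)

theorem udist : ∀ a b : Fin 10, a ≠ b → 2 ^ (pa a).val + 2 ^ (pb a).val ≠
    2 ^ (pa b).val + 2 ^ (pb b).val := by decide

theorem udist' {a b : Fin 10} (h : a < b) : ((2:ℝ) ^ (pa b).val + (2:ℝ) ^ (pb b).val) -
    ((2:ℝ) ^ (pa a).val + (2:ℝ) ^ (pb a).val) ≠ 0 := by
  have := udist b a h.ne'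
  intro h'
  apply this
  have h2 : (2:ℝ) ^ (pa b).val + (2:ℝ) ^ (pb b).val =
    (2:ℝ) ^ (pa a).val + (2:ℝ) ^ (pb a).val := by linarith
  exact_mod_cast h2

theorem Five.generic {n x : Fin 5 → Fin 5 → Fin 3 → ℝ} {l : Fin 5 → Fin 5 → ℝ}
    (h : Five n x l) : ∃ x' : Fin 5 → Fin 5 → Fin 3 → ℝ, Five n x' l ∧
      ∀ a b c d : Fin 10, a < b → b < c → c < d →
        det4 (x' (pa a) (pb a)) (x' (pa b) (pb b)) (x' (pa c) (pb c)) (x' (pa d) (pb d)) ≠ 0 := by
  have ev : ∀ᶠ t in 𝓝[>] (0:ℝ),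
      (∀ i j k : Fin 5, i ≠ j → i ≠ k → j ≠ k →
        0 < n i j ⬝ᵥ (x i j + t • mdir i j) - n i j ⬝ᵥ (x i k + t • mdir i k)) ∧
      (∀ a b c d : Fin 10, a < b → b < c → c < d →
        det4 (x (pa a) (pb a) + t • mdir (pa a) (pb a)) (x (pa b) (pb b) + t • mdir (pa b) (pb b))
          (x (pa c) (pb c) + t • mdir (pa c) (pb c)) (x (pa d) (pb d) + t • mdir (pa d) (pb d)) ≠
            0) := by
    refine Filter.Eventually.and ?_ ?_
    · simp only [Filter.eventually_all]
      intro i j k hij hik hjk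
      apply ev_pos (f := fun t : ℝ =>
        n i j ⬝ᵥ (x i j + t • mdir i j) - n i j ⬝ᵥ (x i k + t • mdir i k))
      · simp only [dotProduct_add, dotProduct_smul, smul_eq_mul]
        fun_prop
      · have := h.hlt i j k hij hik hjk
        simp only [zero_smul, add_zero]; linarith
    · simp only [Filter.eventually_all]
      intro a b c d hab hbc hcd
      obtain ⟨c0, c1, c2, he⟩ := det4_expand (x (pa a) (pb a)) (x (pa b) (pb b))
        (x (pa c) (pb c)) (x (pa d) (pb d)) (mdir (pa a) (pb a)) (mdir (pa b) (pb b))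
        (mdir (pa c) (pb c)) (mdir (pa d) (pb d))
      simp only [he]
      apply ev_ne
      unfold mdir
      rw [det4_mom]
      have hac := hab.trans hbc
      have had := hac.trans hcd
      have hbd := hbc.trans hcd
      exact mul_ne_zero (mul_ne_zero (mul_ne_zero (mul_ne_zero (mul_ne_zero (udist' hab)
        (udist' hac)) (udist' had)) (udist' hbc)) (udist' hbd)) (udist' hcd)
  obtain ⟨t, h1, h2⟩ := ev.exists
  refine ⟨fun i j => x i j + t • mdir i j, ⟨h.hn, ?_, ?_, h.hl, h.hsum⟩, h2⟩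
  · intro i j
    have : mdir j i = mdir i j := by unfold mdir; rw [add_comm]
    simp only [this, h.hx i j]
  · intro i j k hij hik hjk
    have := h1 i j k hij hik hjk
    linarith

theorem sgn_congr {s1 s2 : Fin 5 → Fin 5 → Fin 5 → Bool}
    (hs : ∀ i j q, i ≠ j → i ≠ q → j ≠ q → s1 i j q = s2 i j q) {i j a b : Fin 5}
    (hij : i ≠ j) (hab : a ≠ b) : sgn s1 i j a b = sgn s2 i j a b := by
  unfold sgn
  by_cases c0 : (i = a ∧ j = b) ∨ (i = b ∧ j = a)
  · rw [if_pos c0, if_pos c0]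
  rw [if_neg c0, if_neg c0]
  by_cases c1 : i = a ∨ i = b
  · rw [if_pos c1, if_pos c1]
  rw [if_neg c1, if_neg c1]
  by_cases c2 : j = a ∨ j = b
  · rw [if_pos c2, if_pos c2]
  rw [if_neg c2, if_neg c2]
  push Not at c1 c2
  obtain ⟨e1, e2, -, -⟩ := other_index i j a b hij c1.1 c1.2 c2.1 c2.2 hab
  rw [hs i j _ hij e1 e2]

theorem pab_ne : ∀ k < 10, pa k ≠ pb k := by decide

theorem exists_chk {c : ℕ} (hc : c < 6) : ∃ (t : Tr) (a b c' d : ℕ), a < b ∧ b < c' ∧ c' < d ∧
    d < 10 ∧ chk (rowSign (sbit (rep c))) t [cod a b c' d] [] = true := by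
  interval_cases c
  · exact ⟨tree0, 1, 2, 6, 9, by norm_num, by norm_num, by norm_num, by norm_num, chk0⟩
  · exact ⟨tree1, 0, 2, 3, 4, by norm_num, by norm_num, by norm_num, by norm_num, chk1⟩
  · exact ⟨tree2, 0, 1, 5, 6, by norm_num, by norm_num, by norm_num, by norm_num, chk2⟩
  · exact ⟨tree3, 2, 6, 8, 9, by norm_num, by norm_num, by norm_num, by norm_num, chk3⟩
  · exact ⟨tree4, 1, 4, 6, 7, by norm_num, by norm_num, by norm_num, by norm_num, chk4⟩
  · exact ⟨tree5, 0, 4, 5, 8, by norm_num, by norm_num, by norm_num, by norm_num, chk5⟩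

theorem Five.false_of_rep {n x : Fin 5 → Fin 5 → Fin 3 → ℝ} {l : Fin 5 → Fin 5 → ℝ}
    (h0 : Five n x l) {c : ℕ} (hc : c < 6)
    (hs : ∀ i j q, i ≠ j → i ≠ q → j ≠ q → sl l i j q = sbit (rep c) i j q) : False := by
  obtain ⟨x', h, hgen⟩ := h0.generic
  set R := rowSign (sbit (rep c)) with hRdef
  set g : ℕ → ℕ → ℝ := fun r k => if r = 0 then 1 else
    ff n x' (pa (r - 1)) (pb (r - 1)) (x' (pa k) (pb k)) with hg
  set D : ℕ → ℕ → ℕ → ℕ → ℝ := fun a b c d =>
    det4 (x' (pa a) (pb a)) (x' (pa b) (pb b)) (x' (pa c) (pb c)) (x' (pa d) (pb d)) with hDdef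
  have hR : ∀ r k, r ≤ 10 → k < 10 → (R r k = 1 ∧ 0 < g r k) ∨ (R r k = -1 ∧ g r k < 0) ∨
      (R r k = 0 ∧ g r k = 0) := by
    intro r k hr hk
    by_cases hr0 : r = 0
    · subst hr0
      left
      simp [hRdef, rowSign, hg]
    · have e1 : R r k = sgn (sl l) (pa (r - 1)) (pb (r - 1)) (pa k) (pb k) := by
        simp only [hRdef, rowSign, if_neg hr0]
        exact (sgn_congr hs (pab_ne _ (by omega)) (pab_ne _ hk)).symm
      have e2 : g r k = ff n x' (pa (r - 1)) (pb (r - 1)) (x' (pa k) (pb k)) := by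
        simp only [hg, if_neg hr0]
      rw [e1, e2]
      exact h.sgn_spec (pab_ne _ (by omega)) (pab_ne _ hk)
  have hD : ∀ a b c d, a < b → b < c → c < d → d < 10 → D a b c d ≠ 0 := by
    intro a b c d hab hbc hcd hd
    have := hgen ⟨a, by omega⟩ ⟨b, by omega⟩ ⟨c, by omega⟩ ⟨d, hd⟩ hab hbc hcd
    exact this
  have hid : ∀ r a b c d e, r ≤ 10 → D b c d e * g r a - D a c d e * g r b +
      D a b d e * g r c - D a b c e * g r d + D a b c d * g r e = 0 := by
    intro r a b c d e _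
    by_cases hr0 : r = 0
    · subst hr0
      have := det4_id (x' (pa a) (pb a)) (x' (pa b) (pb b)) (x' (pa c) (pb c))
        (x' (pa d) (pb d)) (x' (pa e) (pb e)) 0 1
      simp only [zero_dotProduct, zero_add] at this
      simp only [hg, hDdef, if_true]
      exact this
    · have := det4_id (x' (pa a) (pb a)) (x' (pa b) (pb b)) (x' (pa c) (pb c))
        (x' (pa d) (pb d)) (x' (pa e) (pb e)) (n (pa (r - 1)) (pb (r - 1)))
        (-(n (pa (r - 1)) (pb (r - 1)) ⬝ᵥ x' (pa (r - 1)) (pb (r - 1))))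
      simp only [hg, hDdef, if_neg hr0, ff, sub_eq_add_neg] at this ⊢
      exact this
  obtain ⟨t, a, b, c', d, h1, h2, h3, h4, h5⟩ := exists_chk hc
  exact core R g D hR hD hid t a b c' d h1 h2 h3 h4 h5

theorem agree_of_inc {s1 s2 : Fin 5 → Fin 5 → Fin 5 → Bool}
    (c1 : ∀ i j q, i ≠ j → i ≠ q → j ≠ q → s1 i j q = s1 j q i)
    (c2 : ∀ i j q, i ≠ j → i ≠ q → j ≠ q → s2 i j q = s2 j q i)
    (a1 : ∀ i j q, i ≠ j → i ≠ q → j ≠ q → s1 i q j = !s1 i j q)
    (a2 : ∀ i j q, i ≠ j → i ≠ q → j ≠ q → s2 i q j = !s2 i j q)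
    (hinc : ∀ i j q, i < j → j < q → s1 i j q = s2 i j q) :
    ∀ i j q, i ≠ j → i ≠ q → j ≠ q → s1 i j q = s2 i j q := by
  intro i j q h1 h2 h3
  rcases lt_or_gt_of_ne h1 with g1 | g1 <;> rcases lt_or_gt_of_ne h3 with g3 | g3 <;>
    rcases lt_or_gt_of_ne h2 with g2 | g2
  · exact hinc i j q g1 g3
  · exact absurd (g1.trans g3) g2.not_gt
  · have := hinc i q j g2 g3
    rw [a1 i j q h1 h2 h3, a2 i j q h1 h2 h3] at this
    exact Bool.not_inj this
  · -- q < i < j
    have := hinc q i j g2 g1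
    rw [c1 q i j h2.symm h3.symm h1, c2 q i j h2.symm h3.symm h1] at this
    exact this
  · -- j < i < q
    have := hinc j i q g1 g2
    rw [a1 j q i h3 h1.symm h2.symm, a2 j q i h3 h1.symm h2.symm] at this
    have h := Bool.not_inj this
    rw [c1 i j q h1 h2 h3, c2 i j q h1 h2 h3]
    exact h
  · -- j < q < i
    rw [c1 i j q h1 h2 h3, c2 i j q h1 h2 h3]
    exact hinc j q i g3 g2
  · exact absurd (g3.trans g1) g2.not_gt
  · -- q < j < i
    have := hinc q j i g3 g1
    rw [a1 q i j h2.symm h3.symm h1, a2 q i j h2.symm h3.symm h1] at this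
    have h := Bool.not_inj this
    rw [c1 q i j h2.symm h3.symm h1, c2 q i j h2.symm h3.symm h1] at h
    exact h

theorem tidx_cyc : ∀ i j q : Fin 5, tidx i j q = tidx j q i := by decide
theorem tidx_swap : ∀ i j q : Fin 5, tidx i q j = tidx i j q := by decide
theorem par_cyc : ∀ i j q : Fin 5, i ≠ j → i ≠ q → j ≠ q →
    ((decide (j < i)).xor ((decide (q < j)).xor (decide (q < i)))) =
    ((decide (q < j)).xor ((decide (i < q)).xor (decide (i < j)))) := by decide
theorem par_swap : ∀ i j q : Fin 5, i ≠ j → i ≠ q → j ≠ q →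
    ((decide (q < i)).xor ((decide (j < q)).xor (decide (j < i)))) =
    !((decide (j < i)).xor ((decide (q < j)).xor (decide (q < i)))) := by decide

theorem sbit_cyc (b : ℕ) (i j q : Fin 5) (h1 : i ≠ j) (h2 : i ≠ q) (h3 : j ≠ q) :
    sbit b i j q = sbit b j q i := by
  unfold sbit
  rw [tidx_cyc i j q, par_cyc i j q h1 h2 h3]

theorem sbit_anti (b : ℕ) (i j q : Fin 5) (h1 : i ≠ j) (h2 : i ≠ q) (h3 : j ≠ q) :
    sbit b i q j = !sbit b i j q := by
  unfold sbit
  rw [tidx_swap i j q, par_swap i j q h1 h2 h3, Bool.xor_not]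

/-- The increasing triples as a function. -/
def tt (t : Fin 10) : Fin 5 × Fin 5 × Fin 5 := tri10.get (t.cast (by decide))

theorem tt_tidx : ∀ i j q : Fin 5, i < j → j < q → ∃ h : tidx i j q < 10,
    tt ⟨tidx i j q, h⟩ = (i, j, q) := by decide

theorem mem_tri10 : ∀ i j q : Fin 5, i < j → j < q → (i, j, q) ∈ tri10 := by decide

theorem sbit_ofBits (s : Fin 5 → Fin 5 → Fin 5 → Bool) {i j q : Fin 5} (h1 : i < j) (h2 : j < q) :
    sbit (Nat.ofBits (fun t : Fin 10 => s (tt t).1 (tt t).2.1 (tt t).2.2)) i j q = s i j q := by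
  obtain ⟨h, e⟩ := tt_tidx i j q h1 h2
  unfold sbit
  rw [Nat.testBit_ofBits_lt _ _ h, e]
  have h3 : ¬ j < i := h1.not_gt
  have h4 : ¬ q < j := h2.not_gt
  have h5 : ¬ q < i := (h1.trans h2).not_gt
  simp [h3, h4, h5]

theorem Five.false {n x : Fin 5 → Fin 5 → Fin 3 → ℝ} {l : Fin 5 → Fin 5 → ℝ}
    (h : Five n x l) : False := by
  set b := Nat.ofBits (fun t : Fin 10 => sl l (tt t).1 (tt t).2.1 (tt t).2.2) with hb
  have hb' : b < 1024 := Nat.ofBits_lt_two_pow _
  have hag : ∀ i j q, i ≠ j → i ≠ q → j ≠ q → sl l i j q = sbit b i j q := by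
    apply agree_of_inc (fun i j q _ _ _ => sl_cyc l i j q) (sbit_cyc b)
      (fun i j q h1 h2 h3 => h.sl_anti h1 h2 h3) (sbit_anti b)
    intro i j q h1 h2
    exact (sbit_ofBits (sl l) h1 h2).symm
  obtain ⟨e, he⟩ := exists_entry b hb'
  simp only [okb, Bool.or_eq_true, Bool.and_eq_true, decide_eq_true_eq] at he
  rcases he with he | ⟨⟨he1, he2⟩, he3⟩
  · -- the cocycle condition holds
    have c4 : ∀ i j q r : Fin 5, i < j → j < q → q < r → coc4 b (i, j, q, r) = true := by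
      intro i j q r h1 h2 h3
      have := h.coc (a := i) (b := j) (c := q) (d := r) h1.ne (h1.trans h2).ne
        ((h1.trans h2).trans h3).ne h2.ne (h2.trans h3).ne h3.ne
      rw [hag i j q h1.ne (h1.trans h2).ne h2.ne,
        hag i q r (h1.trans h2).ne ((h1.trans h2).trans h3).ne h3.ne,
        hag i j r h1.ne ((h1.trans h2).trans h3).ne (h2.trans h3).ne,
        hag j q r h2.ne (h2.trans h3).ne h3.ne] at this
      exact this
    have hc : Tangle.coc b = true := by
      unfold Tangle.coc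
      rw [c4 0 1 2 3 (by decide) (by decide) (by decide), c4 0 1 2 4 (by decide) (by decide)
        (by decide), c4 0 1 3 4 (by decide) (by decide) (by decide), c4 0 2 3 4 (by decide)
        (by decide) (by decide), c4 1 2 3 4 (by decide) (by decide) (by decide)]
      rfl
    rw [hc] at he
    exact Bool.noConfusion he
  · have hinj : Function.Injective (pdig e) := by
      intro i j hij
      by_contra hne
      have h1 := List.nodup_iff_injective_get.1 he2
      have h2 : ∀ i : Fin 5, (List.map (pdig e) [0, 1, 2, 3, 4]).get (i.cast (by simp)) =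
          pdig e i := by
        intro i; fin_cases i <;> rfl
      have h3 : (List.map (pdig e) [0, 1, 2, 3, 4]).get (i.cast (by simp)) =
          (List.map (pdig e) [0, 1, 2, 3, 4]).get (j.cast (by simp)) := by
        rw [h2, h2, hij]
      have h4 := h1 h3
      apply hne
      have h5 := congrArg Fin.val h4
      simp only [Fin.val_cast] at h5
      exact Fin.ext h5
    have hp := h.perm (pdig e) hinj
    refine hp.false_of_rep he1 ?_
    apply agree_of_inc (fun i j q _ _ _ => sl_cyc _ i j q) (sbit_cyc _)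
      (fun i j q h1 h2 h3 => hp.sl_anti h1 h2 h3) (sbit_anti _)
    intro i j q h1 h2
    have h3 := List.all_eq_true.1 he3 _ (mem_tri10 i j q h1 h2)
    simp only [beq_iff_eq] at h3
    rw [← h3]
    exact hag _ _ _ (hinj.ne h1.ne) (hinj.ne (h1.trans h2).ne) (hinj.ne h2.ne)

/-- Five tetrahedra cannot be tangled (algebraic form). -/
theorem no_five' (n x : Fin 5 → Fin 5 → Fin 3 → ℝ) (hn : ∀ i j, n j i = - n i j)
    (hx : ∀ i j, x j i = x i j)
    (hlt : ∀ i j k, i ≠ j → i ≠ k → j ≠ k → n i j ⬝ᵥ x i k < n i j ⬝ᵥ x i j)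
    (hpos : ∀ i, ∃ c : Fin 5 → ℝ, (∀ j, j ≠ i → 0 < c j) ∧
      (∑ j ∈ Finset.univ.erase i, c j • n i j) = 0) : False := by
  choose l hl hsum using hpos
  have h : Five n x l := ⟨hn, hx, hlt, fun i j hj => hl i j hj, fun i => by
    have hself : n i i = 0 := by
      have := hn i i
      exact self_eq_neg.1 this
    rw [← Finset.add_sum_erase _ _ (Finset.mem_univ i), hself, smul_zero, zero_add]
    exact hsum i⟩
  exact h.false

end Tangle
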