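import Mathlib
import Pool.Agent.Lib_helper86.Tangle.HFam

/-! Non-existence: few bodies, and dimensions one and two. -/

open Filter Topology

set_option linter.unusedSectionVars false

namespace Tangle

variable {ι κ E : Type*} [Fintype κ] [DecidableEq κ] [AddCommGroup E] [Module ℝ E]

/-- Two different facets of one simplex cannot both touch another simplex. -/
theorem con_unique {b g : κ → (E →ᵃ[ℝ] ℝ)} {k k' l l' : κ} {x x' : E} (hne : k ≠ k')
    (h : Con b k g l x) (h' : Con b k' g l' x') : False := by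
  have hs := h.symm
  obtain ⟨⟨c, hc, hcy⟩, h0, h1, h2⟩ := h
  obtain ⟨⟨c', hc', hcy'⟩, h0', h1', h2'⟩ := h'
  have hpos : 0 < b k' x := h1 k' (Ne.symm hne)
  rw [hcy' x] at hpos
  by_cases hl : l' = l
  · subst hl
    rw [hs.2.1] at hpos
    simp at hpos
  · have := h2 l' hl
    nlinarith [mul_pos hc' this]

theorem HFam.card_lt [Fintype ι] [Nonempty ι] (F : HFam ι κ E) :
    Fintype.card κ < Fintype.card ι := by
  classical
  obtain ⟨i⟩ := (inferInstance : Nonempty ι)
  choose j l x hj hc using fun k => F.contact i k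
  have hinj : Function.Injective j := by
    intro k k' hkk'
    by_contra hne
    have h1 := hc k
    have h2 := hc k'
    rw [← hkk'] at h2
    exact con_unique hne h1 h2
  have h1 : Finset.univ.image j ⊆ Finset.univ.erase i := by
    intro y hy
    obtain ⟨k, -, rfl⟩ := Finset.mem_image.1 hy
    simp [hj k]
  have h2 := Finset.card_le_card h1
  rw [Finset.card_image_of_injective _ hinj, Finset.card_erase_of_mem (Finset.mem_univ i),
    Finset.card_univ, Finset.card_univ] at h2
  have : 0 < Fintype.card ι := Fintype.card_pos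
  omega

/-- `j` is in front of `i` in direction `t`. -/
def HFam.Front (F : HFam ι κ E) (t : E) (i j : ι) : Prop :=
  i ≠ j ∧ ∃ p : E, ∃ s : ℝ, 0 < s ∧ (∀ k, 0 < F.a i k p) ∧ (∀ l, 0 < F.a j l (p + s • t))

theorem lineMap_val (f : E →ᵃ[ℝ] ℝ) (x y : E) (r : ℝ) :
    f (AffineMap.lineMap x y r) = (1 - r) * f x + r * f y := by
  rw [AffineMap.apply_lineMap, AffineMap.lineMap_apply_ring]

theorem add_smul_val (f : E →ᵃ[ℝ] ℝ) (x t : E) (r : ℝ) :
    f (x + r • t) = f x + r * f.linear t := by
  have := AffineMap.map_vadd f x (r • t)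
  simp only [vadd_eq_add] at this
  rw [add_comm, this, map_smul]
  simp [add_comm]

theorem HFam.front_pos (F : HFam ι κ E) {t : E} {i j : ι} (h : F.Front t i j) {p : E} {α : ℝ}
    (hp : ∀ k, 0 < F.a i k p) (hq : ∀ l, 0 < F.a j l (p + α • t)) : 0 < α := by
  obtain ⟨hij, p', s, hs, hp', hq'⟩ := h
  by_contra hα
  push Not at hα
  have hsα : 0 < s - α := by linarith
  set r := -α / (s - α) with hr
  have hr0 : 0 ≤ r := div_nonneg (by linarith) hsα.le
  have hr1 : r ≤ 1 := by rw [hr, div_le_one hsα]; linarith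
  have heq : (AffineMap.lineMap p p' r : E) = AffineMap.lineMap (p + α • t) (p' + s • t) r := by
    rw [AffineMap.lineMap_apply_module, AffineMap.lineMap_apply_module]
    have : (1 - r) * α + r * s = 0 := by
      rw [hr]; field_simp; ring
    have e : (1 - r) • (p + α • t) + r • (p' + s • t) =
        (1 - r) • p + r • p' + ((1 - r) * α + r * s) • t := by
      module
    rw [e, this]; simp
  have pos : ∀ (f : E →ᵃ[ℝ] ℝ) (x y : E), 0 < f x → 0 < f y → 0 < f (AffineMap.lineMap x y r) := by
    intro f x y hx hy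
    rw [lineMap_val]
    rcases hr0.eq_or_lt with h | h
    · rw [← h]; simpa using hx
    · have : 0 < r * f y := mul_pos h hy
      have : 0 ≤ (1 - r) * f x := mul_nonneg (by linarith) hx.le
      linarith
  apply F.disj i j hij (AffineMap.lineMap p p' r)
  · exact fun k => pos _ _ _ (hp k) (hp' k)
  · intro l; rw [heq]; exact pos _ _ _ (hq l) (hq' l)

/-- Every body has a body in front of it. -/
theorem HFam.exists_front (F : HFam ι κ E) {t : E} (ht : t ≠ 0) (i : ι) : ∃ j, F.Front t i j := by
  have hsum : ∑ k, (F.a i k).linear t = 0 := by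
    have h1 := (F.bary i).sum_one (0 + (1:ℝ) • t)
    have h2 := (F.bary i).sum_one 0
    simp_rw [add_smul_val] at h1
    rw [Finset.sum_add_distrib, h2] at h1
    simpa using h1
  have hne : ∃ k, (F.a i k).linear t ≠ 0 := by
    by_contra hcon
    push Not at hcon
    apply ht
    have := (F.bary i).inj (0 + (1:ℝ) • t) 0 (fun k => by rw [add_smul_val, hcon k]; simp)
    simpa using this
  obtain ⟨k, hk⟩ : ∃ k, (F.a i k).linear t < 0 := by
    by_contra hcon
    push Not at hcon
    obtain ⟨k, hk⟩ := hne
    have := (Finset.sum_eq_zero_iff_of_nonneg (fun k _ => hcon k)).1 hsum k (Finset.mem_univ k)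
    exact hk this
  obtain ⟨j, l, x, hj, hc⟩ := F.contact i k
  have hcs := hc.symm
  obtain ⟨⟨c, hc0, hcy⟩, h0, h1, h2⟩ := hc
  have hl : 0 < (F.a j l).linear t := by
    have e1 := hcy (x + (1:ℝ) • t)
    rw [add_smul_val, add_smul_val, h0, hcs.2.1] at e1
    have : c * (F.a j l).linear t = -(F.a i k).linear t := by linarith
    exact (mul_pos_iff_of_pos_left hc0).1 (by linarith)
  have ev : ∀ (f : E →ᵃ[ℝ] ℝ) (σ : ℝ), 0 < f x → ∀ᶠ ε in 𝓝[>] (0:ℝ), 0 < f (x + (σ * ε) • t) := by
    intro f σ hf
    have hcont : Tendsto (fun ε : ℝ => f x + (σ * ε) * f.linear t) (𝓝[>] 0)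
        (𝓝 (f x + (σ * 0) * f.linear t)) := by
      apply Filter.Tendsto.mono_left _ nhdsWithin_le_nhds
      apply Continuous.tendsto
      fun_prop
    have hpos' : (0:ℝ) < f x + (σ * 0) * f.linear t := by simpa using hf
    filter_upwards [hcont.eventually (lt_mem_nhds hpos')] with ε hε
    rw [add_smul_val]; exact hε
  have hall : ∀ᶠ ε in 𝓝[>] (0:ℝ), ((∀ k', 0 < F.a i k' (x + ((-1) * ε) • t)) ∧
      (∀ l', 0 < F.a j l' (x + (1 * ε) • t))) ∧ 0 < ε := by
    rw [Filter.eventually_and, Filter.eventually_and, Filter.eventually_all, Filter.eventually_all]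
    refine ⟨⟨?_, ?_⟩, self_mem_nhdsWithin⟩
    · intro k'
      by_cases h : k' = k
      · subst h
        filter_upwards [self_mem_nhdsWithin] with ε hε
        have : (0:ℝ) < ε := hε
        rw [add_smul_val, h0]
        nlinarith [mul_pos this (neg_pos.2 hk)]
      · exact ev _ _ (h1 k' h)
    · intro l'
      by_cases h : l' = l
      · subst h
        filter_upwards [self_mem_nhdsWithin] with ε hε
        have : (0:ℝ) < ε := hε
        rw [add_smul_val, hcs.2.1]
        nlinarith [mul_pos this hl]
      · exact ev _ _ (h2 l' h)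
  obtain ⟨ε, ⟨hp, hq⟩, hε⟩ := hall.exists
  refine ⟨j, Ne.symm hj, x + ((-1) * ε) • t, 2 * ε, by positivity, hp, ?_⟩
  have e : x + ((-1) * ε) • t + (2 * ε) • t = x + (1 * ε) • t := by module
  rw [e]; exact hq

theorem IsBary.exists_pos {b : κ → (E →ᵃ[ℝ] ℝ)} (hb : IsBary b) : ∃ x, ∀ k, 0 < b k x := by
  rcases isEmpty_or_nonempty κ with h | h
  · exact ⟨0, fun k => isEmptyElim k⟩
  · obtain ⟨x, hx⟩ := hb.surj (fun _ => (1:ℝ) / Fintype.card κ) (by
      rw [Finset.sum_const, Finset.card_univ, nsmul_eq_mul]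
      field_simp)
    exact ⟨x, fun k => by rw [hx]; positivity⟩

/-- There is no tangled family on a line. -/
theorem no_HFam_line [Finite ι] [Nonempty ι] (F : HFam ι κ E) (t : E) (ht : t ≠ 0)
    (hline : ∀ v : E, ∃ α : ℝ, v = α • t) : False := by
  have htr : ∀ i j k, F.Front t i j → F.Front t j k → F.Front t i k := by
    intro i j k hij hjk
    obtain ⟨pi, hpi⟩ := (F.bary i).exists_pos
    obtain ⟨pj, hpj⟩ := (F.bary j).exists_pos
    obtain ⟨pk, hpk⟩ := (F.bary k).exists_pos
    obtain ⟨α, hα⟩ := hline (pj - pi)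
    obtain ⟨β, hβ⟩ := hline (pk - pj)
    have e1 : pj = pi + α • t := by rw [← hα]; abel
    have e2 : pk = pj + β • t := by rw [← hβ]; abel
    have hα0 : 0 < α := F.front_pos hij hpi (by rw [← e1]; exact hpj)
    have hβ0 : 0 < β := F.front_pos hjk hpj (by rw [← e2]; exact hpk)
    have e3 : pk = pi + (α + β) • t := by rw [e2, e1]; module
    refine ⟨?_, pi, α + β, by positivity, hpi, by rw [← e3]; exact hpk⟩
    rintro rfl
    have : 0 < -α := by
      apply F.front_pos hjk hpj
      have : pj + (-α) • t = pi := by rw [e1]; module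
      rw [this]; exact hpi
    linarith
  have hirr : ∀ i, ¬ F.Front t i i := fun i h => h.1 rfl
  let r : ι → ι → Prop := fun i j => F.Front t j i
  have htr' : IsTrans ι r := ⟨fun a b c hab hbc => htr c b a hbc hab⟩
  have hirr' : Std.Irrefl r := ⟨fun a h => hirr a h⟩
  have wf : WellFounded r := Finite.wellFounded_of_trans_of_irrefl r
  obtain ⟨m, -, hm⟩ := wf.has_min Set.univ ⟨Classical.arbitrary ι, trivial⟩
  obtain ⟨j, hj⟩ := F.exists_front ht m
  exact hm j trivial hj

theorem IsBary.eval {b : κ → (E →ᵃ[ℝ] ℝ)} (hb : IsBary b) {v : κ → E} (hv : ∀ k, b k (v k) = 1)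
    (hv' : ∀ k l, l ≠ k → b l (v k) = 0) (x : E) : x = ∑ k, b k x • v k := by
  apply hb.inj
  intro l
  have hlin : ∀ y, b l y = (b l).linear y + b l 0 := by
    intro y
    have := AffineMap.linearMap_vsub (b l) y 0
    simp only [vsub_eq_sub, sub_zero] at this
    rw [this]; ring
  have hlin' : ∀ y, (b l).linear y = b l y - b l 0 := fun y => by rw [hlin y]; ring
  rw [hlin (∑ k, b k x • v k), map_sum]
  simp_rw [map_smul, smul_eq_mul, hlin']
  have h1 : ∀ k, b k x * (b l (v k) - b l 0) = b k x * b l (v k) - b k x * b l 0 := fun k => by ring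
  simp_rw [h1]
  rw [Finset.sum_sub_distrib, ← Finset.sum_mul, hb.sum_one x, Finset.sum_eq_single l]
  · rw [hv l]; ring
  · intro k _ hk
    rw [hv' k l (Ne.symm hk)]; ring
  · intro h; exact absurd (Finset.mem_univ l) h

/-- There is no tangled family in the plane. -/
theorem no_HFam_plane [Fintype ι] [Nonempty ι] (F : HFam ι κ E) (t : E) (ht : t ≠ 0)
    (φ : E →ₗ[ℝ] ℝ) (hφt : φ t = 0) (hφ : ∀ v : E, φ v = 0 → ∃ α : ℝ, v = α • t)
    (w : E) (hw : φ w = 1) : False := by
  classical
  -- vertices
  choose v hv hv' using fun i => fun k => (F.bary i).vertex k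
  -- nonempty index type of facets
  have hκ : Nonempty κ := by
    by_contra h
    rw [not_nonempty_iff] at h
    obtain ⟨i⟩ := (inferInstance : Nonempty ι)
    have := (F.bary i).sum_one 0
    simp at this
  -- upper ends of the shadows
  have htop : ∀ i, ∃ k, ∀ l, φ (v i l) ≤ φ (v i k) := fun i => by
    obtain ⟨k, -, hk⟩ := Finset.exists_max_image Finset.univ (fun k => φ (v i k)) Finset.univ_nonempty
    exact ⟨k, fun l => hk l (Finset.mem_univ l)⟩
  choose top htop using htop
  set u : ι → ℝ := fun i => φ (v i (top i)) with hu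
  have hle : ∀ i x, (∀ k, 0 < F.a i k x) → φ x ≤ u i := by
    intro i x hx
    have e := (F.bary i).eval (hv i) (hv' i) x
    have e1 : φ x = ∑ k, F.a i k x * φ (v i k) := by
      conv_lhs => rw [e]
      rw [map_sum]
      simp
    rw [e1]
    calc ∑ k, F.a i k x * φ (v i k) ≤ ∑ k, F.a i k x * u i :=
          Finset.sum_le_sum (fun k _ => mul_le_mul_of_nonneg_left (htop i k) (hx k).le)
      _ = u i := by rw [← Finset.sum_mul, (F.bary i).sum_one x, one_mul]
  have hlt : ∀ i x, (∀ k, 0 < F.a i k x) → φ x < u i := by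
    intro i x hx
    have hall : ∀ᶠ ε in 𝓝[>] (0:ℝ), (∀ k, 0 < F.a i k (x + ε • w)) ∧ 0 < ε := by
      rw [Filter.eventually_and, Filter.eventually_all]
      refine ⟨fun k => ?_, self_mem_nhdsWithin⟩
      have hcont : Tendsto (fun ε : ℝ => F.a i k x + ε * (F.a i k).linear w) (𝓝[>] 0)
          (𝓝 (F.a i k x + 0 * (F.a i k).linear w)) := by
        apply Filter.Tendsto.mono_left _ nhdsWithin_le_nhds
        apply Continuous.tendsto
        fun_prop
      have hpos' : (0:ℝ) < F.a i k x + 0 * (F.a i k).linear w := by simpa using hx k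
      filter_upwards [hcont.eventually (lt_mem_nhds hpos')] with ε hε
      rw [add_smul_val]; exact hε
    obtain ⟨ε, h1, h2⟩ := hall.exists
    have h3 := hle i _ h1
    rw [map_add, map_smul, hw] at h3
    simp only [smul_eq_mul, mul_one] at h3
    linarith
  -- the shadow is an interval up to `u i`
  have hup : ∀ i x y, (∀ k, 0 < F.a i k x) → φ x ≤ y → y < u i →
      ∃ x', (∀ k, 0 < F.a i k x') ∧ φ x' = y := by
    intro i x y hx hxy hyu
    have hd : 0 < u i - φ x := by linarith
    set r := (y - φ x) / (u i - φ x) with hr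
    have hr0 : 0 ≤ r := div_nonneg (by linarith) hd.le
    have hr1 : r < 1 := by rw [hr, div_lt_one hd]; linarith
    refine ⟨AffineMap.lineMap x (v i (top i)) r, fun k => ?_, ?_⟩
    · rw [lineMap_val]
      have h1 : 0 < (1 - r) * F.a i k x := mul_pos (by linarith) (hx k)
      have h2 : 0 ≤ F.a i k (v i (top i)) := by
        by_cases h : k = top i
        · rw [h, hv]; norm_num
        · rw [hv' i (top i) k h]
      have : 0 ≤ r * F.a i k (v i (top i)) := mul_nonneg hr0 h2
      linarith
    · rw [AffineMap.lineMap_apply_module, map_add, map_smul, map_smul]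
      simp only [smul_eq_mul]
      change (1 - r) * φ x + r * u i = y
      rw [hr]; field_simp; ring
  -- existence of a sink
  have sink : ∀ n : ℕ, ∀ s : Finset ι, s.card = n → s.Nonempty → ∃ i ∈ s, ∀ j ∈ s, ¬ F.Front t i j := by
    intro n
    induction n with
    | zero =>
      intro s hs hne
      exact absurd (Finset.card_eq_zero.1 hs) (Finset.nonempty_iff_ne_empty.1 hne)
    | succ n ih =>
      intro s hs hne
      obtain ⟨o, ho, hmin⟩ := Finset.exists_min_image s u hne
      rcases (s.erase o).eq_empty_or_nonempty with he | he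
      · refine ⟨o, ho, fun j hj h => ?_⟩
        have : j ∈ s.erase o := Finset.mem_erase.2 ⟨Ne.symm h.1, hj⟩
        rw [he] at this
        simp at this
      · obtain ⟨i, hi, hsink⟩ := ih (s.erase o) (by rw [Finset.card_erase_of_mem ho, hs]; rfl) he
        have his : i ∈ s := Finset.mem_of_mem_erase hi
        by_cases hio : F.Front t i o
        · refine ⟨o, ho, fun j hj hoj => ?_⟩
          have hjs : j ∈ s.erase o := Finset.mem_erase.2 ⟨Ne.symm hoj.1, hj⟩
          obtain ⟨-, p1, s1, hs1, hp1, hq1⟩ := id hio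
          obtain ⟨-, p2, s2, hs2, hp2, hq2⟩ := id hoj
          -- levels
          have l1 : φ (p1 + s1 • t) = φ p1 := by rw [map_add, map_smul, hφt]; simp
          have l2 : φ (p2 + s2 • t) = φ p2 := by rw [map_add, map_smul, hφt]; simp
          have h1 : φ p1 < u o := by rw [← l1]; exact hlt o _ hq1
          have h2 : φ p2 < u o := hlt o _ hp2
          set y := max (φ p1) (φ p2) with hy
          have hyo : y < u o := max_lt h1 h2
          obtain ⟨xi, hxi, exi⟩ := hup i p1 y hp1 (le_max_left _ _) (lt_of_lt_of_le hyo (hmin i his))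
          obtain ⟨xo, hxo, exo⟩ := hup o p2 y hp2 (le_max_right _ _) hyo
          obtain ⟨xj, hxj, exj⟩ := hup j (p2 + s2 • t) y hq2 (by rw [l2]; exact le_max_right _ _)
            (lt_of_lt_of_le hyo (hmin j hj))
          obtain ⟨α, hα⟩ := hφ (xo - xi) (by rw [map_sub, exi, exo]; ring)
          obtain ⟨β, hβ⟩ := hφ (xj - xo) (by rw [map_sub, exj, exo]; ring)
          have e1 : xo = xi + α • t := by rw [← hα]; abel
          have e2 : xj = xo + β • t := by rw [← hβ]; abel
          have hα0 : 0 < α := F.front_pos hio hxi (by rw [← e1]; exact hxo)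
          have hβ0 : 0 < β := F.front_pos hoj hxo (by rw [← e2]; exact hxj)
          have e3 : xj = xi + (α + β) • t := by rw [e2, e1]; module
          have hij : i ≠ j := by
            rintro rfl
            have : 0 < -α := by
              apply F.front_pos hoj hxo
              have : xo + (-α) • t = xi := by rw [e1]; module
              rw [this]; exact hxi
            linarith
          exact hsink j hjs ⟨hij, xi, α + β, by positivity, hxi, by rw [← e3]; exact hxj⟩
        · refine ⟨i, his, fun j hj h => ?_⟩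
          by_cases hjo : j = o
          · subst hjo; exact hio h
          · exact hsink j (Finset.mem_erase.2 ⟨hjo, hj⟩) h
  obtain ⟨i, -, hi⟩ := sink _ Finset.univ rfl Finset.univ_nonempty
  obtain ⟨j, hj⟩ := F.exists_front ht i
  exact hi j (Finset.mem_univ j) hj

end Tangle
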