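import Mathlib
import Pool.Agent.Lib_helper86.Tangle.LowDim
import Pool.Agent.Lib_helper86.Tangle.CFam

/-! From a tangled family in which every two bodies must touch to separation data. -/

open Module

set_option linter.unusedSectionVars false

namespace Tangle

variable {κ E : Type*} [Fintype κ] [DecidableEq κ] [AddCommGroup E] [Module ℝ E]

theorem HFam.toCFam {n : ℕ} (F : HFam (Fin n) κ E) (hcard : Fintype.card κ + 1 = n) :
    Nonempty (CFam (Fin n) E) := by
  classical
  -- the body touched by each facet
  choose J L0 X0 hJ hC using F.contact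
  have hJinj : ∀ i, Function.Injective (J i) := by
    intro i k k' hkk'
    by_contra hne
    have h1 := hC i k
    have h2 := hC i k'
    rw [← hkk'] at h2
    exact con_unique hne h1 h2
  have himage : ∀ i, Finset.univ.image (J i) = Finset.univ.erase i := by
    intro i
    apply Finset.eq_of_subset_of_card_le
    · intro y hy
      obtain ⟨k, -, rfl⟩ := Finset.mem_image.1 hy
      simp [hJ i k]
    · rw [Finset.card_image_of_injective _ (hJinj i), Finset.card_erase_of_mem (Finset.mem_univ i),
        Finset.card_univ, Finset.card_univ, Fintype.card_fin]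
      omega
  have hJsurj : ∀ i j, j ≠ i → ∃ k, J i k = j := by
    intro i j hj
    have : j ∈ Finset.univ.image (J i) := by rw [himage]; simp [hj]
    obtain ⟨k, -, hk⟩ := Finset.mem_image.1 this
    exact ⟨k, hk⟩
  have hall : ∀ i j, ∃ (p : κ × κ × E), i < j → Con (F.a i) p.1 (F.a j) p.2.1 p.2.2 := by
    intro i j
    by_cases hij : i < j
    · obtain ⟨k, hk⟩ := hJsurj i j hij.ne'
      have := hC i k
      rw [hk] at this
      exact ⟨(k, L0 i k, X0 i k), fun _ => this⟩
    · rcases isEmpty_or_nonempty κ with hκ | ⟨⟨k⟩⟩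
      · exfalso
        have := (F.bary i).sum_one 0
        simp at this
      · exact ⟨(k, k, 0), fun h => absurd h hij⟩
  choose p hp using hall
  set K : Fin n → Fin n → κ := fun i j => if i < j then (p i j).1 else (p j i).2.1 with hK
  set X : Fin n → Fin n → E := fun i j => if i < j then (p i j).2.2 else
    if j < i then (p j i).2.2 else 0 with hX
  have hXsymm : ∀ i j, X j i = X i j := by
    intro i j
    simp only [hX]
    rcases lt_trichotomy i j with h | h | h
    · simp [h, h.not_gt]
    · simp [h]
    · simp [h, h.not_gt]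
  have hcon : ∀ i j, i ≠ j → Con (F.a i) (K i j) (F.a j) (K j i) (X i j) := by
    intro i j hij
    rcases lt_or_gt_of_ne hij with h | h
    · have e1 : K i j = (p i j).1 := by simp [hK, h]
      have e2 : K j i = (p i j).2.1 := by simp [hK, h.not_gt]
      have e3 : X i j = (p i j).2.2 := by simp [hX, h]
      rw [e1, e2, e3]; exact hp i j h
    · have e1 : K i j = (p j i).2.1 := by simp [hK, h.not_gt]
      have e2 : K j i = (p j i).1 := by simp [hK, h]
      have e3 : X i j = (p j i).2.2 := by simp [hX, h, h.not_gt]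
      rw [e1, e2, e3]; exact (hp j i h).symm
  have hKJ : ∀ i k, K i (J i k) = k := by
    intro i k
    by_contra hne
    exact con_unique hne (hcon i (J i k) (hJ i k).symm) (hC i k)
  have hJK : ∀ i j, j ≠ i → J i (K i j) = j := by
    intro i j hj
    obtain ⟨k, hk⟩ := hJsurj i j hj
    rw [← hk, hKJ]
  have hKne : ∀ i j k, j ≠ i → k ≠ i → j ≠ k → K i j ≠ K i k := by
    intro i j k hj hk hjk h
    apply hjk
    rw [← hJK i j hj, ← hJK i k hk, h]
  -- functionals
  set N : Fin n → Fin n → (E →ₗ[ℝ] ℝ) := fun i j => if i < j then -(F.a i (K i j)).linear else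
    if j < i then (F.a j (K j i)).linear else 0 with hN
  have hNs : ∀ i j, i ≠ j → ∃ s : ℝ, 0 < s ∧ ∀ v, N i j v = - s * (F.a i (K i j)).linear v := by
    intro i j hij
    rcases lt_or_gt_of_ne hij with h | h
    · refine ⟨1, one_pos, fun v => ?_⟩
      simp [hN, h]
    · obtain ⟨c, hc, hcy⟩ := (hcon j i hij.symm).1
      refine ⟨c, hc, fun v => ?_⟩
      have e1 : N i j v = (F.a j (K j i)).linear v := by simp [hN, h, h.not_gt]
      have e2 := lin_val (F.a j (K j i)) v 0
      have e3 := lin_val (F.a i (K i j)) v 0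
      rw [sub_zero] at e2 e3
      rw [e1, e2, e3, hcy, hcy]; ring
  have hex : ∀ i j, ∃ s : ℝ, i ≠ j → 0 < s ∧ ∀ v, N i j v = - s * (F.a i (K i j)).linear v := by
    intro i j
    by_cases hij : i = j
    · exact ⟨1, fun h => absurd hij h⟩
    · obtain ⟨s, hs⟩ := hNs i j hij
      exact ⟨s, fun _ => hs⟩
  choose s hs using hex
  have hskew : ∀ i j, N j i = - N i j := by
    intro i j
    rcases lt_trichotomy i j with h | h | h
    · simp [hN, h, h.not_gt]
    · simp [hN, h]
    · simp [hN, h, h.not_gt]
  refine ⟨⟨N, X, hskew, hXsymm, ?_, ?_, ?_⟩⟩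
  · intro i j k hij hik hjk
    obtain ⟨hs0, hsv⟩ := hs i j hij
    rw [hsv, hsv]
    have h1 := (hcon i j hij).2.1
    have h2 := (hcon i k hik).2.2.1 (K i j) (hKne i j k hij.symm hik.symm hjk)
    have h3 := lin_val (F.a i (K i j)) (X i k) (X i j)
    rw [h1, sub_zero, map_sub] at h3
    nlinarith [mul_pos hs0 h2]
  · intro i
    refine ⟨fun j => if j = i then 0 else (s i j)⁻¹, fun j hj => ?_, ?_⟩
    · simp only [hj, if_false]
      exact inv_pos.2 (hs i j hj.symm).1
    · apply LinearMap.ext
      intro v
      rw [LinearMap.sum_apply, ← Finset.add_sum_erase _ _ (Finset.mem_univ i)]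
      simp only [if_true, zero_smul, LinearMap.zero_apply, zero_add]
      have h1 : ∀ j ∈ Finset.univ.erase i, ((if j = i then 0 else (s i j)⁻¹) • N i j) v =
          - (F.a i (K i j)).linear v := by
        intro j hj
        have hj' := Finset.ne_of_mem_erase hj
        obtain ⟨hs0, hsv⟩ := hs i j hj'.symm
        simp only [hj', if_false, LinearMap.smul_apply, smul_eq_mul, hsv]
        field_simp
      rw [Finset.sum_congr rfl h1, Finset.sum_neg_distrib]
      have h2 : ∑ j ∈ Finset.univ.erase i, (F.a i (K i j)).linear v =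
          ∑ k, (F.a i k).linear v := by
        symm
        apply Finset.sum_nbij' (i := J i) (j := K i)
        · intro k _; simp [hJ i k]
        · intro j _; simp
        · intro k _; exact hKJ i k
        · intro j hj; exact hJK i j (Finset.ne_of_mem_erase hj)
        · intro k _; rw [hKJ]
      rw [h2]
      have h3 := (F.bary i).sum_one v
      have h4 := (F.bary i).sum_one 0
      simp_rw [lin_sum (F.a i _) v] at h3
      rw [Finset.sum_add_distrib, h4] at h3
      linarith
  · intro i v h
    apply (F.bary i).inj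
    intro k
    have h1 := h (J i k) (hJ i k)
    obtain ⟨hs0, hsv⟩ := hs i (J i k) (hJ i k).symm
    rw [hsv, hKJ] at h1
    have h2 := lin_val (F.a i k) v 0
    rw [sub_zero] at h2
    rcases mul_eq_zero.1 h1 with h3 | h3
    · linarith
    · rw [h3] at h2; linarith

/-- Passing to coordinates in dimension three. -/
theorem CFam.toVec {n : ℕ} (C : CFam (Fin n) (EuclideanSpace ℝ (Fin 3))) :
    ∃ (N X : Fin n → Fin n → Fin 3 → ℝ), (∀ i j, N j i = - N i j) ∧ (∀ i j, X j i = X i j) ∧
      (∀ i j k, i ≠ j → i ≠ k → j ≠ k → N i j ⬝ᵥ X i k < N i j ⬝ᵥ X i j) ∧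
      (∀ i, ∃ c : Fin n → ℝ, (∀ j, j ≠ i → 0 < c j) ∧
        (∑ j ∈ Finset.univ.erase i, c j • N i j) = 0) ∧
      (∀ i v, (∀ j, j ≠ i → N i j ⬝ᵥ v = 0) → v = 0) := by
  have hval : ∀ i j (v : EuclideanSpace ℝ (Fin 3)),
      (fun m => C.n i j (EuclideanSpace.single m 1)) ⬝ᵥ (fun m => v m) = C.n i j v := by
    intro i j v
    have e : v = v 0 • EuclideanSpace.single (0 : Fin 3) (1:ℝ) +
        v 1 • EuclideanSpace.single (1 : Fin 3) (1:ℝ) +
        v 2 • EuclideanSpace.single (2 : Fin 3) (1:ℝ) := by
      ext m; fin_cases m <;> simp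
    conv_rhs => rw [e]
    simp only [map_add, map_smul, smul_eq_mul, dotProduct, Fin.sum_univ_three]
    ring
  refine ⟨fun i j m => C.n i j (EuclideanSpace.single m 1), fun i j m => C.x i j m, ?_, ?_, ?_,
    ?_, ?_⟩
  · intro i j
    funext m
    simp [C.skew i j]
  · intro i j
    funext m
    simp only [C.symm i j]
  · intro i j k hij hik hjk
    rw [hval, hval]
    exact C.lt i j k hij hik hjk
  · intro i
    obtain ⟨c, hc, hsum⟩ := C.pos i
    refine ⟨c, hc, ?_⟩
    funext m
    have h1 := congrArg (fun f : EuclideanSpace ℝ (Fin 3) →ₗ[ℝ] ℝ =>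
      f (EuclideanSpace.single m 1)) hsum
    simp only [LinearMap.sum_apply, LinearMap.smul_apply, LinearMap.zero_apply] at h1
    rw [← Finset.add_sum_erase _ _ (Finset.mem_univ i), C.self] at h1
    simpa [Finset.sum_apply] using h1
  · intro i v h
    have h1 := C.span i (WithLp.toLp 2 v) (fun j hj => by
      have := h j hj
      rw [← hval i j (WithLp.toLp 2 v)]
      simpa using this)
    have h2 := congrArg (fun w : EuclideanSpace ℝ (Fin 3) => (w : Fin 3 → ℝ)) h1
    simpa using h2

end Tangle
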