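import Mathlib
import Pool.Agent.Lib_helper86.Tangle.Equiv
import Pool.Agent.Lib_helper86.Tangle.Reduce
import Pool.Agent.Lib_helper86.Tangle.Base63
import Pool.Agent.Lib_helper86.Tangle.Five4

/-! Assembly of the classification. -/

open Module

namespace Tangle

theorem tangled_iff (n d : ℕ) (hn : 1 ≤ n) (hd : 1 ≤ d) :
    (∃ S : Fin n → Affine.Simplex ℝ (EuclideanSpace ℝ (Fin d)) d, Tangled S) ↔
      (d = 3 ∧ 6 ≤ n) ∨ (4 ≤ d ∧ d + 2 ≤ n) := by
  constructor
  · rintro ⟨S, hS⟩
    obtain ⟨F⟩ := HFam_of_tangled hd S hS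
    have hne : Nonempty (Fin n) := ⟨⟨0, hn⟩⟩
    have hlt : d + 1 < n := by
      have := F.card_lt
      simpa using this
    rcases Nat.lt_or_ge d 4 with h4 | h4
    · left
      have hd1 : d ≠ 1 := by
        rintro rfl
        refine no_HFam_line F (EuclideanSpace.single (0 : Fin 1) (1:ℝ)) ?_ ?_
        · intro h
          have := congrArg (fun w : EuclideanSpace ℝ (Fin 1) => w 0) h
          simp at this
        · intro v
          refine ⟨v 0, ?_⟩
          ext m
          fin_cases m
          simp
      have hd2 : d ≠ 2 := by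
        rintro rfl
        refine no_HFam_plane F (EuclideanSpace.single (0 : Fin 2) (1:ℝ)) ?_
          ((EuclideanSpace.proj (1 : Fin 2) : EuclideanSpace ℝ (Fin 2) →L[ℝ] ℝ) :
            EuclideanSpace ℝ (Fin 2) →ₗ[ℝ] ℝ) ?_ ?_ (EuclideanSpace.single (1 : Fin 2) (1:ℝ)) ?_
        · intro h
          have := congrArg (fun w : EuclideanSpace ℝ (Fin 2) => w 0) h
          simp at this
        · simp
        · intro v hv
          refine ⟨v 0, ?_⟩
          have hv' : v 1 = 0 := hv
          ext m
          fin_cases m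
          · simp
          · simp [hv']
        · simp
      have hd3 : d = 3 := by omega
      subst hd3
      refine ⟨rfl, ?_⟩
      have h5' : n ≠ 5 := by
        rintro rfl
        obtain ⟨C⟩ := F.toCFam (by simp)
        obtain ⟨N, X, h1, h2, h3, h4', h5'⟩ := C.toVec
        exact no_five' N X h1 h2 h3 h4'
      omega
    · exact Or.inr ⟨h4, by omega⟩
  · rintro (⟨rfl, h6⟩ | ⟨h4, h6⟩)
    · obtain ⟨F⟩ := exists_HFam_three h6
      exact tangled_of_HFam hd F
    · obtain ⟨F⟩ := exists_HFam_high h4 h6
      exact tangled_of_HFam hd F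

end Tangle
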