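import Mathlib

/-! Five bodies in dimension three: the certificate checker and its soundness. -/

namespace Tangle

/-- A branching tree: `B v a b` branches on the sign of the determinant with code `v`, and `L c`
claims that the constraint with code `c` is violated. -/
inductive Tr : Type
  | B (v : ℕ) (a b : Tr) : Tr
  | L (c : ℕ) : Tr

/-- The first point of a constraint code. -/
def q0 (c : ℕ) : ℕ := c / 1000000 % 10
/-- The second point of a constraint code. -/
def q1 (c : ℕ) : ℕ := c / 100000 % 10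
/-- The third point of a constraint code. -/
def q2 (c : ℕ) : ℕ := c / 10000 % 10
/-- The fourth point of a constraint code. -/
def q3 (c : ℕ) : ℕ := c / 1000 % 10
/-- The fifth point of a constraint code. -/
def q4 (c : ℕ) : ℕ := c / 100 % 10
/-- The row of a constraint code. -/
def qr (c : ℕ) : ℕ := c % 100 / 2
/-- The orientation of a constraint code. -/
def qs (c : ℕ) : ℤ := if c % 2 = 0 then 1 else -1

/-- Code of a four-tuple. -/
def cod (a b c d : ℕ) : ℕ := a * 1000 + b * 100 + c * 10 + d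

/-- The five literals of a constraint. -/
def terms (R : ℕ → ℕ → ℤ) (c : ℕ) : List (ℕ × ℤ) :=
  [(cod (q1 c) (q2 c) (q3 c) (q4 c), qs c * R (qr c) (q0 c)),
   (cod (q0 c) (q2 c) (q3 c) (q4 c), -(qs c * R (qr c) (q1 c))),
   (cod (q0 c) (q1 c) (q3 c) (q4 c), qs c * R (qr c) (q2 c)),
   (cod (q0 c) (q1 c) (q2 c) (q4 c), -(qs c * R (qr c) (q3 c))),
   (cod (q0 c) (q1 c) (q2 c) (q3 c), qs c * R (qr c) (q4 c))]

/-- Well-formedness of a constraint code. -/
def wf (R : ℕ → ℕ → ℤ) (c : ℕ) : Bool :=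
  decide (q0 c < q1 c) && decide (q1 c < q2 c) && decide (q2 c < q3 c) && decide (q3 c < q4 c) &&
    decide (qr c ≤ 10) && (terms R c).any (fun p => decide (p.2 ≠ 0))

/-- The literal is false under the current assignment. -/
def isF (T F : List ℕ) (p : ℕ × ℤ) : Bool :=
  decide (p.2 = 0) || (decide (p.2 = 1) && decide (p.1 ∈ F)) ||
    (decide (p.2 = -1) && decide (p.1 ∈ T))

/-- The checker. -/
def chk (R : ℕ → ℕ → ℤ) : Tr → List ℕ → List ℕ → Bool
  | .B v a b, T, F => chk R a (v :: T) F && chk R b T (v :: F)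
  | .L c, T, F => wf R c && (terms R c).all (isF T F)

theorem chk_sound (R : ℕ → ℕ → ℤ) (χ : ℕ → Bool)
    (hv : ∀ c, wf R c = true → ∃ p ∈ terms R c, (p.2 = 1 ∧ χ p.1 = true) ∨
      (p.2 = -1 ∧ χ p.1 = false)) (t : Tr) :
    ∀ T F : List ℕ, (∀ v ∈ T, χ v = true) → (∀ v ∈ F, χ v = false) → chk R t T F = true →
      False := by
  induction t with
  | B v a b iha ihb =>
    intro T F hT hF h
    simp only [chk, Bool.and_eq_true] at h
    cases hχ : χ v with
    | true =>
      refine iha (v :: T) F ?_ hF h.1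
      intro w hw
      rcases List.mem_cons.1 hw with rfl | hw
      · exact hχ
      · exact hT w hw
    | false =>
      refine ihb T (v :: F) hT ?_ h.2
      intro w hw
      rcases List.mem_cons.1 hw with rfl | hw
      · exact hχ
      · exact hF w hw
  | L c =>
    intro T F hT hF h
    simp only [chk, Bool.and_eq_true] at h
    obtain ⟨p, hp, hsat⟩ := hv c h.1
    have h2 := List.all_eq_true.1 h.2 p hp
    simp only [isF, Bool.or_eq_true, Bool.and_eq_true, decide_eq_true_eq] at h2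
    rcases hsat with ⟨e1, e2⟩ | ⟨e1, e2⟩
    · rcases h2 with (h3 | ⟨h3, h4⟩) | ⟨h3, h4⟩
      · rw [e1] at h3; exact absurd h3 (by norm_num)
      · rw [hF _ h4] at e2; exact Bool.noConfusion e2
      · rw [e1] at h3; exact absurd h3 (by norm_num)
    · rcases h2 with (h3 | ⟨h3, h4⟩) | ⟨h3, h4⟩
      · rw [e1] at h3; exact absurd h3 (by norm_num)
      · rw [e1] at h3; exact absurd h3 (by norm_num)
      · rw [hT _ h4] at e2; exact Bool.noConfusion e2

/-- Value of a determinant with a given code. -/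
noncomputable def dval (D : ℕ → ℕ → ℕ → ℕ → ℝ) (v : ℕ) : ℝ :=
  D (v / 1000) (v / 100 % 10) (v / 10 % 10) (v % 10)

theorem dval_cod (D : ℕ → ℕ → ℕ → ℕ → ℝ) {a b c d : ℕ} (hb : b < 10) (hc : c < 10)
    (hd : d < 10) : dval D (cod a b c d) = D a b c d := by
  unfold dval cod
  have h1 : (a * 1000 + b * 100 + c * 10 + d) / 1000 = a := by omega
  have h2 : (a * 1000 + b * 100 + c * 10 + d) / 100 % 10 = b := by omega
  have h3 : (a * 1000 + b * 100 + c * 10 + d) / 10 % 10 = c := by omega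
  have h4 : (a * 1000 + b * 100 + c * 10 + d) % 10 = d := by omega
  rw [h1, h2, h3, h4]

/-- One term of a constraint. -/
theorem term_aux {D g : ℝ} {m e σ : ℤ} (hσ : σ = 1 ∨ σ = -1) (he : e = σ * m)
    (hm : (m = 1 ∧ 0 < g) ∨ (m = -1 ∧ g < 0) ∨ (m = 0 ∧ g = 0)) (hD : D ≠ 0)
    (hns : ¬ ((e = 1 ∧ 0 < D) ∨ (e = -1 ∧ ¬ 0 < D))) :
    (σ : ℝ) * (D * g) ≤ 0 ∧ (e ≠ 0 → (σ : ℝ) * (D * g) < 0) := by
  have key : (e ≠ 0 → (σ : ℝ) * (D * g) < 0) := by
    intro he0
    rcases hm with ⟨rfl, hg⟩ | ⟨rfl, hg⟩ | ⟨rfl, hg⟩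
    · rcases hσ with rfl | rfl
      · have : ¬ 0 < D := fun h => hns (Or.inl ⟨by rw [he]; norm_num, h⟩)
        have hDn : D < 0 := lt_of_le_of_ne (not_lt.1 this) hD
        push_cast; nlinarith [mul_neg_of_neg_of_pos hDn hg]
      · have : 0 < D := by
          by_contra h
          exact hns (Or.inr ⟨by rw [he]; norm_num, h⟩)
        push_cast; nlinarith [mul_pos this hg]
    · rcases hσ with rfl | rfl
      · have : 0 < D := by
          by_contra h
          exact hns (Or.inr ⟨by rw [he]; norm_num, h⟩)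
        push_cast; nlinarith [mul_neg_of_pos_of_neg this hg]
      · have : ¬ 0 < D := fun h => hns (Or.inl ⟨by rw [he]; norm_num, h⟩)
        have hDn : D < 0 := lt_of_le_of_ne (not_lt.1 this) hD
        push_cast; nlinarith [mul_pos_of_neg_of_neg hDn hg]
    · exact absurd (by rw [he]; ring) he0
  refine ⟨?_, key⟩
  by_cases he0 : e = 0
  · have hm0 : m = 0 := by
      rcases hσ with rfl | rfl
      · linarith
      · linarith
    rcases hm with ⟨h, -⟩ | ⟨h, -⟩ | ⟨-, hg⟩
    · rw [hm0] at h; exact absurd h (by norm_num)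
    · rw [hm0] at h; exact absurd h (by norm_num)
    · rw [hg]; simp
  · exact (key he0).le

theorem core_aux (R : ℕ → ℕ → ℤ) (g : ℕ → ℕ → ℝ) (D : ℕ → ℕ → ℕ → ℕ → ℝ)
    (hR : ∀ r k, r ≤ 10 → k < 10 → (R r k = 1 ∧ 0 < g r k) ∨ (R r k = -1 ∧ g r k < 0) ∨
      (R r k = 0 ∧ g r k = 0))
    (hD : ∀ a b c d, a < b → b < c → c < d → d < 10 → D a b c d ≠ 0)
    (hid : ∀ r a b c d e, r ≤ 10 → D b c d e * g r a - D a c d e * g r b + D a b d e * g r c -
      D a b c e * g r d + D a b c d * g r e = 0)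
    (t : Tr) (v0 : ℕ) (hv0 : 0 < dval D v0) (h : chk R t [v0] [] = true) : False := by
  refine chk_sound R (fun v => decide (0 < dval D v)) ?_ t [v0] [] ?_ ?_ h
  · intro c hc
    simp only [wf, Bool.and_eq_true, decide_eq_true_eq, List.any_eq_true] at hc
    obtain ⟨⟨⟨⟨⟨h01, h12⟩, h23⟩, h34⟩, hr⟩, hne⟩ := hc
    have hk : q4 c < 10 := Nat.mod_lt _ (by norm_num)
    have hσ : qs c = 1 ∨ qs c = -1 := by
      unfold qs; split_ifs <;> simp
    have hσ' : -qs c = 1 ∨ -qs c = -1 := by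
      rcases hσ with h | h <;> rw [h] <;> simp
    by_contra hcon
    have hall : ∀ p ∈ terms R c, ¬ ((p.2 = 1 ∧ 0 < dval D p.1) ∨ (p.2 = -1 ∧ ¬ 0 < dval D p.1)) := by
      intro p hp hs
      apply hcon
      refine ⟨p, hp, ?_⟩
      simpa using hs
    have m0 := hall (cod (q1 c) (q2 c) (q3 c) (q4 c), qs c * R (qr c) (q0 c)) (by simp [terms])
    have m1 := hall (cod (q0 c) (q2 c) (q3 c) (q4 c), -(qs c * R (qr c) (q1 c))) (by simp [terms])
    have m2 := hall (cod (q0 c) (q1 c) (q3 c) (q4 c), qs c * R (qr c) (q2 c)) (by simp [terms])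
    have m3 := hall (cod (q0 c) (q1 c) (q2 c) (q4 c), -(qs c * R (qr c) (q3 c))) (by simp [terms])
    have m4 := hall (cod (q0 c) (q1 c) (q2 c) (q3 c), qs c * R (qr c) (q4 c)) (by simp [terms])
    simp only at m0 m1 m2 m3 m4
    rw [dval_cod D (by omega) (by omega) (by omega)] at m0 m1 m2 m3 m4
    have t0 := term_aux hσ rfl (hR _ _ hr (by omega)) (hD _ _ _ _ h12 h23 h34 hk) m0
    have t1 := term_aux hσ' (by ring) (hR _ _ hr (by omega))
      (hD _ _ _ _ (by omega) h23 h34 hk) m1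
    have t2 := term_aux hσ rfl (hR _ _ hr (by omega)) (hD _ _ _ _ h01 (by omega) h34 hk) m2
    have t3 := term_aux hσ' (by ring) (hR _ _ hr (by omega))
      (hD _ _ _ _ h01 h12 (by omega) hk) m3
    have t4 := term_aux hσ rfl (hR _ _ hr (by omega)) (hD _ _ _ _ h01 h12 h23 (by omega)) m4
    have hi := hid (qr c) (q0 c) (q1 c) (q2 c) (q3 c) (q4 c) hr
    have hi' := congrArg (fun t => (qs c : ℝ) * t) hi
    simp only [mul_zero] at hi'
    push_cast at t0 t1 t2 t3 t4
    obtain ⟨p, hp, hp0⟩ := hne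
    simp only [terms, List.mem_cons, List.not_mem_nil, or_false] at hp
    rcases hp with rfl | rfl | rfl | rfl | rfl
    · have := t0.2 hp0; linarith [t1.1, t2.1, t3.1, t4.1]
    · have := t1.2 hp0; linarith [t0.1, t2.1, t3.1, t4.1]
    · have := t2.2 hp0; linarith [t0.1, t1.1, t3.1, t4.1]
    · have := t3.2 hp0; linarith [t0.1, t1.1, t2.1, t4.1]
    · have := t4.2 hp0; linarith [t0.1, t1.1, t2.1, t3.1]
  · intro v hv
    simp only [List.mem_singleton] at hv
    subst hv
    simpa using hv0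
  · intro v hv
    exact absurd hv (by simp)

theorem core (R : ℕ → ℕ → ℤ) (g : ℕ → ℕ → ℝ) (D : ℕ → ℕ → ℕ → ℕ → ℝ)
    (hR : ∀ r k, r ≤ 10 → k < 10 → (R r k = 1 ∧ 0 < g r k) ∨ (R r k = -1 ∧ g r k < 0) ∨
      (R r k = 0 ∧ g r k = 0))
    (hD : ∀ a b c d, a < b → b < c → c < d → d < 10 → D a b c d ≠ 0)
    (hid : ∀ r a b c d e, r ≤ 10 → D b c d e * g r a - D a c d e * g r b + D a b d e * g r c -
      D a b c e * g r d + D a b c d * g r e = 0)
    (t : Tr) (a b c d : ℕ) (hab : a < b) (hbc : b < c) (hcd : c < d) (hd : d < 10)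
    (h : chk R t [cod a b c d] [] = true) : False := by
  rcases lt_or_gt_of_ne (hD a b c d hab hbc hcd hd) with h0 | h0
  · refine core_aux R g (fun a b c d => - D a b c d) hR
      (fun a b c d h1 h2 h3 h4 => neg_ne_zero.2 (hD a b c d h1 h2 h3 h4)) ?_ t _ ?_ h
    · intro r a b c d e hr
      have := hid r a b c d e hr
      linarith
    · rw [dval_cod _ (by omega) (by omega) hd]
      linarith
  · refine core_aux R g D hR hD hid t _ ?_ h
    rw [dval_cod _ (by omega) (by omega) hd]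
    exact h0

end Tangle
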